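import Mathlib

set_option autoImplicit false

open MeasureTheory Filter Topology Set Metric
open scoped Real ENNReal

namespace Pool.Sph

/-- Euclidean space `ℝ⁸`. -/
abbrev E8 : Type := EuclideanSpace ℝ (Fin 8)

/-- The unit sphere `S⁷` of `ℝ⁸`. -/
abbrev S7 : Type := Metric.sphere (0 : E8) 1

/-- The (unnormalised) surface measure on `S⁷`: Mathlib's `Measure.toSphere` of Lebesgue measure. -/
noncomputable def sig : Measure S7 := (volume : Measure E8).toSphere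

instance : IsFiniteMeasure sig := by unfold sig; infer_instance

/-- The Fourier extension operator `f ↦ ∫ e^{-i x·ω} f(ω) dσ(ω)`. -/
noncomputable def ext (f : S7 → ℂ) (x : E8) : ℂ :=
  ∫ ω : S7, Complex.exp (-(Complex.I * ((inner ℝ x (ω : E8) : ℝ) : ℂ))) * f ω ∂sig

/-- The action of a linear isometry on the sphere. -/
noncomputable def act (A : E8 ≃ₗᵢ[ℝ] E8) (ω : S7) : S7 :=
  ⟨A (ω : E8), by rw [mem_sphere_zero_iff_norm, A.norm_map]; exact norm_eq_of_mem_sphere ω⟩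

noncomputable def mu2 : Measure (S7 × S7) := sig.prod sig

instance : IsFiniteMeasure mu2 := by unfold mu2; infer_instance

noncomputable def mu4 : Measure ((S7 × S7) × (S7 × S7)) := mu2.prod mu2

instance : IsFiniteMeasure mu4 := by unfold mu4; infer_instance

/-- Gaussian approximate identity on `ℝ⁸`, total mass `256 π⁸ = (2π)⁸`. -/
noncomputable def Gk (c : ℝ) (y : E8) : ℝ :=
  256 * π ^ 4 * c ^ 8 * Real.exp (-(c ^ 2 * ‖y‖ ^ 2))

/-- `G_c * σ * σ`. -/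
noncomputable def Mc (c : ℝ) (x : E8) : ℝ :=
  ∫ q : S7 × S7, Gk c (x + ((q.1 : E8) + (q.2 : E8))) ∂mu2

/-- The radial density of `σ * σ` up to a constant. -/
noncomputable def Dd (ρ : ℝ) : ℝ := (max 0 (1 - ρ ^ 2 / 4)) ^ (5 / 2 : ℝ) / ρ

/-- The constant `|S⁶|`. -/
noncomputable def cS : ℝ := sig.real univ / ∫ s in (-1 : ℝ)..1, (1 - s ^ 2) ^ (5 / 2 : ℝ)

/-- `|a+b|² + |c+d|²`. -/
noncomputable def T2 (a b c d : E8) : ℝ := ‖a + b‖ ^ 2 + ‖c + d‖ ^ 2

/-- The weight (before normalisation) attached to the pairing `{a,b},{c,d}`. -/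
noncomputable def Pw (a b c d : E8) : ℝ :=
  T2 a b c d * ((T2 a b c d + T2 a c b d + T2 a d b c) ^ 2
    + 7 / 12 * (T2 a b c d * (T2 a c b d + T2 a d b c) - T2 a c b d ^ 2 - T2 a d b c ^ 2))

/-- The (regularised) kernel of the quadratic form in `g = f²`. -/
noncomputable def Kc (c : ℝ) (p : S7 × S7) : ℝ :=
  3 / 512 * ∫ q : S7 × S7, Pw (p.1 : E8) (p.2 : E8) (q.1 : E8) (q.2 : E8) *
    Gk c (((p.1 : E8) + (p.2 : E8)) + ((q.1 : E8) + (q.2 : E8))) ∂mu2

/-- The inner product of the two points. -/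
noncomputable def ip (p : S7 × S7) : ℝ := inner ℝ (p.1 : E8) (p.2 : E8)

/-- The limit kernel (up to a constant). -/
noncomputable def Kf (s : ℝ) : ℝ :=
  Real.sqrt (1 - s ^ 2) * ((1 - s) ^ 2 * (51 + 8 * s - 11 * s ^ 2))

/-- Its even part. -/
noncomputable def Ke (s : ℝ) : ℝ := Real.sqrt (1 - s ^ 2) * (51 + 24 * s ^ 2 - 11 * s ^ 4)

/-- Gaussian-regularised fourth power of the `L⁴` norm of the extension. -/
noncomputable def Jc (c : ℝ) (f : S7 → ℂ) : ℝ :=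
  ∫ x : E8, ‖ext f x‖ ^ 4 * Real.exp (-(‖x‖ ^ 2 / (4 * c ^ 2)))

/-- Fourth power of the `L⁴` norm of the extension. -/
noncomputable def J (f : S7 → ℂ) : ℝ≥0∞ := ∫⁻ x : E8, ‖ext f x‖ₑ ^ 4

/-- `(|f(ω)|² + |f(-ω)|²)/2`. -/
noncomputable def gs (f : S7 → ℂ) (ω : S7) : ℝ := (‖f ω‖ ^ 2 + ‖f (-ω)‖ ^ 2) / 2

/-- The antipodal symmetrisation of `|f|`. -/
noncomputable def Ns (f : S7 → ℂ) (ω : S7) : ℝ := Real.sqrt (gs f ω)

end Pool.Sph
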