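import Pool.Agent.Helper458.Sph.Defs

set_option autoImplicit false

open MeasureTheory Filter Topology Set Metric
open scoped Real ENNReal

namespace Pool.Sph



theorem Dd_facts : (∀ ρ : ℝ, 0 ≤ ρ → 0 ≤ Dd ρ) ∧ (∀ ρ : ℝ, 0 < ρ → Dd ρ ≤ 1 / ρ) ∧
    (∀ ρ : ℝ, 2 ≤ ρ → Dd ρ = 0) ∧ (∀ ρ : ℝ, 0 ≤ ρ → ρ ^ 2 * Dd ρ ≤ 2) ∧
    ContinuousOn Dd (Ioi 0) ∧ Measurable Dd := by
  have hc : Continuous (fun ρ : ℝ => (max 0 (1 - ρ ^ 2 / 4)) ^ (5 / 2 : ℝ)) := by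
    refine Continuous.rpow_const (by fun_prop) fun x => Or.inr (by norm_num)
  have h1 : ∀ ρ : ℝ, 0 ≤ (max 0 (1 - ρ ^ 2 / 4)) ^ (5 / 2 : ℝ) := fun ρ =>
    Real.rpow_nonneg (le_max_left _ _) _
  have h2 : ∀ ρ : ℝ, (max 0 (1 - ρ ^ 2 / 4)) ^ (5 / 2 : ℝ) ≤ 1 := fun ρ =>
    Real.rpow_le_one (le_max_left _ _) (max_le zero_le_one (by nlinarith [sq_nonneg ρ])) (by norm_num)
  have h3 : ∀ ρ : ℝ, 2 ≤ ρ → Dd ρ = 0 := by
    intro ρ hρ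
    unfold Dd
    rw [max_eq_left (by nlinarith), Real.zero_rpow (by norm_num), zero_div]
  refine ⟨fun ρ hρ => div_nonneg (h1 ρ) hρ, fun ρ hρ => ?_, h3, fun ρ hρ => ?_, ?_, ?_⟩
  · exact div_le_div_of_nonneg_right (h2 ρ) hρ.le
  · rcases hρ.eq_or_lt with h | h
    · rw [← h]; norm_num
    · rcases le_total ρ 2 with h4 | h4
      · have e : ρ ^ 2 * Dd ρ = ρ * (max 0 (1 - ρ ^ 2 / 4)) ^ (5 / 2 : ℝ) := by
          unfold Dd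
          field_simp
        rw [e]
        calc ρ * (max 0 (1 - ρ ^ 2 / 4)) ^ (5 / 2 : ℝ) ≤ 2 * 1 :=
              mul_le_mul h4 (h2 ρ) (h1 ρ) (by norm_num)
          _ = 2 := by norm_num
      · rw [h3 ρ h4, mul_zero]; norm_num
  · unfold Dd
    exact hc.continuousOn.div continuousOn_id fun x hx => (ne_of_gt hx)
  · unfold Dd
    exact hc.measurable.div measurable_id

end Pool.Sph
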