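import Pool.Agent.Helper458.Sph.Defs
import Pool.Agent.Helper458.Sph.P_Dd_facts

set_option autoImplicit false

open MeasureTheory Filter Topology Set Metric
open scoped Real ENNReal

namespace Pool.Sph



theorem Dd_int : Integrable (fun z : E8 => Dd ‖z‖) := by
  obtain ⟨h0, h1, h2, h3, h4, h5⟩ := Dd_facts
  rw [integrable_fun_norm_addHaar (volume : Measure E8) (f := Dd)]
  have hdim : Module.finrank ℝ E8 = 8 := by simp
  rw [hdim]
  have hunion : Ioi (0 : ℝ) = Ioo 0 2 ∪ Ici 2 := by
    ext x
    simp only [mem_Ioi, mem_union, mem_Ioo, mem_Ici]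
    constructor
    · intro hx
      rcases lt_or_ge x 2 with h | h
      · exact Or.inl ⟨hx, h⟩
      · exact Or.inr h
    · rintro (h | h)
      · exact h.1
      · linarith
  rw [hunion]
  apply IntegrableOn.union
  · apply Measure.integrableOn_of_bounded (M := 64)
    · rw [Real.volume_Ioo]
      exact ENNReal.ofReal_ne_top
    · apply Measurable.aestronglyMeasurable
      exact (measurable_id.pow_const _).smul h5
    · rw [ae_restrict_iff' measurableSet_Ioo]
      refine Filter.Eventually.of_forall (fun x hx => ?_)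
      have hx0 : 0 < x := hx.1
      have hx2 : x < 2 := hx.2
      have e1 : 0 ≤ Dd x := h0 x hx0.le
      have e2 : Dd x ≤ 1 / x := h1 x hx0
      rw [smul_eq_mul, Real.norm_of_nonneg (by positivity)]
      calc x ^ (8 - 1) * Dd x ≤ x ^ (8 - 1) * (1 / x) := by gcongr
        _ = x ^ 6 := by
          field_simp
        _ ≤ 2 ^ 6 := by gcongr
        _ = 64 := by norm_num
  · have hz : IntegrableOn (fun _ : ℝ => (0 : ℝ)) (Ici 2) := integrableOn_zero
    apply hz.congr_fun _ measurableSet_Ici
    intro x hx
    simp only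
    rw [h2 x hx, smul_zero]

end Pool.Sph
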