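import Pool.Agent.Helper458.Sph.Defs

set_option autoImplicit false

open MeasureTheory Filter Topology Set Metric
open scoped Real ENNReal

namespace Pool.Sph



theorem Gk_cont (c : ℝ) : Continuous (Gk c) ∧ (∀ y, 0 ≤ Gk c y) ∧ (∀ y, Gk c (-y) = Gk c y) ∧
    (∀ (A : E8 ≃ₗᵢ[ℝ] E8) (y : E8), Gk c (A y) = Gk c y) ∧
    ∀ y, Gk c y ≤ 256 * π ^ 4 * c ^ 8 := by
  have h8 : 0 ≤ c ^ 8 := by positivity
  have hK : 0 ≤ 256 * π ^ 4 * c ^ 8 := by positivity
  refine ⟨?_, ?_, ?_, ?_, ?_⟩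
  · unfold Gk
    fun_prop
  · intro y
    exact mul_nonneg hK (Real.exp_pos _).le
  · intro y
    unfold Gk
    rw [norm_neg]
  · intro A y
    unfold Gk
    rw [A.norm_map]
  · intro y
    unfold Gk
    apply mul_le_of_le_one_right hK
    apply Real.exp_le_one_iff.mpr
    have : 0 ≤ c ^ 2 * ‖y‖ ^ 2 := by positivity
    linarith

end Pool.Sph
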