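import Pool.Agent.Helper458.Sph.Defs

set_option autoImplicit false

open MeasureTheory Filter Topology Set Metric
open scoped Real ENNReal

namespace Pool.Sph



theorem Gk_int (c : ℝ) (hc : 0 < c) (x : E8) :
    Integrable (fun z : E8 => Gk c (x + z)) ∧ ∫ z : E8, Gk c (x + z) = 256 * π ^ 8 := by
  have hint : ∫ z : E8, Gk c (x + z) = 256 * π ^ 8 := by
    rw [integral_add_left_eq_self (fun z : E8 => Gk c z) x]
    have h1 : ∀ z : E8, Gk c z = 256 * π ^ 4 * c ^ 8 * Real.exp (-(c ^ 2) * ‖z‖ ^ 2) := by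
      intro z
      unfold Gk
      rw [neg_mul]
    simp only [h1]
    rw [integral_const_mul, GaussianFourier.integral_rexp_neg_mul_sq_norm (by positivity : 0 < c ^ 2)]
    have h2 : ((Module.finrank ℝ E8 : ℝ) / 2) = ((4 : ℕ) : ℝ) := by
      simp [E8]
      norm_num
    rw [h2, Real.rpow_natCast]
    field_simp
  refine ⟨?_, hint⟩
  by_contra hni
  rw [integral_undef hni] at hint
  have : (0 : ℝ) < 256 * π ^ 8 := by positivity
  linarith

end Pool.Sph
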