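import Pool.Agent.Helper458.Sph.Defs

set_option autoImplicit false

open MeasureTheory Filter Topology Set Metric
open scoped Real ENNReal

namespace Pool.Sph



theorem Gk_one_le (c : ℝ) (hc : 0 < c) (y : E8) :
    ‖y‖ * Gk c y ≤ 16 / c * Gk (c / Real.sqrt 2) y := by
  unfold Gk
  have h2 : Real.sqrt 2 ^ 2 = 2 := Real.sq_sqrt (by norm_num)
  have h8 : (c / Real.sqrt 2) ^ 8 = c ^ 8 / 16 := by
    rw [div_pow]
    congr 1
    calc Real.sqrt 2 ^ 8 = (Real.sqrt 2 ^ 2) ^ 4 := by ring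
      _ = 16 := by rw [h2]; norm_num
  have hs : (c / Real.sqrt 2) ^ 2 = c ^ 2 / 2 := by
    rw [div_pow, h2]
  rw [h8, hs]
  obtain ⟨t, ht⟩ : ∃ t : ℝ, t = c * ‖y‖ := ⟨_, rfl⟩
  have e1 : c ^ 2 * ‖y‖ ^ 2 = t ^ 2 := by rw [ht]; ring
  have e2 : c ^ 2 / 2 * ‖y‖ ^ 2 = t ^ 2 / 2 := by rw [ht]; ring
  rw [e1, e2]
  have h3 : t ≤ Real.exp (t ^ 2 / 2) := by
    have h4 := Real.add_one_le_exp (t ^ 2 / 2)
    nlinarith [sq_nonneg (t - 1)]
  have h5 : t * Real.exp (-(t ^ 2)) ≤ Real.exp (-(t ^ 2 / 2)) := by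
    calc t * Real.exp (-(t ^ 2)) ≤ Real.exp (t ^ 2 / 2) * Real.exp (-(t ^ 2)) :=
          mul_le_mul_of_nonneg_right h3 (Real.exp_pos _).le
      _ = Real.exp (-(t ^ 2 / 2)) := by
          rw [← Real.exp_add]
          congr 1
          ring
  have h6 : ‖y‖ = t / c := by rw [ht]; field_simp
  rw [h6]
  calc t / c * (256 * π ^ 4 * c ^ 8 * Real.exp (-t ^ 2))
      = (256 * π ^ 4 * c ^ 8 / c) * (t * Real.exp (-(t ^ 2))) := by
        ring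
    _ ≤ (256 * π ^ 4 * c ^ 8 / c) * Real.exp (-(t ^ 2 / 2)) :=
        mul_le_mul_of_nonneg_left h5 (by positivity)
    _ = 16 / c * (256 * π ^ 4 * (c ^ 8 / 16) * Real.exp (-(t ^ 2 / 2))) := by
        ring

end Pool.Sph
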