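import Pool.Agent.Helper458.Sph.Defs

set_option autoImplicit false

open MeasureTheory Filter Topology Set Metric
open scoped Real ENNReal

namespace Pool.Sph



theorem Gk_sq_le (c : ℝ) (hc : 0 < c) (y : E8) :
    ‖y‖ ^ 2 * Gk c y ≤ 16 / c ^ 2 * Gk (c / Real.sqrt 2) y := by
  have h2 : Real.sqrt 2 ^ 2 = 2 := Real.sq_sqrt (by norm_num)
  have h8 : (c / Real.sqrt 2) ^ 8 = c ^ 8 / 16 := by
    rw [div_pow]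
    have : Real.sqrt 2 ^ 8 = (Real.sqrt 2 ^ 2) ^ 4 := by ring
    rw [this, h2]
    norm_num
  have hs : (c / Real.sqrt 2) ^ 2 = c ^ 2 / 2 := by rw [div_pow, h2]
  unfold Gk
  rw [h8, hs]
  have ht0 : 0 ≤ c ^ 2 * ‖y‖ ^ 2 := by positivity
  have h3 := Real.quadratic_le_exp_of_nonneg (by positivity : 0 ≤ c ^ 2 * ‖y‖ ^ 2 / 2)
  have h4 : c ^ 2 * ‖y‖ ^ 2 ≤ Real.exp (c ^ 2 * ‖y‖ ^ 2 / 2) := by
    nlinarith [sq_nonneg (c ^ 2 * ‖y‖ ^ 2 - 2)]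
  have h5 : Real.exp (c ^ 2 * ‖y‖ ^ 2 / 2) * Real.exp (-(c ^ 2 * ‖y‖ ^ 2)) =
      Real.exp (-(c ^ 2 / 2 * ‖y‖ ^ 2)) := by
    rw [← Real.exp_add]
    congr 1
    ring
  have h6 : c ^ 2 * ‖y‖ ^ 2 * Real.exp (-(c ^ 2 * ‖y‖ ^ 2)) ≤
      Real.exp (-(c ^ 2 / 2 * ‖y‖ ^ 2)) := by
    rw [← h5]
    exact mul_le_mul_of_nonneg_right h4 (Real.exp_pos _).le
  have h7 : 0 ≤ 256 * π ^ 4 * c ^ 6 := by positivity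
  have h9 := mul_le_mul_of_nonneg_left h6 h7
  calc ‖y‖ ^ 2 * (256 * π ^ 4 * c ^ 8 * Real.exp (-(c ^ 2 * ‖y‖ ^ 2)))
      = 256 * π ^ 4 * c ^ 6 * (c ^ 2 * ‖y‖ ^ 2 * Real.exp (-(c ^ 2 * ‖y‖ ^ 2))) := by ring
    _ ≤ 256 * π ^ 4 * c ^ 6 * Real.exp (-(c ^ 2 / 2 * ‖y‖ ^ 2)) := h9
    _ = 16 / c ^ 2 * (256 * π ^ 4 * (c ^ 8 / 16) * Real.exp (-(c ^ 2 / 2 * ‖y‖ ^ 2))) := by
        field_simp

end Pool.Sph
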