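import Pool.Agent.Helper458.Sph.Defs

set_option autoImplicit false

open MeasureTheory Filter Topology Set Metric
open scoped Real ENNReal

namespace Pool.Sph



theorem J_elp (f : S7 → ℂ) : J f = eLpNorm (ext f) 4 volume ^ 4 := by
  rw [eLpNorm_eq_lintegral_rpow_enorm_toReal (by norm_num) (by norm_num)]
  have h4 : ((4 : ℝ≥0∞)).toReal = 4 := by norm_num
  rw [h4, ← ENNReal.rpow_natCast, ← ENNReal.rpow_mul]
  norm_num
  unfold J
  congr 1

end Pool.Sph
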