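import Pool.Agent.Helper458.Sph.Defs

set_option autoImplicit false

open MeasureTheory Filter Topology Set Metric
open scoped Real ENNReal

namespace Pool.Sph



theorem ext_cont (f : S7 → ℂ) (hf : Integrable f sig) :
    Continuous (ext f) ∧ ∀ x, ‖ext f x‖ ≤ ∫ ω, ‖f ω‖ ∂sig := by
  have hn : ∀ (x : E8) (ω : S7),
      ‖Complex.exp (-(Complex.I * ((inner ℝ x (ω : E8) : ℝ) : ℂ))) * f ω‖ = ‖f ω‖ := by
    intro x ω
    rw [norm_mul]
    have : ‖Complex.exp (-(Complex.I * ((inner ℝ x (ω : E8) : ℝ) : ℂ)))‖ = 1 := by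
      rw [Complex.norm_exp]
      simp
    rw [this, one_mul]
  have hc : ∀ ω : S7, Continuous (fun x : E8 =>
      Complex.exp (-(Complex.I * ((inner ℝ x (ω : E8) : ℝ) : ℂ))) * f ω) := by
    intro ω
    fun_prop
  have hm : ∀ x : E8, AEStronglyMeasurable (fun ω : S7 =>
      Complex.exp (-(Complex.I * ((inner ℝ x (ω : E8) : ℝ) : ℂ))) * f ω) sig := by
    intro x
    refine AEStronglyMeasurable.mul ?_ hf.aestronglyMeasurable
    apply Continuous.aestronglyMeasurable
    fun_prop
  refine ⟨?_, fun x => ?_⟩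
  · unfold ext
    refine continuous_of_dominated (bound := fun ω => ‖f ω‖) hm ?_ hf.norm ?_
    · intro x
      exact Filter.Eventually.of_forall (fun ω => (hn x ω).le)
    · exact Filter.Eventually.of_forall hc
  · unfold ext
    refine le_trans (norm_integral_le_integral_norm _) (le_of_eq ?_)
    exact integral_congr_ae (Filter.Eventually.of_forall (fun ω => hn x ω))

end Pool.Sph
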