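import Pool.Agent.Helper458.Sph.Defs
import Pool.Agent.Helper458.Sph.P_ext_cont

set_option autoImplicit false

open MeasureTheory Filter Topology Set Metric
open scoped Real ENNReal

namespace Pool.Sph



theorem J_le_gauss_int (c : ℝ) (hc : 0 < c) :
    Integrable (fun x : E8 => Real.exp (-(‖x‖ ^ 2 / (4 * c ^ 2)))) := by
  have h0 : 0 < (((1 / (4 * c ^ 2) : ℝ) : ℂ)).re := by
    rw [Complex.ofReal_re]; positivity
  have := (GaussianFourier.integrable_cexp_neg_mul_sq_norm_add (V := E8) h0 0 0).norm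
  refine this.congr (Filter.Eventually.of_forall fun x => ?_)
  simp only [Complex.norm_exp]
  congr 1
  simp only [inner_zero_left, Complex.ofReal_zero, mul_zero, add_zero]
  have : (-((1 / (4 * c ^ 2) : ℝ) : ℂ) * (‖x‖ : ℂ) ^ 2) =
      ((-(1 / (4 * c ^ 2)) * ‖x‖ ^ 2 : ℝ) : ℂ) := by push_cast; ring
  rw [this, Complex.ofReal_re]
  ring

theorem J_le (f : S7 → ℂ) (hf : Integrable f sig) (B : ℝ → ℝ) (b : ℝ)
    (hB : Tendsto B atTop (𝓝 b)) (h : ∀ c : ℝ, 1 ≤ c → Jc c f ≤ B c) :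
    J f ≤ ENNReal.ofReal b := by
  obtain ⟨hcont, hbd⟩ := ext_cont f hf
  set K : ℝ := ∫ ω, ‖f ω‖ ∂sig with hK
  let F : ℕ → E8 → ℝ := fun n x =>
    ‖ext f x‖ ^ 4 * Real.exp (-(‖x‖ ^ 2 / (4 * ((n : ℝ) + 1) ^ 2)))
  have hFc : ∀ n, Continuous (F n) := fun n => by
    refine (hcont.norm.pow 4).mul (Real.continuous_exp.comp ?_)
    exact ((continuous_norm.pow 2).div_const _).neg
  have hFi : ∀ n, Integrable (F n) := fun n => by
    have hn : (0 : ℝ) < (n : ℝ) + 1 := by positivity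
    refine ((J_le_gauss_int ((n : ℝ) + 1) hn).const_mul (K ^ 4)).mono'
      (hFc n).aestronglyMeasurable (Filter.Eventually.of_forall fun x => ?_)
    have h0 : 0 ≤ F n x := by positivity
    rw [Real.norm_of_nonneg h0]
    exact mul_le_mul_of_nonneg_right (pow_le_pow_left₀ (norm_nonneg _) (hbd x) 4)
      (Real.exp_pos _).le
  have hFn : ∀ n x, 0 ≤ F n x := fun n x => by positivity
  have hlim : ∀ x, Tendsto (fun n => ENNReal.ofReal (F n x)) atTop (𝓝 (‖ext f x‖ₑ ^ 4)) := by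
    intro x
    have h1 : ‖ext f x‖ₑ ^ 4 = ENNReal.ofReal (‖ext f x‖ ^ 4 * Real.exp (-0)) := by
      rw [neg_zero, Real.exp_zero, mul_one, ENNReal.ofReal_pow (norm_nonneg _),
        ofReal_norm_eq_enorm]
    rw [h1]
    refine ENNReal.tendsto_ofReal (tendsto_const_nhds.mul
      ((Real.continuous_exp.tendsto _).comp (Tendsto.neg ?_)))
    have h2 : Tendsto (fun n : ℕ => 4 * ((n : ℝ) + 1) ^ 2) atTop atTop := by
      refine Tendsto.const_mul_atTop (by norm_num) ?_
      refine (tendsto_pow_atTop (two_ne_zero)).comp ?_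
      exact tendsto_atTop_add_const_right _ _ tendsto_natCast_atTop_atTop
    exact Tendsto.div_atTop tendsto_const_nhds h2
  have hJ : J f = ∫⁻ x : E8, liminf (fun n => ENNReal.ofReal (F n x)) atTop := by
    unfold J
    refine lintegral_congr fun x => ?_
    exact (hlim x).liminf_eq.symm
  rw [hJ]
  refine (lintegral_liminf_le fun n => ((hFc n).measurable.ennreal_ofReal)).trans ?_
  have h3 : ∀ n : ℕ, ∫⁻ x : E8, ENNReal.ofReal (F n x) ≤ ENNReal.ofReal (B ((n : ℝ) + 1)) := by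
    intro n
    rw [← ofReal_integral_eq_lintegral_ofReal (hFi n) (Filter.Eventually.of_forall (hFn n))]
    exact ENNReal.ofReal_le_ofReal (h ((n : ℝ) + 1) (by
      have : (0 : ℝ) ≤ n := Nat.cast_nonneg n
      linarith))
  have h4 : Tendsto (fun n : ℕ => ENNReal.ofReal (B ((n : ℝ) + 1))) atTop
      (𝓝 (ENNReal.ofReal b)) :=
    ENNReal.tendsto_ofReal (hB.comp
      (tendsto_atTop_add_const_right _ _ tendsto_natCast_atTop_atTop))
  rw [← h4.liminf_eq]
  exact liminf_le_liminf (Filter.Eventually.of_forall h3)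

end Pool.Sph
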