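import Pool.Agent.Helper458.Sph.Defs
import Pool.Agent.Helper458.Sph.P_ext_cont

set_option autoImplicit false

open MeasureTheory Filter Topology Set Metric
open scoped Real ENNReal

namespace Pool.Sph



theorem Jc_le_J (f : S7 → ℂ) (hf : Integrable f sig) (c : ℝ) (hc : 0 < c) :
    ENNReal.ofReal (Jc c f) ≤ J f ∧ 0 ≤ Jc c f := by
  have hnn : ∀ x : E8, 0 ≤ ‖ext f x‖ ^ 4 * Real.exp (-(‖x‖ ^ 2 / (4 * c ^ 2))) := by
    intro x; positivity
  refine ⟨?_, integral_nonneg hnn⟩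
  by_cases hint : Integrable (fun x : E8 => ‖ext f x‖ ^ 4 * Real.exp (-(‖x‖ ^ 2 / (4 * c ^ 2))))
  · unfold Jc J
    rw [ofReal_integral_eq_lintegral_ofReal hint (Filter.Eventually.of_forall hnn)]
    apply lintegral_mono
    intro x
    have h1 : ‖ext f x‖ ^ 4 * Real.exp (-(‖x‖ ^ 2 / (4 * c ^ 2))) ≤ ‖ext f x‖ ^ 4 := by
      apply mul_le_of_le_one_right (by positivity)
      apply Real.exp_le_one_iff.2
      have : 0 ≤ ‖x‖ ^ 2 / (4 * c ^ 2) := by positivity
      linarith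
    refine (ENNReal.ofReal_le_ofReal h1).trans ?_
    rw [ENNReal.ofReal_pow (norm_nonneg _), ofReal_norm_eq_enorm]
  · unfold Jc
    rw [integral_undef hint]
    simp

end Pool.Sph
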