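import Pool.Agent.Helper458.Sph.Defs

set_option autoImplicit false

open MeasureTheory Filter Topology Set Metric
open scoped Real ENNReal

namespace Pool.Sph



theorem ext_four (f : S7 → ℂ) (hf : Integrable f sig) (x : E8) :
    ((‖ext f x‖ ^ 4 : ℝ) : ℂ) = ∫ p : (S7 × S7) × (S7 × S7),
      f p.1.1 * (starRingEnd ℂ) (f p.1.2) * f p.2.1 * (starRingEnd ℂ) (f p.2.2) *
      Complex.exp (-(Complex.I * ((inner ℝ x (((p.1.1 : E8) - (p.1.2 : E8)) +
        ((p.2.1 : E8) - (p.2.2 : E8))) : ℝ) : ℂ))) ∂mu4 := by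
  set a : S7 → ℂ := fun ω =>
    Complex.exp (-(Complex.I * ((inner ℝ x (ω : E8) : ℝ) : ℂ))) * f ω with ha
  have h1 : ext f x = ∫ ω, a ω ∂sig := rfl
  have h2 : (starRingEnd ℂ) (ext f x) = ∫ ω, (starRingEnd ℂ) (a ω) ∂sig := by
    rw [h1, integral_conj]
  have h3 : ∫ q : S7 × S7, a q.1 * (starRingEnd ℂ) (a q.2) ∂mu2 =
      ext f x * (starRingEnd ℂ) (ext f x) := by
    unfold mu2
    rw [integral_prod_mul (μ := sig) (ν := sig) a (fun ω => (starRingEnd ℂ) (a ω)), h2, h1]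
  have h4 : ∫ p : (S7 × S7) × (S7 × S7), (a p.1.1 * (starRingEnd ℂ) (a p.1.2)) *
      (a p.2.1 * (starRingEnd ℂ) (a p.2.2)) ∂mu4 =
      (ext f x * (starRingEnd ℂ) (ext f x)) * (ext f x * (starRingEnd ℂ) (ext f x)) := by
    unfold mu4
    rw [integral_prod_mul (μ := mu2) (ν := mu2) (fun q : S7 × S7 => a q.1 * (starRingEnd ℂ) (a q.2))
      (fun q : S7 × S7 => a q.1 * (starRingEnd ℂ) (a q.2)), h3]
  have h5 : ((‖ext f x‖ ^ 4 : ℝ) : ℂ) =
      (ext f x * (starRingEnd ℂ) (ext f x)) * (ext f x * (starRingEnd ℂ) (ext f x)) := by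
    rw [Complex.mul_conj, Complex.normSq_eq_norm_sq, ← Complex.ofReal_mul]
    congr 1
    ring
  rw [h5, ← h4]
  congr 1
  funext p
  have hexp : ∀ r : ℝ, (starRingEnd ℂ) (Complex.exp (-(Complex.I * (r : ℂ)))) =
      Complex.exp (Complex.I * (r : ℂ)) := by
    intro r
    rw [← Complex.exp_conj, map_neg, map_mul, Complex.conj_I, Complex.conj_ofReal]
    congr 1
    ring
  simp only [ha, map_mul, hexp]
  have h6 : Complex.exp (-(Complex.I * ((inner ℝ x (((p.1.1 : E8) - (p.1.2 : E8)) +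
        ((p.2.1 : E8) - (p.2.2 : E8))) : ℝ) : ℂ))) =
      Complex.exp (-(Complex.I * ((inner ℝ x (p.1.1 : E8) : ℝ) : ℂ))) *
      Complex.exp (Complex.I * ((inner ℝ x (p.1.2 : E8) : ℝ) : ℂ)) *
      (Complex.exp (-(Complex.I * ((inner ℝ x (p.2.1 : E8) : ℝ) : ℂ))) *
      Complex.exp (Complex.I * ((inner ℝ x (p.2.2 : E8) : ℝ) : ℂ))) := by
    rw [← Complex.exp_add, ← Complex.exp_add, ← Complex.exp_add, inner_add_right, inner_sub_right,
      inner_sub_right]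
    congr 1
    push_cast
    ring
  rw [h6]
  ring

end Pool.Sph
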