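import Pool.Agent.Helper458.Sph.Defs

set_option autoImplicit false

open MeasureTheory Filter Topology Set Metric
open scoped Real ENNReal

namespace Pool.Sph



theorem gauss_four (c : ℝ) (hc : 0 < c) (y : E8) :
    ∫ x : E8, Complex.exp (-(Complex.I * ((inner ℝ x y : ℝ) : ℂ))) *
      ((Real.exp (-(‖x‖ ^ 2 / (4 * c ^ 2))) : ℝ) : ℂ) = ((Gk c y : ℝ) : ℂ) := by
  have hb : 0 < (((1 / (4 * c ^ 2) : ℝ) : ℂ)).re := by
    rw [Complex.ofReal_re]; positivity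
  have h := GaussianFourier.integral_cexp_neg_mul_sq_norm_add_of_euclideanSpace (ι := Fin 8) hb
    (-Complex.I) y
  have hc' : (c : ℂ) ≠ 0 := by exact_mod_cast hc.ne'
  have h1 : ∀ x : E8, Complex.exp (-(Complex.I * ((inner ℝ x y : ℝ) : ℂ))) *
      ((Real.exp (-(‖x‖ ^ 2 / (4 * c ^ 2))) : ℝ) : ℂ) =
      Complex.exp (-((1 / (4 * c ^ 2) : ℝ) : ℂ) * (‖x‖ : ℂ) ^ 2 +
        (-Complex.I) * ((inner ℝ y x : ℝ) : ℂ)) := by
    intro x
    rw [Complex.ofReal_exp, ← Complex.exp_add, real_inner_comm]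
    congr 1
    push_cast
    ring
  rw [integral_congr_ae (Filter.Eventually.of_forall h1), h]
  have h2 : ((Fintype.card (Fin 8) : ℂ) / 2) = ((4 : ℕ) : ℂ) := by
    rw [Fintype.card_fin]; norm_num
  rw [h2, Complex.cpow_natCast, Gk]
  push_cast
  have h3 : (-Complex.I) ^ 2 * (‖y‖ : ℂ) ^ 2 / (4 * (1 / (4 * (c : ℂ) ^ 2))) =
      -((c : ℂ) ^ 2 * (‖y‖ : ℂ) ^ 2) := by
    rw [neg_sq, Complex.I_sq]
    field_simp
  rw [h3]
  congr 1
  field_simp
  ring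

end Pool.Sph
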