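import Pool.Agent.Helper458.Sph.Defs
import Pool.Agent.Helper458.Sph.P_Gk_cont
import Pool.Agent.Helper458.Sph.P_gauss_four
import Pool.Agent.Helper458.Sph.P_ext_cont
import Pool.Agent.Helper458.Sph.P_ext_four

set_option autoImplicit false

open MeasureTheory Filter Topology Set Metric
open scoped Real ENNReal

namespace Pool.Sph



theorem Jc_eq (f : S7 → ℂ) (hf : Integrable f sig) (c : ℝ) (hc : 0 < c) :
    ((Jc c f : ℝ) : ℂ) = ∫ p : (S7 × S7) × (S7 × S7),
      f p.1.1 * (starRingEnd ℂ) (f p.1.2) * f p.2.1 * (starRingEnd ℂ) (f p.2.2) *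
      ((Gk c (((p.1.1 : E8) - (p.1.2 : E8)) + ((p.2.1 : E8) - (p.2.2 : E8))) : ℝ) : ℂ) ∂mu4 := by
  obtain ⟨E, hE⟩ : ∃ E : E8 → ℂ, E = fun x => ((Real.exp (-(‖x‖ ^ 2 / (4 * c ^ 2))) : ℝ) : ℂ) :=
    ⟨_, rfl⟩
  obtain ⟨Φ, hΦ⟩ : ∃ Φ : (S7 × S7) × (S7 × S7) → ℂ, Φ = fun p =>
      f p.1.1 * (starRingEnd ℂ) (f p.1.2) * f p.2.1 * (starRingEnd ℂ) (f p.2.2) := ⟨_, rfl⟩
  obtain ⟨y, hy⟩ : ∃ y : (S7 × S7) × (S7 × S7) → E8, y = fun p =>
      ((p.1.1 : E8) - (p.1.2 : E8)) + ((p.2.1 : E8) - (p.2.2 : E8)) := ⟨_, rfl⟩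
  have hyc : Continuous y := by
    rw [hy]
    fun_prop
  have hEint : Integrable E := by
    have hb : 0 < (((1 / (4 * c ^ 2) : ℝ)) : ℂ).re := by
      rw [Complex.ofReal_re]
      positivity
    have h1 := GaussianFourier.integrable_cexp_neg_mul_sq_norm_add (V := E8) hb 0 0
    refine h1.congr (Filter.Eventually.of_forall fun x => ?_)
    rw [hE]
    show Complex.exp (-(((1 / (4 * c ^ 2) : ℝ)) : ℂ) * ((‖x‖ : ℝ) : ℂ) ^ 2 + 0 * _) =
      ((Real.exp (-(‖x‖ ^ 2 / (4 * c ^ 2))) : ℝ) : ℂ)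
    rw [Complex.ofReal_exp]
    congr 1
    push_cast
    ring
  have hfs : Integrable (fun ω => (starRingEnd ℂ) (f ω)) sig := by
    refine (Complex.conjCLE.toContinuousLinearMap.integrable_comp hf).congr ?_
    exact Filter.Eventually.of_forall fun ω => rfl
  have hΦint : Integrable Φ mu4 := by
    have h1 : Integrable (fun q : S7 × S7 => f q.1 * (starRingEnd ℂ) (f q.2)) mu2 :=
      hf.mul_prod hfs
    have h2 := h1.mul_prod h1
    refine h2.congr (Filter.Eventually.of_forall fun p => ?_)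
    rw [hΦ]
    show (f p.1.1 * (starRingEnd ℂ) (f p.1.2)) * (f p.2.1 * (starRingEnd ℂ) (f p.2.2)) = _
    ring
  have hint : Integrable (Function.uncurry fun (x : E8) (p : (S7 × S7) × (S7 × S7)) =>
      Complex.exp (-(Complex.I * ((inner ℝ x (y p) : ℝ) : ℂ))) * (E x * Φ p))
      ((volume : Measure E8).prod mu4) := by
    refine (hEint.mul_prod hΦint).bdd_mul (c := 1) ?_ ?_
    · refine Continuous.aestronglyMeasurable ?_
      refine Complex.continuous_exp.comp (continuous_const.mul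
        (Complex.continuous_ofReal.comp ?_)).neg
      exact continuous_fst.inner (hyc.comp continuous_snd)
    · refine Filter.Eventually.of_forall fun z => ?_
      rw [Complex.norm_exp]
      simp
  have hJ : ((Jc c f : ℝ) : ℂ) = ∫ x : E8, ∫ p,
      Complex.exp (-(Complex.I * ((inner ℝ x (y p) : ℝ) : ℂ))) * (E x * Φ p) ∂mu4 := by
    unfold Jc
    rw [← integral_complex_ofReal]
    refine integral_congr_ae (Filter.Eventually.of_forall fun x => ?_)
    show ((‖ext f x‖ ^ 4 * Real.exp (-(‖x‖ ^ 2 / (4 * c ^ 2))) : ℝ) : ℂ) = _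
    rw [Complex.ofReal_mul, ext_four f hf x, ← integral_mul_const]
    refine integral_congr_ae (Filter.Eventually.of_forall fun p => ?_)
    rw [hE, hΦ, hy]
    show _ = _
    ring
  rw [hJ, integral_integral_swap hint]
  refine integral_congr_ae (Filter.Eventually.of_forall fun p => ?_)
  show ∫ x : E8, Complex.exp (-(Complex.I * ((inner ℝ x (y p) : ℝ) : ℂ))) * (E x * Φ p) = _
  have h3 : (fun x : E8 => Complex.exp (-(Complex.I * ((inner ℝ x (y p) : ℝ) : ℂ))) * (E x * Φ p)) =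
      fun x : E8 => Φ p * (Complex.exp (-(Complex.I * ((inner ℝ x (y p) : ℝ) : ℂ))) *
        ((Real.exp (-(‖x‖ ^ 2 / (4 * c ^ 2))) : ℝ) : ℂ)) := by
    funext x
    rw [hE]
    ring
  rw [h3, integral_const_mul, gauss_four c hc (y p), hΦ, hy]

end Pool.Sph
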