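import Pool.Agent.Helper458.Sph.Defs

set_option autoImplicit false

open MeasureTheory Filter Topology Set Metric
open scoped Real ENNReal

namespace Pool.Sph



theorem act_cont_aux (A : E8 ≃ₗᵢ[ℝ] E8) : Continuous (act A) :=
  (A.continuous.comp continuous_subtype_val).subtype_mk _

open scoped Pointwise in
theorem act_mp (A : E8 ≃ₗᵢ[ℝ] E8) : MeasurePreserving (act A) sig sig := by
  refine ⟨(act_cont_aux A).measurable, ?_⟩
  ext s hs
  rw [Measure.map_apply (act_cont_aux A).measurable hs]
  unfold sig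
  rw [Measure.toSphere_apply' _ hs, Measure.toSphere_apply' _ ((act_cont_aux A).measurable hs)]
  congr 1
  have hset : Set.Ioo (0:ℝ) 1 • ((↑) '' (act A ⁻¹' s) : Set E8) =
      A ⁻¹' (Set.Ioo (0:ℝ) 1 • ((↑) '' s : Set E8)) := by
    ext x
    simp only [Set.mem_smul, Set.mem_image, Set.mem_preimage]
    constructor
    · rintro ⟨r, hr, _, ⟨y, hy, rfl⟩, rfl⟩
      refine ⟨r, hr, (act A y : E8), ⟨act A y, hy, rfl⟩, ?_⟩
      rw [map_smul]; rfl
    · rintro ⟨r, hr, _, ⟨y, hy, rfl⟩, h⟩
      have hy2 : act A (act A.symm y) = y := by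
        apply Subtype.ext
        exact A.apply_symm_apply _
      refine ⟨r, hr, (act A.symm y : E8), ⟨act A.symm y, by rw [hy2]; exact hy, rfl⟩, ?_⟩
      apply A.injective
      rw [← h, map_smul]
      congr 1
      exact A.apply_symm_apply _
  rw [hset]
  exact A.measurePreserving.measure_preimage_emb A.toHomeomorph.measurableEmbedding _

end Pool.Sph
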