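import Pool.Agent.Helper458.Sph.Defs
import Pool.Agent.Helper458.Sph.P_act_mp

set_option autoImplicit false

open MeasureTheory Filter Topology Set Metric
open scoped Real ENNReal

namespace Pool.Sph



theorem neg_mp : MeasurePreserving (fun ω : S7 => -ω) sig sig := by
  have h := act_mp (LinearIsometryEquiv.neg ℝ)
  have e : act (LinearIsometryEquiv.neg ℝ) = fun ω : S7 => -ω := by
    funext ω
    apply Subtype.ext
    simp [act]
  rwa [e] at h

end Pool.Sph
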