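import Pool.Agent.Helper458.Sph.Defs
import Pool.Agent.Helper458.Sph.P_neg_mp

set_option autoImplicit false

open MeasureTheory Filter Topology Set Metric
open scoped Real ENNReal

namespace Pool.Sph



theorem neg24 : MeasurePreserving
    (fun p : (S7 × S7) × (S7 × S7) => ((p.1.1, -p.1.2), (p.2.1, -p.2.2))) mu4 mu4 := by
  have h2 : MeasurePreserving (Prod.map id (fun ω : S7 => -ω)) mu2 mu2 :=
    (MeasurePreserving.id sig).prod neg_mp
  exact h2.prod h2

end Pool.Sph
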