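import Pool.Agent.Helper458.Sph.Defs
import Pool.Agent.Helper458.Sph.P_Gk_cont
import Pool.Agent.Helper458.Sph.P_neg24
import Pool.Agent.Helper458.Sph.P_Jc_eq

set_option autoImplicit false

open MeasureTheory Filter Topology Set Metric
open scoped Real ENNReal

namespace Pool.Sph



theorem Jc_one (c : ℝ) (hc : 0 < c) :
    Jc c (fun _ => 1) = ∫ p : (S7 × S7) × (S7 × S7),
      Gk c (((p.1.1 : E8) + (p.1.2 : E8)) + ((p.2.1 : E8) + (p.2.2 : E8))) ∂mu4 := by
  have h1 := Jc_eq (fun _ => 1) (integrable_const _) c hc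
  simp only [map_one, mul_one, one_mul] at h1
  rw [integral_complex_ofReal] at h1
  have h2 : Jc c (fun _ => 1) = ∫ p : (S7 × S7) × (S7 × S7),
      Gk c (((p.1.1 : E8) - (p.1.2 : E8)) + ((p.2.1 : E8) - (p.2.2 : E8))) ∂mu4 := by
    exact_mod_cast h1
  rw [h2]
  have hcont : Continuous (fun p : (S7 × S7) × (S7 × S7) =>
      Gk c (((p.1.1 : E8) + (p.1.2 : E8)) + ((p.2.1 : E8) + (p.2.2 : E8)))) := by
    apply (Gk_cont c).1.comp
    fun_prop
  have h3 := integral_map (μ := mu4) neg24.measurable.aemeasurable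
    (f := fun p : (S7 × S7) × (S7 × S7) =>
      Gk c (((p.1.1 : E8) + (p.1.2 : E8)) + ((p.2.1 : E8) + (p.2.2 : E8))))
    hcont.aestronglyMeasurable
  rw [neg24.map_eq] at h3
  rw [h3]
  apply integral_congr_ae
  filter_upwards with p
  simp only [coe_neg_sphere, sub_eq_add_neg]

end Pool.Sph
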