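import Pool.Agent.Helper458.Sph.Defs

set_option autoImplicit false

open MeasureTheory Filter Topology Set Metric
open scoped Real ENNReal

namespace Pool.Sph



theorem Kf_facts : Continuous Kf ∧ Continuous Ke ∧ (∀ s : ℝ, |s| ≤ 1 → |Kf s| ≤ 300 ∧ |Ke s| ≤ 100) ∧
    ∀ s : ℝ, (Kf s + Kf (-s)) / 2 = Ke s := by
  refine ⟨?_, ?_, ?_, ?_⟩
  · unfold Kf
    fun_prop
  · unfold Ke
    fun_prop
  · intro s hs
    have h1 : -1 ≤ s := (abs_le.mp hs).1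
    have h2 : s ≤ 1 := (abs_le.mp hs).2
    have hs2 : s ^ 2 ≤ 1 := by nlinarith
    have hs0 : 0 ≤ s ^ 2 := sq_nonneg s
    have hq0 : 0 ≤ Real.sqrt (1 - s ^ 2) := Real.sqrt_nonneg _
    have hq1 : Real.sqrt (1 - s ^ 2) ≤ 1 := by
      have h := Real.sqrt_le_sqrt (show 1 - s ^ 2 ≤ 1 by linarith)
      rwa [Real.sqrt_one] at h
    have hs4 : s ^ 4 ≤ 1 := by
      have : s ^ 4 = (s ^ 2) ^ 2 := by ring
      rw [this]
      nlinarith
    have hs40 : 0 ≤ s ^ 4 := by positivity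
    constructor
    · have hA0 : 0 ≤ (1 - s) ^ 2 := sq_nonneg _
      have hA1 : (1 - s) ^ 2 ≤ 4 := by nlinarith
      have hB0 : 0 ≤ 51 + 8 * s - 11 * s ^ 2 := by nlinarith
      have hB1 : 51 + 8 * s - 11 * s ^ 2 ≤ 59 := by nlinarith
      have hAB0 : 0 ≤ (1 - s) ^ 2 * (51 + 8 * s - 11 * s ^ 2) := mul_nonneg hA0 hB0
      have hAB1 : (1 - s) ^ 2 * (51 + 8 * s - 11 * s ^ 2) ≤ 4 * 59 :=
        mul_le_mul hA1 hB1 hB0 (by norm_num)
      unfold Kf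
      rw [abs_of_nonneg (mul_nonneg hq0 hAB0)]
      calc Real.sqrt (1 - s ^ 2) * ((1 - s) ^ 2 * (51 + 8 * s - 11 * s ^ 2))
          ≤ 1 * (4 * 59) := mul_le_mul hq1 hAB1 hAB0 (by norm_num)
        _ ≤ 300 := by norm_num
    · have hC0 : 0 ≤ 51 + 24 * s ^ 2 - 11 * s ^ 4 := by linarith
      have hC1 : 51 + 24 * s ^ 2 - 11 * s ^ 4 ≤ 75 := by linarith
      unfold Ke
      rw [abs_of_nonneg (mul_nonneg hq0 hC0)]
      calc Real.sqrt (1 - s ^ 2) * (51 + 24 * s ^ 2 - 11 * s ^ 4)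
          ≤ 1 * 75 := mul_le_mul hq1 hC1 hC0 (by norm_num)
        _ ≤ 100 := by norm_num
  · intro s
    unfold Kf Ke
    rw [neg_sq]
    ring

end Pool.Sph
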