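import Pool.Agent.Helper458.Sph.Defs

set_option autoImplicit false

open MeasureTheory Filter Topology Set Metric
open scoped Real ENNReal

namespace Pool.Sph



theorem ip_facts : Continuous ip ∧ ∀ p : S7 × S7, |ip p| ≤ 1 := by
  constructor
  · unfold ip
    exact Continuous.inner (continuous_subtype_val.comp continuous_fst)
      (continuous_subtype_val.comp continuous_snd)
  · intro p
    unfold ip
    refine le_trans (abs_real_inner_le_norm _ _) ?_
    rw [norm_eq_of_mem_sphere, norm_eq_of_mem_sphere]
    norm_num

end Pool.Sph
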