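import Pool.Agent.Helper458.Sph.Defs

set_option autoImplicit false

open MeasureTheory Filter Topology Set Metric
open scoped Real ENNReal

namespace Pool.Sph



theorem prod_int (g : S7 → ℝ) (hg : Integrable g sig) (k : S7 × S7 → ℝ) (hk : Measurable k)
    (C : ℝ) (hC : ∀ p, |k p| ≤ C) :
    Integrable (fun p : S7 × S7 => g p.1 * g p.2 * k p) mu2 := by
  have h1 : Integrable (fun p : S7 × S7 => g p.1 * g p.2) mu2 := hg.mul_prod hg
  have h2 : Integrable (fun p : S7 × S7 => k p * (g p.1 * g p.2)) mu2 :=
    h1.bdd_mul hk.aestronglyMeasurable (Filter.Eventually.of_forall fun p => by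
      rw [Real.norm_eq_abs]; exact hC p)
  refine h2.congr (Filter.Eventually.of_forall fun p => ?_)
  show k p * (g p.1 * g p.2) = g p.1 * g p.2 * k p
  ring

end Pool.Sph
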