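import Pool.Agent.Helper458.Sph.Defs
import Pool.Agent.Helper458.Sph.P_neg_mp
import Pool.Agent.Helper458.Sph.P_prod_int
import Pool.Agent.Helper458.Sph.P_ip_facts
import Pool.Agent.Helper458.Sph.P_Kf_facts

set_option autoImplicit false

open MeasureTheory Filter Topology Set Metric
open scoped Real ENNReal

namespace Pool.Sph



theorem even_part (g : S7 → ℝ) (hg : Integrable g sig) (hge : ∀ ω, g (-ω) = g ω) :
    ∫ p : S7 × S7, g p.1 * g p.2 * Kf (ip p) ∂mu2 =
      ∫ p : S7 × S7, g p.1 * g p.2 * Ke (ip p) ∂mu2 := by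
  have hF : Integrable (fun p : S7 × S7 => g p.1 * g p.2 * Kf (ip p)) mu2 :=
    prod_int g hg (fun p => Kf (ip p)) (Kf_facts.1.comp ip_facts.1).measurable 300
      (fun p => (Kf_facts.2.2.1 _ (ip_facts.2 p)).1)
  have hF' : Integrable (fun p : S7 × S7 => g p.1 * g p.2 * Kf (-ip p)) mu2 :=
    prod_int g hg (fun p => Kf (-ip p)) (Kf_facts.1.comp ip_facts.1.neg).measurable 300
      (fun p => (Kf_facts.2.2.1 _ (by rw [abs_neg]; exact ip_facts.2 p)).1)
  have hmp : MeasurePreserving (fun p : S7 × S7 => (p.1, -p.2)) mu2 mu2 := by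
    have h := (MeasurePreserving.id sig).prod neg_mp
    exact h
  have h1 : ∫ p : S7 × S7, g p.1 * g p.2 * Kf (ip p) ∂mu2 =
      ∫ p : S7 × S7, g p.1 * g p.2 * Kf (-ip p) ∂mu2 := by
    have h2 : ∫ p : S7 × S7, g p.1 * g p.2 * Kf (ip p) ∂(mu2.map (fun p : S7 × S7 => (p.1, -p.2))) =
        ∫ p : S7 × S7, g p.1 * g (-p.2) * Kf (ip (p.1, -p.2)) ∂mu2 := by
      rw [integral_map hmp.measurable.aemeasurable]
      rw [hmp.map_eq]
      exact hF.aestronglyMeasurable
    rw [hmp.map_eq] at h2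
    rw [h2]
    congr 1
    ext p
    have h3 : ip (p.1, -p.2) = -ip p := by
      simp only [ip, coe_neg_sphere, inner_neg_right]
    rw [hge, h3]
  have h4 : ∫ p : S7 × S7, g p.1 * g p.2 * Ke (ip p) ∂mu2 =
      (∫ p : S7 × S7, g p.1 * g p.2 * Kf (ip p) ∂mu2 +
        ∫ p : S7 × S7, g p.1 * g p.2 * Kf (-ip p) ∂mu2) / 2 := by
    rw [← integral_add hF hF', ← integral_div]
    congr 1
    ext p
    rw [← Kf_facts.2.2.2]
    ring
  rw [h4, ← h1]
  ring

end Pool.Sph
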