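import Pool.Agent.Helper458.Sph.Defs

set_option autoImplicit false

open MeasureTheory Filter Topology Set Metric
open scoped Real ENNReal

namespace Pool.Sph



theorem beta_pos : 0 < ∫ s in (-1 : ℝ)..1, (1 - s ^ 2) ^ (5 / 2 : ℝ) := by
  have hc : Continuous (fun s : ℝ => (1 - s ^ 2) ^ (5 / 2 : ℝ)) :=
    Continuous.rpow_const (by fun_prop) (fun _ => Or.inr (by norm_num))
  refine intervalIntegral.intervalIntegral_pos_of_pos_on (hc.intervalIntegrable _ _) ?_ (by norm_num)
  intro s hs
  apply Real.rpow_pos_of_pos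
  nlinarith [hs.1, hs.2]

end Pool.Sph
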