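import Pool.Agent.Helper458.Sph.Defs

set_option autoImplicit false

open MeasureTheory Filter Topology Set Metric
open scoped Real ENNReal

namespace Pool.Sph



theorem sig_pos : 0 < sig.real univ := by
  have h1 : sig univ ≠ 0 := by
    unfold sig
    rw [Measure.toSphere_apply_univ]
    refine mul_ne_zero ?_ ?_
    · simp
    · exact (measure_ball_pos volume (0 : E8) one_pos).ne'
  exact ENNReal.toReal_pos h1 (measure_ne_top sig univ)

end Pool.Sph
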