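import Pool.Agent.Helper458.Sph.Defs
import Pool.Agent.Helper458.Sph.P_sig_pos
import Pool.Agent.Helper458.Sph.P_beta_pos

set_option autoImplicit false

open MeasureTheory Filter Topology Set Metric
open scoped Real ENNReal

namespace Pool.Sph



theorem cS_pos : 0 < cS := div_pos sig_pos beta_pos

end Pool.Sph
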