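import Pool.Agent.Helper458.Sph.Defs

set_option autoImplicit false

open MeasureTheory Filter Topology Set Metric
open scoped Real ENNReal

namespace Pool.Sph



theorem exists_act (e e' : S7) : ∃ A : E8 ≃ₗᵢ[ℝ] E8, act A e = e' := by
  have hn : ‖(e : E8)‖ = ‖(e' : E8)‖ := by
    rw [norm_eq_of_mem_sphere, norm_eq_of_mem_sphere]
  refine ⟨(ℝ ∙ ((e : E8) - (e' : E8)))ᗮ.reflection, ?_⟩
  apply Subtype.ext
  show (ℝ ∙ ((e : E8) - (e' : E8)))ᗮ.reflection (e : E8) = (e' : E8)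
  exact Submodule.reflection_sub hn

end Pool.Sph
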