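import Pool.Agent.Helper458.Sph.Defs
import Pool.Agent.Helper458.Sph.P_act_mp
import Pool.Agent.Helper458.Sph.P_exists_act
import Pool.Agent.Helper458.Sph.P_Gk_cont

set_option autoImplicit false

open MeasureTheory Filter Topology Set Metric
open scoped Real ENNReal

namespace Pool.Sph



theorem avg_gauss (c r : ℝ) : ∃ q : ℝ → ℝ, Continuous q ∧
    ∀ z : E8, ∫ e : S7, Gk c (r • (e : E8) + z) ∂sig = q ‖z‖ := by
  obtain ⟨hGc, hG0, -, hGA, hGb⟩ := Gk_cont c
  have he0 : ‖(EuclideanSpace.single (0 : Fin 8) (1 : ℝ) : E8)‖ = 1 := by simp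
  obtain ⟨e0, he0'⟩ : ∃ e0 : S7, (e0 : E8) = EuclideanSpace.single (0 : Fin 8) (1 : ℝ) :=
    ⟨⟨EuclideanSpace.single (0 : Fin 8) (1 : ℝ), by rw [mem_sphere_zero_iff_norm]; exact he0⟩, rfl⟩
  refine ⟨fun ρ => ∫ e : S7, Gk c (r • (e : E8) + ρ • (e0 : E8)) ∂sig, ?_, ?_⟩
  · refine continuous_of_dominated (bound := fun _ => 256 * π ^ 4 * c ^ 8) ?_ ?_ ?_ ?_
    · intro ρ
      refine Continuous.aestronglyMeasurable ?_
      exact hGc.comp ((continuous_subtype_val.const_smul r).add continuous_const)
    · intro ρ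
      refine Eventually.of_forall fun e => ?_
      rw [Real.norm_eq_abs, abs_of_nonneg (hG0 _)]
      exact hGb _
    · exact integrable_const _
    · refine Eventually.of_forall fun e => ?_
      exact hGc.comp (continuous_const.add (continuous_id.smul continuous_const))
  · intro z
    beta_reduce
    by_cases hz : z = 0
    · rw [hz, norm_zero, zero_smul]
    · have hnz : ‖z‖ ≠ 0 := norm_ne_zero_iff.2 hz
      have hw : ‖(‖z‖⁻¹ • z : E8)‖ = 1 := by
        rw [norm_smul, norm_inv, norm_norm, inv_mul_cancel₀ hnz]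
      obtain ⟨A, hA⟩ := exists_act e0 ⟨‖z‖⁻¹ • z, by rw [mem_sphere_zero_iff_norm]; exact hw⟩
      have hA' : A (e0 : E8) = ‖z‖⁻¹ • z := congrArg Subtype.val hA
      have hmp := act_mp A
      have hFc : Continuous (fun e : S7 => Gk c (r • (e : E8) + z)) :=
        hGc.comp ((continuous_subtype_val.const_smul r).add continuous_const)
      calc ∫ e : S7, Gk c (r • (e : E8) + z) ∂sig
          = ∫ e : S7, Gk c (r • (e : E8) + z) ∂(sig.map (act A)) := by rw [hmp.map_eq]
        _ = ∫ e : S7, Gk c (r • ((act A e : S7) : E8) + z) ∂sig :=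
            integral_map hmp.measurable.aemeasurable hFc.aestronglyMeasurable
        _ = ∫ e : S7, Gk c (r • (e : E8) + ‖z‖ • (e0 : E8)) ∂sig := by
            refine integral_congr_ae (Eventually.of_forall fun e => ?_)
            beta_reduce
            rw [← hGA A (r • (e : E8) + ‖z‖ • (e0 : E8))]
            congr 1
            rw [map_add, map_smul, map_smul, hA', smul_smul, mul_inv_cancel₀ hnz, one_smul]
            rfl

end Pool.Sph
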