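import Pool.Agent.Helper458.Sph.Defs

set_option autoImplicit false

open MeasureTheory Filter Topology Set Metric
open scoped Real ENNReal

namespace Pool.Sph



theorem beta_rec (n : ℕ) :
    ∫ s in (-1 : ℝ)..1, s ^ (n + 2) * (1 - s ^ 2) ^ (5 / 2 : ℝ) =
      ((n : ℝ) + 1) / ((n : ℝ) + 8) * ∫ s in (-1 : ℝ)..1, s ^ n * (1 - s ^ 2) ^ (5 / 2 : ℝ) := by
  have hc : ∀ m : ℕ, Continuous (fun s : ℝ => s ^ m * (1 - s ^ 2) ^ (5 / 2 : ℝ)) := by
    intro m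
    apply (continuous_pow m).mul
    exact (continuous_const.sub (continuous_pow 2)).rpow_const
      (fun x => Or.inr (by norm_num))
  have hint : ∀ m : ℕ, IntervalIntegrable
      (fun s : ℝ => s ^ m * (1 - s ^ 2) ^ (5 / 2 : ℝ)) volume (-1) 1 :=
    fun m => (hc m).intervalIntegrable _ _
  have hd : ∀ s ∈ uIcc (-1 : ℝ) 1, HasDerivAt (fun s : ℝ => s ^ (n + 1) *
      (1 - s ^ 2) ^ (7 / 2 : ℝ)) (((n : ℝ) + 1) * (s ^ n * (1 - s ^ 2) ^ (5 / 2 : ℝ)) -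
        ((n : ℝ) + 8) * (s ^ (n + 2) * (1 - s ^ 2) ^ (5 / 2 : ℝ))) s := by
    intro s hs
    rw [uIcc_of_le (by norm_num)] at hs
    have h0 : 0 ≤ 1 - s ^ 2 := by nlinarith [hs.1, hs.2]
    have h1 : HasDerivAt (fun s : ℝ => 1 - s ^ 2) (-(2 * s)) s := by
      have h := (hasDerivAt_pow 2 s).const_sub 1
      have e : -(((2 : ℕ) : ℝ) * s ^ (2 - 1)) = -(2 * s) := by norm_num
      rw [e] at h
      exact h
    have h2 : HasDerivAt (fun s : ℝ => (1 - s ^ 2) ^ (7 / 2 : ℝ))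
        (-(2 * s) * (7 / 2) * (1 - s ^ 2) ^ ((7 / 2 : ℝ) - 1)) s :=
      h1.rpow_const (Or.inr (by norm_num))
    have h3 : HasDerivAt (fun s : ℝ => s ^ (n + 1) * (1 - s ^ 2) ^ (7 / 2 : ℝ)) _ s :=
      (hasDerivAt_pow (n + 1) s).mul h2
    refine h3.congr_deriv ?_
    have e1 : (7 / 2 : ℝ) - 1 = 5 / 2 := by norm_num
    have e2 : (1 - s ^ 2) ^ (7 / 2 : ℝ) = (1 - s ^ 2) ^ (5 / 2 : ℝ) * (1 - s ^ 2) := by
      have e3 : (7 / 2 : ℝ) = 5 / 2 + 1 := by norm_num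
      rw [e3, Real.rpow_add_one' h0 (by norm_num)]
    rw [e1, e2]
    simp only [Nat.add_sub_cancel]
    push_cast
    ring
  have h := intervalIntegral.integral_eq_sub_of_hasDerivAt hd
    (((hint n).const_mul _).sub ((hint (n + 2)).const_mul _))
  rw [intervalIntegral.integral_sub ((hint n).const_mul _) ((hint (n + 2)).const_mul _),
    intervalIntegral.integral_const_mul, intervalIntegral.integral_const_mul] at h
  have e0 : (1 : ℝ) ^ (n + 1) * (1 - (1 : ℝ) ^ 2) ^ (7 / 2 : ℝ) -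
      (-1 : ℝ) ^ (n + 1) * (1 - (-1 : ℝ) ^ 2) ^ (7 / 2 : ℝ) = 0 := by
    have e4 : (1 - (1 : ℝ) ^ 2) = 0 := by norm_num
    have e5 : (1 - (-1 : ℝ) ^ 2) = 0 := by norm_num
    rw [e4, e5, Real.zero_rpow (by norm_num)]
    ring
  rw [e0] at h
  have hn : (0 : ℝ) < (n : ℝ) + 8 := by positivity
  rw [div_mul_eq_mul_div, eq_div_iff hn.ne']
  linarith

end Pool.Sph
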