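import Pool.Agent.Helper458.Sph.Defs

set_option autoImplicit false

open MeasureTheory Filter Topology Set Metric
open scoped Real ENNReal

namespace Pool.Sph



theorem gam_rec_aux (m : ℕ) : ∫ r in Ioi (0 : ℝ), r ^ m * Real.exp (-r ^ 2) =
    (1 / 2) * Real.Gamma (((m : ℝ) + 1) / 2) := by
  have h := integral_rpow_mul_exp_neg_rpow (p := 2) (q := (m : ℝ)) (by norm_num)
    (by have : (0:ℝ) ≤ m := Nat.cast_nonneg m
        linarith)
  rw [← h]
  apply setIntegral_congr_fun measurableSet_Ioi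
  intro r hr
  simp only [Real.rpow_natCast, Real.rpow_two]

theorem gam_rec (n : ℕ) :
    (∫ r in Ioi (0 : ℝ), r ^ (n + 9) * Real.exp (-r ^ 2) =
      ((n : ℝ) + 8) / 2 * ∫ r in Ioi (0 : ℝ), r ^ (n + 7) * Real.exp (-r ^ 2)) ∧
    0 < ∫ r in Ioi (0 : ℝ), r ^ (n + 7) * Real.exp (-r ^ 2) := by
  rw [gam_rec_aux, gam_rec_aux]
  have hpos : (0 : ℝ) < (((n + 7 : ℕ) : ℝ) + 1) / 2 := by positivity
  constructor
  · have e : (((n + 9 : ℕ) : ℝ) + 1) / 2 = (((n + 7 : ℕ) : ℝ) + 1) / 2 + 1 := by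
      push_cast; ring
    rw [e, Real.Gamma_add_one hpos.ne']
    push_cast
    ring
  · have := Real.Gamma_pos_of_pos hpos
    positivity

end Pool.Sph
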