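import Pool.Agent.Helper458.Sph.Defs

set_option autoImplicit false

open MeasureTheory Filter Topology Set Metric
open scoped Real ENNReal

namespace Pool.Sph


/-- Integrability of the Gaussian with half variance. -/
theorem gm_int_half : Integrable (fun x : E8 => Real.exp (-(1 / 2 : ℝ) * ‖x‖ ^ 2)) := by
  have h := GaussianFourier.integrable_cexp_neg_mul_sq_norm_add (V := E8)
    (b := (1 / 2 : ℂ)) (by norm_num) 0 0
  have h2 := h.norm
  refine h2.congr (Filter.Eventually.of_forall fun x => ?_)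
  simp only [zero_mul, add_zero, inner_zero_left, Complex.norm_exp]
  congr 1
  have : (-(1 / 2 : ℂ) * (‖x‖ : ℂ) ^ 2) = ((-(1 / 2 : ℝ) * ‖x‖ ^ 2 : ℝ) : ℂ) := by
    push_cast; ring

  rw [this, Complex.ofReal_re]

theorem gm_bound (m : ℕ) (t : ℝ) (ht : 0 ≤ t) :
    t ^ m * Real.exp (-t ^ 2) ≤
      ((m.factorial : ℝ) * Real.exp (1 / 2)) * Real.exp (-(1 / 2 : ℝ) * t ^ 2) := by
  have h1 : t ^ m / (m.factorial : ℝ) ≤ Real.exp t := Real.pow_div_factorial_le_exp t ht m
  have hm : (0 : ℝ) < (m.factorial : ℝ) := by exact_mod_cast Nat.factorial_pos m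
  have h2 : t ^ m ≤ (m.factorial : ℝ) * Real.exp t := by
    rw [div_le_iff₀ hm] at h1
    linarith
  calc t ^ m * Real.exp (-t ^ 2)
      ≤ ((m.factorial : ℝ) * Real.exp t) * Real.exp (-t ^ 2) :=
        mul_le_mul_of_nonneg_right h2 (Real.exp_pos _).le
    _ = (m.factorial : ℝ) * Real.exp (t + -t ^ 2) := by rw [Real.exp_add]; ring
    _ ≤ (m.factorial : ℝ) * Real.exp (1 / 2 + -(1 / 2 : ℝ) * t ^ 2) := by
        refine mul_le_mul_of_nonneg_left (Real.exp_le_exp.mpr ?_) hm.le
        nlinarith [sq_nonneg (t - 1)]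
    _ = _ := by rw [Real.exp_add]; ring

theorem gm_int (e : E8) (he : ‖e‖ = 1) (m : ℕ) :
    Integrable (fun x : E8 => (inner ℝ x e) ^ m * Real.exp (-‖x‖ ^ 2)) := by
  refine Integrable.mono' (gm_int_half.const_mul ((m.factorial : ℝ) * Real.exp (1 / 2))) ?_ ?_
  · refine Continuous.aestronglyMeasurable ?_
    fun_prop
  · refine Filter.Eventually.of_forall fun x => ?_
    rw [norm_mul, norm_pow, Real.norm_eq_abs, Real.norm_eq_abs, Real.abs_exp]
    have h1 : |inner ℝ x e| ≤ ‖x‖ := by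
      have := abs_real_inner_le_norm x e
      rwa [he, mul_one] at this
    refine le_trans ?_ (gm_bound m ‖x‖ (norm_nonneg x))
    exact mul_le_mul_of_nonneg_right (pow_le_pow_left₀ (abs_nonneg _) h1 m) (Real.exp_pos _).le

theorem gauss_mom (e : S7) (n : ℕ) :
    ∫ x : E8, (inner ℝ x (e : E8)) ^ (n + 2) * Real.exp (-‖x‖ ^ 2) =
      ((n : ℝ) + 1) / 2 * ∫ x : E8, (inner ℝ x (e : E8)) ^ n * Real.exp (-‖x‖ ^ 2) := by
  have he : ‖(e : E8)‖ = 1 := norm_eq_of_mem_sphere e
  have hee : inner ℝ (e : E8) (e : E8) = (1 : ℝ) := by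
    rw [real_inner_self_eq_norm_sq, he]; norm_num
  have key := integral_bilinear_hasLineDerivAt_right_eq_neg_left_of_integrable
    (μ := (volume : Measure E8)) (v := (e : E8))
    (f := fun x : E8 => (inner ℝ x (e : E8)) ^ (n + 1))
    (f' := fun x : E8 => ((n : ℝ) + 1) * (inner ℝ x (e : E8)) ^ n)
    (g := fun x : E8 => Real.exp (-‖x‖ ^ 2))
    (g' := fun x : E8 => -2 * (inner ℝ x (e : E8)) * Real.exp (-‖x‖ ^ 2))
    (B := ContinuousLinearMap.mul ℝ ℝ) ?_ ?_ ?_ ?_ ?_
  · simp only [ContinuousLinearMap.mul_apply'] at key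
    have e1 : ∫ x : E8, (inner ℝ x (e : E8)) ^ (n + 1) *
        (-2 * (inner ℝ x (e : E8)) * Real.exp (-‖x‖ ^ 2)) =
        -2 * ∫ x : E8, (inner ℝ x (e : E8)) ^ (n + 2) * Real.exp (-‖x‖ ^ 2) := by
      rw [← integral_const_mul]
      congr 1; ext x; ring
    have e2 : ∫ x : E8, ((n : ℝ) + 1) * (inner ℝ x (e : E8)) ^ n * Real.exp (-‖x‖ ^ 2) =
        ((n : ℝ) + 1) * ∫ x : E8, (inner ℝ x (e : E8)) ^ n * Real.exp (-‖x‖ ^ 2) := by
      rw [← integral_const_mul]
      congr 1; ext x; ring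
    rw [e1, e2] at key
    linarith
  · simp only [ContinuousLinearMap.mul_apply']
    refine ((gm_int (e : E8) he n).const_mul ((n : ℝ) + 1)).congr
      (Filter.Eventually.of_forall fun x => ?_)
    simp only []
    ring
  · simp only [ContinuousLinearMap.mul_apply']
    refine ((gm_int (e : E8) he (n + 2)).const_mul (-2)).congr
      (Filter.Eventually.of_forall fun x => ?_)
    simp only []
    ring
  · simp only [ContinuousLinearMap.mul_apply']
    exact gm_int (e : E8) he (n + 1)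
  · intro x _
    have h1 : HasDerivAt (fun t : ℝ => inner ℝ (x + t • (e : E8)) (e : E8)) 1 0 := by
      have : (fun t : ℝ => inner ℝ (x + t • (e : E8)) (e : E8)) =
          fun t : ℝ => inner ℝ x (e : E8) + t := by
        ext t
        rw [inner_add_left, real_inner_smul_left, hee, mul_one]
      rw [this]
      exact (hasDerivAt_id (0 : ℝ)).const_add _
    have h2 := h1.pow (n + 1)
    unfold HasLineDerivAt
    convert! h2 using 1
    simp
  · intro x _
    have h1 : HasDerivAt (fun t : ℝ => -‖x + t • (e : E8)‖ ^ 2) (-2 * inner ℝ x (e : E8)) 0 := by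
      have : (fun t : ℝ => -‖x + t • (e : E8)‖ ^ 2) =
          fun t : ℝ => -(‖x‖ ^ 2 + 2 * (t * inner ℝ x (e : E8)) + t ^ 2) := by
        ext t
        rw [norm_add_sq_real, inner_smul_right, norm_smul, he, mul_one, Real.norm_eq_abs, sq_abs]
      rw [this]
      have h3 := ((((hasDerivAt_id (0 : ℝ)).mul_const (inner ℝ x (e : E8))).const_mul 2).const_add
        (‖x‖ ^ 2)).add ((hasDerivAt_id (0 : ℝ)).pow 2)
      have h4 := h3.neg
      convert! h4 using 1
      simp
    have h2 := h1.exp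
    unfold HasLineDerivAt
    convert! h2 using 1
    simp
    ring

end Pool.Sph
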