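import Pool.Agent.Helper458.Sph.Defs

set_option autoImplicit false

open MeasureTheory Filter Topology Set Metric
open scoped Real ENNReal

namespace Pool.Sph



theorem polar_mom (e : S7) (n : ℕ) :
    ∫ x : E8, (inner ℝ x (e : E8)) ^ n * Real.exp (-‖x‖ ^ 2) =
      (∫ ω : S7, (inner ℝ (ω : E8) (e : E8)) ^ n ∂sig) *
        ∫ r in Ioi (0 : ℝ), r ^ (n + 7) * Real.exp (-r ^ 2) := by
  have hdim : Module.finrank ℝ E8 - 1 = 7 := by
    rw [finrank_euclideanSpace_fin]
  obtain ⟨g, hg⟩ : ∃ g : ℝ → ℝ, g = fun r => r ^ n * Real.exp (-r ^ 2) := ⟨_, rfl⟩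
  calc ∫ x : E8, (inner ℝ x (e : E8)) ^ n * Real.exp (-‖x‖ ^ 2)
      = ∫ x : ({(0 : E8)}ᶜ : Set E8), (inner ℝ (x : E8) (e : E8)) ^ n * Real.exp (-‖(x : E8)‖ ^ 2)
          ∂((volume : Measure E8).comap (↑)) := by
        rw [integral_subtype_comap (measurableSet_singleton _).compl
          fun x : E8 => (inner ℝ (x : E8) (e : E8)) ^ n * Real.exp (-‖x‖ ^ 2),
          restrict_compl_singleton]
    _ = ∫ x : ({(0 : E8)}ᶜ : Set E8),
          (fun p : S7 × Ioi (0:ℝ) => (inner ℝ (p.1 : E8) (e : E8)) ^ n * g (p.2 : ℝ))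
            (homeomorphUnitSphereProd E8 x) ∂((volume : Measure E8).comap (↑)) := by
        refine integral_congr_ae (Eventually.of_forall fun x => ?_)
        simp only [homeomorphUnitSphereProd_apply_snd_coe, homeomorphUnitSphereProd_apply_fst_coe,
          hg]
        have hx : ‖(x : E8)‖ ≠ 0 := norm_ne_zero_iff.2 x.2
        rw [real_inner_smul_left, mul_pow, inv_pow]
        field_simp
    _ = ∫ p, (inner ℝ (p.1 : E8) (e : E8)) ^ n * g (p.2 : ℝ)
          ∂((volume : Measure E8).toSphere.prod (Measure.volumeIoiPow 7)) := by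
        have h := (volume : Measure E8).measurePreserving_homeomorphUnitSphereProd.integral_comp
          (Homeomorph.measurableEmbedding _)
          (fun p : S7 × Ioi (0:ℝ) => (inner ℝ (p.1 : E8) (e : E8)) ^ n * g (p.2 : ℝ))
        rw [hdim] at h
        exact h
    _ = (∫ ω : S7, (inner ℝ (ω : E8) (e : E8)) ^ n ∂sig) *
          ∫ r : Ioi (0:ℝ), g (r : ℝ) ∂(Measure.volumeIoiPow 7) :=
        integral_prod_mul (fun ω : S7 => (inner ℝ (ω : E8) (e : E8)) ^ n)
          (fun r : Ioi (0:ℝ) => g (r : ℝ))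
    _ = _ := by
        congr 1
        simp only [Measure.volumeIoiPow, ENNReal.ofReal]
        rw [integral_withDensity_eq_integral_smul,
          integral_subtype_comap measurableSet_Ioi fun a ↦ Real.toNNReal (a ^ 7) • g a,
          setIntegral_congr_fun measurableSet_Ioi fun x hx ↦ ?_]
        · rw [NNReal.smul_def, Real.coe_toNNReal _ (pow_nonneg hx.out.le _), hg, smul_eq_mul]
          simp only
          rw [pow_add]
          ring
        · exact (measurable_subtype_coe.pow_const _).real_toNNReal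

end Pool.Sph
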