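import Pool.Agent.Helper458.Sph.Defs
import Pool.Agent.Helper458.Sph.P_polar_mom
import Pool.Agent.Helper458.Sph.P_gauss_mom
import Pool.Agent.Helper458.Sph.P_gam_rec

set_option autoImplicit false

open MeasureTheory Filter Topology Set Metric
open scoped Real ENNReal

namespace Pool.Sph



theorem mom_rec (e : S7) (n : ℕ) :
    ∫ ω : S7, (inner ℝ (ω : E8) (e : E8)) ^ (n + 2) ∂sig =
      ((n : ℝ) + 1) / ((n : ℝ) + 8) * ∫ ω : S7, (inner ℝ (ω : E8) (e : E8)) ^ n ∂sig := by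
  have h1 := polar_mom e (n + 2)
  have h2 := polar_mom e n
  have h3 := gauss_mom e n
  obtain ⟨h4, h5⟩ := gam_rec n
  rw [show n + 2 + 7 = n + 9 by ring, h4, h3, h2] at h1
  set R := ∫ r in Ioi (0 : ℝ), r ^ (n + 7) * Real.exp (-r ^ 2) with hR
  set A := ∫ ω : S7, (inner ℝ (ω : E8) (e : E8)) ^ n ∂sig with hA
  set B := ∫ ω : S7, (inner ℝ (ω : E8) (e : E8)) ^ (n + 2) ∂sig with hB
  have h8 : (n : ℝ) + 8 ≠ 0 := by positivity
  have h6 : ((n : ℝ) + 1) * A * R = B * ((n : ℝ) + 8) * R := by linarith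
  have h7 := mul_right_cancel₀ h5.ne' h6
  rw [div_mul_eq_mul_div, eq_div_iff h8, h7]

end Pool.Sph
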