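import Pool.Agent.Helper458.Sph.Defs
import Pool.Agent.Helper458.Sph.P_neg_mp
import Pool.Agent.Helper458.Sph.P_mom_rec
import Pool.Agent.Helper458.Sph.P_beta_rec
import Pool.Agent.Helper458.Sph.P_beta_pos

set_option autoImplicit false

open MeasureTheory Filter Topology Set Metric
open scoped Real ENNReal

namespace Pool.Sph



theorem law_mom (e : S7) (n : ℕ) :
    ∫ ω : S7, (inner ℝ (ω : E8) (e : E8)) ^ n ∂sig =
      cS * ∫ s in (-1 : ℝ)..1, s ^ n * (1 - s ^ 2) ^ (5 / 2 : ℝ) := by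
  induction n using Nat.twoStepInduction with
  | zero =>
    have hb := beta_pos.ne'
    simp only [pow_zero, one_mul, cS]
    rw [div_mul_cancel₀ _ hb]
    simp
  | one =>
    have h1 : ∫ ω : S7, (inner ℝ (ω : E8) (e : E8)) ^ 1 ∂sig = 0 := by
      have h2 := neg_mp.integral_comp (Homeomorph.neg S7).measurableEmbedding
        (fun ω : S7 => (inner ℝ (ω : E8) (e : E8)) ^ 1)
      have h3 : ∫ ω : S7, (inner ℝ ((-ω : S7) : E8) (e : E8)) ^ 1 ∂sig =
          -∫ ω : S7, (inner ℝ (ω : E8) (e : E8)) ^ 1 ∂sig := by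
        rw [← integral_neg]
        refine integral_congr_ae (Eventually.of_forall fun ω => ?_)
        simp
      rw [h3] at h2
      linarith
    have h4 : ∫ s in (-1 : ℝ)..1, s ^ 1 * (1 - s ^ 2) ^ (5 / 2 : ℝ) = 0 := by
      have h5 := intervalIntegral.integral_comp_neg (a := (-1 : ℝ)) (b := 1)
        (fun s : ℝ => s ^ 1 * (1 - s ^ 2) ^ (5 / 2 : ℝ))
      have h6 : ∫ s in (-1 : ℝ)..1, (-s) ^ 1 * (1 - (-s) ^ 2) ^ (5 / 2 : ℝ) =
          -∫ s in (-1 : ℝ)..1, s ^ 1 * (1 - s ^ 2) ^ (5 / 2 : ℝ) := by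
        rw [← intervalIntegral.integral_neg]
        refine intervalIntegral.integral_congr fun s _ => ?_
        simp
      rw [h6, neg_neg] at h5
      linarith
    rw [h1, h4, mul_zero]
  | more n ih _ =>
    rw [mom_rec, beta_rec, ih]
    ring

end Pool.Sph
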