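import Pool.Agent.Helper458.Sph.Defs
import Pool.Agent.Helper458.Sph.P_law_mom

set_option autoImplicit false

open MeasureTheory Filter Topology Set Metric
open scoped Real ENNReal

namespace Pool.Sph



theorem law_int (e : S7) (φ : ℝ → ℝ) (hφ : Continuous φ) :
    Integrable (fun ω : S7 => φ (inner ℝ (ω : E8) (e : E8))) sig := by
  have hc : Continuous (fun ω : S7 => φ (inner ℝ (ω : E8) (e : E8))) :=
    hφ.comp (continuous_subtype_val.inner continuous_const)
  exact hc.integrable_of_hasCompactSupport (HasCompactSupport.of_compactSpace _)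

theorem law_wt : Continuous (fun s : ℝ => (1 - s ^ 2) ^ (5 / 2 : ℝ)) :=
  (continuous_const.sub (continuous_pow 2)).rpow_const (fun x => Or.inr (by norm_num))

theorem law_ii (f : ℝ → ℝ) (hf : Continuous f) :
    IntervalIntegrable (fun s : ℝ => f s * (1 - s ^ 2) ^ (5 / 2 : ℝ)) volume (-1) 1 :=
  (hf.mul law_wt).intervalIntegrable _ _

theorem law_poly (e : S7) (p : Polynomial ℝ) :
    ∫ ω : S7, p.eval (inner ℝ (ω : E8) (e : E8)) ∂sig =
      cS * ∫ s in (-1 : ℝ)..1, p.eval s * (1 - s ^ 2) ^ (5 / 2 : ℝ) := by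
  induction p using Polynomial.induction_on' with
  | add p q hp hq =>
    simp only [Polynomial.eval_add, add_mul]
    rw [integral_add (law_int e _ p.continuous) (law_int e _ q.continuous),
      intervalIntegral.integral_add (law_ii _ p.continuous) (law_ii _ q.continuous), hp, hq,
      mul_add]
  | monomial n a =>
    simp only [Polynomial.eval_monomial, mul_assoc]
    rw [integral_const_mul, intervalIntegral.integral_const_mul, law_mom]
    ring

theorem law_ip (ω e : S7) : |(inner ℝ (ω : E8) (e : E8) : ℝ)| ≤ 1 := by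
  have h := abs_real_inner_le_norm (ω : E8) (e : E8)
  rw [norm_eq_of_mem_sphere, norm_eq_of_mem_sphere, mul_one] at h
  exact h

theorem law (e : S7) (φ : ℝ → ℝ) (hφ : Continuous φ) :
    ∫ ω : S7, φ (inner ℝ (ω : E8) (e : E8)) ∂sig =
      cS * ∫ s in (-1 : ℝ)..1, φ s * (1 - s ^ 2) ^ (5 / 2 : ℝ) := by
  set K : ℝ := sig.real univ + 2 * |cS| + 1 with hK
  have hK0 : 0 < K := by
    have : 0 ≤ sig.real univ := measureReal_nonneg
    have h2 : 0 ≤ |cS| := abs_nonneg _
    linarith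
  refine eq_of_forall_dist_le fun ε hε => ?_
  obtain ⟨p, hp⟩ := exists_polynomial_near_of_continuousOn (-1) 1 φ hφ.continuousOn (ε / K)
    (div_pos hε hK0)
  have h1 : |(∫ ω : S7, φ (inner ℝ (ω : E8) (e : E8)) ∂sig) -
      ∫ ω : S7, p.eval (inner ℝ (ω : E8) (e : E8)) ∂sig| ≤ (ε / K) * sig.real univ := by
    rw [← integral_sub (law_int e _ hφ) (law_int e _ p.continuous)]
    have h3 : ‖∫ ω : S7, (φ (inner ℝ (ω : E8) (e : E8)) -
        p.eval (inner ℝ (ω : E8) (e : E8))) ∂sig‖ ≤ (ε / K) * sig.real univ := by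
      refine norm_integral_le_of_norm_le_const (Filter.Eventually.of_forall fun ω => ?_)
      have h := hp _ (abs_le.1 (law_ip ω e))
      rw [Real.norm_eq_abs, abs_sub_comm]
      exact h.le
    exact h3
  have h2 : |(∫ s in (-1 : ℝ)..1, φ s * (1 - s ^ 2) ^ (5 / 2 : ℝ)) -
      ∫ s in (-1 : ℝ)..1, p.eval s * (1 - s ^ 2) ^ (5 / 2 : ℝ)| ≤ (ε / K) * 2 := by
    rw [← intervalIntegral.integral_sub (law_ii _ hφ) (law_ii _ p.continuous)]
    have h3 : ‖∫ s in (-1 : ℝ)..1, (φ s * (1 - s ^ 2) ^ (5 / 2 : ℝ) -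
        p.eval s * (1 - s ^ 2) ^ (5 / 2 : ℝ))‖ ≤ (ε / K) * |1 - (-1 : ℝ)| := by
      refine intervalIntegral.norm_integral_le_of_norm_le_const fun x hx => ?_
      rw [Set.uIoc_of_le (by norm_num)] at hx
      have h := hp x ⟨hx.1.le, hx.2⟩
      rw [← sub_mul, norm_mul, Real.norm_eq_abs, Real.norm_eq_abs, abs_sub_comm]
      have h5 : 0 ≤ 1 - x ^ 2 := by nlinarith [hx.1, hx.2]
      have h6 : 1 - x ^ 2 ≤ 1 := by nlinarith [sq_nonneg x]
      have h7 : |(1 - x ^ 2) ^ (5 / 2 : ℝ)| ≤ 1 := by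
        rw [abs_of_nonneg (Real.rpow_nonneg h5 _)]
        exact Real.rpow_le_one h5 h6 (by norm_num)
      calc |p.eval x - φ x| * |(1 - x ^ 2) ^ (5 / 2 : ℝ)| ≤ (ε / K) * 1 :=
            mul_le_mul h.le h7 (abs_nonneg _) (div_pos hε hK0).le
        _ = ε / K := mul_one _
    have h4 : |1 - (-1 : ℝ)| = 2 := by norm_num
    rw [h4] at h3
    exact h3
  rw [Real.dist_eq]
  have h8 : (∫ ω : S7, φ (inner ℝ (ω : E8) (e : E8)) ∂sig) -
      cS * ∫ s in (-1 : ℝ)..1, φ s * (1 - s ^ 2) ^ (5 / 2 : ℝ) =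
      ((∫ ω : S7, φ (inner ℝ (ω : E8) (e : E8)) ∂sig) -
        ∫ ω : S7, p.eval (inner ℝ (ω : E8) (e : E8)) ∂sig) -
      cS * ((∫ s in (-1 : ℝ)..1, φ s * (1 - s ^ 2) ^ (5 / 2 : ℝ)) -
        ∫ s in (-1 : ℝ)..1, p.eval s * (1 - s ^ 2) ^ (5 / 2 : ℝ)) := by
    rw [law_poly e p]
    ring
  rw [h8]
  calc _ ≤ _ := abs_sub _ _
    _ ≤ (ε / K) * sig.real univ + |cS| * ((ε / K) * 2) := by
        rw [abs_mul]
        exact add_le_add h1 (mul_le_mul_of_nonneg_left h2 (abs_nonneg _))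
    _ ≤ ε := by
        have h9 : (ε / K) * sig.real univ + |cS| * ((ε / K) * 2) = (ε / K) * (K - 1) := by
          rw [hK]; ring
        rw [h9]
        have h10 : (ε / K) * K = ε := div_mul_cancel₀ _ hK0.ne'
        have h11 : 0 < ε / K := div_pos hε hK0
        nlinarith

end Pool.Sph
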