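import Pool.Agent.Helper458.Sph.Defs

set_option autoImplicit false

open MeasureTheory Filter Topology Set Metric
open scoped Real ENNReal

namespace Pool.Sph



theorem radial (h : ℝ → ℝ) :
    ∫ z : E8, h ‖z‖ = sig.real univ * ∫ ρ in Ioi (0 : ℝ), ρ ^ 7 * h ρ := by
  have hd : Module.finrank ℝ E8 = 8 := by simp [E8]
  have h1 := MeasureTheory.integral_fun_norm_addHaar (volume : Measure E8) h
  rw [h1, sig, Measure.toSphere_real_apply_univ, hd]
  simp only [smul_eq_mul, nsmul_eq_mul, Nat.cast_ofNat, mul_assoc]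

end Pool.Sph
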