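import Pool.Agent.Helper458.Sph.Defs
import Pool.Agent.Helper458.Sph.P_law
import Pool.Agent.Helper458.Sph.P_radial
import Pool.Agent.Helper458.Sph.P_Dd_facts

set_option autoImplicit false

open MeasureTheory Filter Topology Set Metric
open scoped Real ENNReal

namespace Pool.Sph



theorem cr_norm (a b : S7) : ‖(a : E8) + (b : E8)‖ =
    Real.sqrt (2 + 2 * (inner ℝ (b : E8) (a : E8) : ℝ)) := by
  have ha : ‖(a : E8)‖ = 1 := norm_eq_of_mem_sphere a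
  have hb : ‖(b : E8)‖ = 1 := norm_eq_of_mem_sphere b
  have h := norm_add_sq_real (a : E8) (b : E8)
  rw [ha, hb] at h
  rw [real_inner_comm (a : E8) (b : E8)]
  have h2 : 2 + 2 * (inner ℝ (a : E8) (b : E8) : ℝ) = ‖(a : E8) + (b : E8)‖ ^ 2 := by
    rw [h]; ring
  rw [h2, Real.sqrt_sq (norm_nonneg _)]

theorem cr_int (q : ℝ → ℝ) (hq : Continuous q) :
    ∫ ρ in Ioi (0 : ℝ), ρ ^ 7 * (q ρ * Dd ρ) =
      ∫ s in (-1 : ℝ)..1, q (Real.sqrt (2 + 2 * s)) * (1 - s ^ 2) ^ (5 / 2 : ℝ) := by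
  have hsub := intervalIntegral.integral_comp_mul_deriv (a := 0) (b := 2)
    (f := fun ρ : ℝ => ρ ^ 2 / 2 - 1) (f' := fun ρ : ℝ => ρ)
    (g := fun s : ℝ => q (Real.sqrt (2 + 2 * s)) * (1 - s ^ 2) ^ (5 / 2 : ℝ))
    (by
      intro x _
      have h1 : HasDerivAt (fun ρ : ℝ => ρ ^ 2 / 2 - 1) ((2 * x) / 2) x := by
        have h2 : HasDerivAt (fun ρ : ℝ => ρ ^ 2) (2 * x) x := by
          simpa using hasDerivAt_pow 2 x
        exact (h2.div_const 2).sub_const 1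
      have e : (2 * x) / 2 = x := by ring
      rwa [e] at h1)
    continuousOn_id
    (by
      apply Continuous.mul
      · fun_prop
      · apply Continuous.rpow_const
        · fun_prop
        · intro x; right; norm_num)
  have e0 : ((0 : ℝ) ^ 2 / 2 - 1) = -1 := by norm_num
  have e2 : ((2 : ℝ) ^ 2 / 2 - 1) = 1 := by norm_num
  simp only [e0, e2] at hsub
  rw [← hsub]
  have hsplit : ∫ ρ in Ioi (0 : ℝ), ρ ^ 7 * (q ρ * Dd ρ) =
      ∫ ρ in Ioc (0 : ℝ) 2, ρ ^ 7 * (q ρ * Dd ρ) := by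
    refine (setIntegral_eq_of_subset_of_forall_diff_eq_zero measurableSet_Ioi
      Ioc_subset_Ioi_self ?_)
    intro x hx
    have h1 : 2 < x := by
      by_contra hc
      push Not at hc
      exact hx.2 ⟨hx.1, hc⟩
    rw [Dd_facts.2.2.1 x h1.le]
    ring
  rw [hsplit, intervalIntegral.integral_of_le (by norm_num : (0 : ℝ) ≤ 2)]
  refine setIntegral_congr_fun measurableSet_Ioc ?_
  intro ρ hρ
  have hρ0 : 0 < ρ := hρ.1
  have hρ2 : ρ ≤ 2 := hρ.2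
  simp only [Function.comp]
  have h1 : (2 + 2 * (ρ ^ 2 / 2 - 1)) = ρ ^ 2 := by ring
  have h2 : (1 - (ρ ^ 2 / 2 - 1) ^ 2) = ρ ^ 2 * (1 - ρ ^ 2 / 4) := by ring
  have h3 : 0 ≤ 1 - ρ ^ 2 / 4 := by nlinarith
  rw [h1, Real.sqrt_sq hρ0.le, h2, Real.mul_rpow (by positivity) h3]
  have h4 : (ρ ^ 2 : ℝ) ^ (5 / 2 : ℝ) = ρ ^ 5 := by
    rw [← Real.rpow_natCast ρ 2, ← Real.rpow_mul hρ0.le, ← Real.rpow_natCast ρ 5]
    norm_num
  rw [h4]
  unfold Dd
  rw [max_eq_right h3]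
  field_simp

theorem conv_rad (q : ℝ → ℝ) (hq : Continuous q) :
    ∫ p : S7 × S7, q ‖(p.1 : E8) + (p.2 : E8)‖ ∂mu2 = cS * ∫ z : E8, q ‖z‖ * Dd ‖z‖ := by
  have hcont : Continuous (fun p : S7 × S7 => q ‖(p.1 : E8) + (p.2 : E8)‖) := by fun_prop
  have hint : Integrable (fun p : S7 × S7 => q ‖(p.1 : E8) + (p.2 : E8)‖) mu2 :=
    hcont.integrable_of_hasCompactSupport (HasCompactSupport.of_compactSpace _)
  have h1 : ∫ p : S7 × S7, q ‖(p.1 : E8) + (p.2 : E8)‖ ∂mu2 =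
      ∫ a : S7, ∫ b : S7, q ‖(a : E8) + (b : E8)‖ ∂sig ∂sig := by
    unfold mu2 at hint ⊢
    exact integral_prod _ hint
  rw [h1]
  have h2 : ∀ a : S7, ∫ b : S7, q ‖(a : E8) + (b : E8)‖ ∂sig =
      cS * ∫ s in (-1 : ℝ)..1, q (Real.sqrt (2 + 2 * s)) * (1 - s ^ 2) ^ (5 / 2 : ℝ) := by
    intro a
    have := law a (fun s => q (Real.sqrt (2 + 2 * s))) (by fun_prop)
    rw [← this]
    refine integral_congr_ae (Filter.Eventually.of_forall fun b => ?_)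
    simp only
    rw [cr_norm a b]
  simp only [h2]
  rw [integral_const, smul_eq_mul]
  have h3 := radial (fun ρ => q ρ * Dd ρ)
  rw [h3, cr_int q hq]
  ring

end Pool.Sph
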