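import Pool.Agent.Helper458.Sph.Defs
import Pool.Agent.Helper458.Sph.P_act_mp
import Pool.Agent.Helper458.Sph.P_Gk_cont

set_option autoImplicit false

open MeasureTheory Filter Topology Set Metric
open scoped Real ENNReal

namespace Pool.Sph



theorem continuous_act (A : E8 ≃ₗᵢ[ℝ] E8) : Continuous (act A) := by
  unfold act
  exact Continuous.subtype_mk (A.continuous.comp continuous_subtype_val) _

noncomputable def actH (A : E8 ≃ₗᵢ[ℝ] E8) : S7 ≃ₜ S7 where
  toFun := act A
  invFun := act A.symm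
  left_inv := by
    intro ω
    apply Subtype.ext
    simp [act]
  right_inv := by
    intro ω
    apply Subtype.ext
    simp [act]
  continuous_toFun := continuous_act A
  continuous_invFun := continuous_act A.symm

theorem conv_rot (c : ℝ) (ψ : ℝ → ℝ) (A : E8 ≃ₗᵢ[ℝ] E8) (x : E8) :
    ∫ p : S7 × S7, ψ ‖(p.1 : E8) + (p.2 : E8)‖ * Gk c (A x + ((p.1 : E8) + (p.2 : E8))) ∂mu2 =
      ∫ p : S7 × S7, ψ ‖(p.1 : E8) + (p.2 : E8)‖ * Gk c (x + ((p.1 : E8) + (p.2 : E8))) ∂mu2 := by
  have h1 : MeasurePreserving (Prod.map (act A) (act A)) mu2 mu2 :=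
    (act_mp A).prod (act_mp A)
  have h2 : MeasurableEmbedding (Prod.map (act A) (act A)) :=
    ((actH A).prodCongr (actH A)).measurableEmbedding
  rw [← h1.integral_comp h2]
  refine integral_congr_ae (Filter.Eventually.of_forall fun p => ?_)
  have e1 : ((Prod.map (act A) (act A) p).1 : E8) = A (p.1 : E8) := rfl
  have e2 : ((Prod.map (act A) (act A) p).2 : E8) = A (p.2 : E8) := rfl
  simp only [e1, e2]
  rw [← map_add, ← map_add, A.norm_map, (Gk_cont c).2.2.2.1 A]

end Pool.Sph
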