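import Pool.Agent.Helper458.Sph.Defs
import Pool.Agent.Helper458.Sph.P_sig_pos
import Pool.Agent.Helper458.Sph.P_exists_act
import Pool.Agent.Helper458.Sph.P_Dd_facts
import Pool.Agent.Helper458.Sph.P_Dd_int
import Pool.Agent.Helper458.Sph.P_conv_rad
import Pool.Agent.Helper458.Sph.P_Gk_cont
import Pool.Agent.Helper458.Sph.P_avg_gauss
import Pool.Agent.Helper458.Sph.P_conv_rot

set_option autoImplicit false

open MeasureTheory Filter Topology Set Metric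
open scoped Real ENNReal

namespace Pool.Sph



theorem conv_gauss_inv (c : ℝ) (ψ : ℝ → ℝ) (A : E8 ≃ₗᵢ[ℝ] E8) (x : E8) :
    ∫ z : E8, ψ ‖z‖ * Gk c (A x + z) * Dd ‖z‖ = ∫ z : E8, ψ ‖z‖ * Gk c (x + z) * Dd ‖z‖ := by
  obtain ⟨_, _, _, hA, _⟩ := Gk_cont c
  have h := A.measurePreserving.integral_comp A.toHomeomorph.measurableEmbedding
    (fun z : E8 => ψ ‖z‖ * Gk c (A x + z) * Dd ‖z‖)
  rw [← h]
  congr 1
  funext z
  show ψ ‖A z‖ * Gk c (A x + A z) * Dd ‖A z‖ = _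
  rw [A.norm_map, ← map_add, hA]

theorem conv_gauss (c : ℝ) (ψ : ℝ → ℝ) (hψ : Continuous ψ) (x : E8) :
    ∫ p : S7 × S7, ψ ‖(p.1 : E8) + (p.2 : E8)‖ * Gk c (x + ((p.1 : E8) + (p.2 : E8))) ∂mu2 =
      cS * ∫ z : E8, ψ ‖z‖ * Gk c (x + z) * Dd ‖z‖ := by
  obtain ⟨hGc, hG0, _, hGA, hGb⟩ := Gk_cont c
  obtain ⟨d1, d2, d3, d4, d5, d6⟩ := Dd_facts
  obtain ⟨q, hq, hqz⟩ := avg_gauss c ‖x‖
  -- a unit vector in the direction of x
  obtain ⟨w, hw⟩ : ∃ w : S7, x = ‖x‖ • (w : E8) := by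
    by_cases hx : x = 0
    · have hne : (EuclideanSpace.single (0 : Fin 8) (1 : ℝ) : E8) ∈ Metric.sphere (0 : E8) 1 := by
        rw [mem_sphere_zero_iff_norm]
        simp
      refine ⟨⟨_, hne⟩, ?_⟩
      rw [hx]
      simp
    · have hn : ‖x‖ ≠ 0 := norm_ne_zero_iff.2 hx
      have hne : (‖x‖⁻¹ • x) ∈ Metric.sphere (0 : E8) 1 := by
        rw [mem_sphere_zero_iff_norm, norm_smul, norm_inv, norm_norm, inv_mul_cancel₀ hn]
      refine ⟨⟨_, hne⟩, ?_⟩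
      show x = ‖x‖ • (‖x‖⁻¹ • x)
      rw [smul_smul, mul_inv_cancel₀ hn, one_smul]
  have hA : ∀ e : S7, ∃ A : E8 ≃ₗᵢ[ℝ] E8, A x = ‖x‖ • (e : E8) := by
    intro e
    obtain ⟨A, hA⟩ := exists_act w e
    refine ⟨A, ?_⟩
    have h1 : A (w : E8) = (e : E8) := congrArg Subtype.val hA
    conv_lhs => rw [hw]
    rw [map_smul, h1]
  have hΦ : ∀ e : S7, ∫ p : S7 × S7, ψ ‖(p.1 : E8) + (p.2 : E8)‖ *
      Gk c (‖x‖ • (e : E8) + ((p.1 : E8) + (p.2 : E8))) ∂mu2 =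
      ∫ p : S7 × S7, ψ ‖(p.1 : E8) + (p.2 : E8)‖ * Gk c (x + ((p.1 : E8) + (p.2 : E8))) ∂mu2 := by
    intro e
    obtain ⟨A, hA⟩ := hA e
    rw [← hA]
    exact conv_rot c ψ A x
  have hΨ : ∀ e : S7, ∫ z : E8, ψ ‖z‖ * Gk c (‖x‖ • (e : E8) + z) * Dd ‖z‖ =
      ∫ z : E8, ψ ‖z‖ * Gk c (x + z) * Dd ‖z‖ := by
    intro e
    obtain ⟨A, hA⟩ := hA e
    rw [← hA]
    exact conv_gauss_inv c ψ A x
  -- Fubini on the left
  have hL : sig.real univ * ∫ p : S7 × S7, ψ ‖(p.1 : E8) + (p.2 : E8)‖ *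
      Gk c (x + ((p.1 : E8) + (p.2 : E8))) ∂mu2 =
      cS * ∫ z : E8, (ψ ‖z‖ * q ‖z‖) * Dd ‖z‖ := by
    have e1 : ∫ e : S7, (∫ p : S7 × S7, ψ ‖(p.1 : E8) + (p.2 : E8)‖ *
        Gk c (‖x‖ • (e : E8) + ((p.1 : E8) + (p.2 : E8))) ∂mu2) ∂sig =
        sig.real univ * ∫ p : S7 × S7, ψ ‖(p.1 : E8) + (p.2 : E8)‖ *
          Gk c (x + ((p.1 : E8) + (p.2 : E8))) ∂mu2 := by
      rw [integral_congr_ae (Filter.Eventually.of_forall hΦ), integral_const, smul_eq_mul]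
    have hcont : Continuous (Function.uncurry (fun (e : S7) (p : S7 × S7) =>
        ψ ‖(p.1 : E8) + (p.2 : E8)‖ * Gk c (‖x‖ • (e : E8) + ((p.1 : E8) + (p.2 : E8))))) := by
      have k1 : Continuous (fun y : S7 × (S7 × S7) => (y.2.1 : E8) + (y.2.2 : E8)) :=
        (continuous_subtype_val.comp (continuous_fst.comp continuous_snd)).add
          (continuous_subtype_val.comp (continuous_snd.comp continuous_snd))
      have k2 : Continuous (fun y : S7 × (S7 × S7) => ‖x‖ • (y.1 : E8)) := by fun_prop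
      exact (hψ.comp k1.norm).mul (hGc.comp (k2.add k1))
    have hint : Integrable (Function.uncurry (fun (e : S7) (p : S7 × S7) =>
        ψ ‖(p.1 : E8) + (p.2 : E8)‖ * Gk c (‖x‖ • (e : E8) + ((p.1 : E8) + (p.2 : E8)))))
        (sig.prod mu2) :=
      hcont.integrable_of_hasCompactSupport (HasCompactSupport.of_compactSpace _)
    rw [← e1, integral_integral_swap hint]
    rw [← conv_rad (fun ρ => ψ ρ * q ρ) (hψ.mul hq)]
    congr 1
    funext p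
    rw [integral_const_mul, hqz]
  -- Fubini on the right
  have hR : sig.real univ * ∫ z : E8, ψ ‖z‖ * Gk c (x + z) * Dd ‖z‖ =
      ∫ z : E8, (ψ ‖z‖ * q ‖z‖) * Dd ‖z‖ := by
    have e1 : ∫ e : S7, (∫ z : E8, ψ ‖z‖ * Gk c (‖x‖ • (e : E8) + z) * Dd ‖z‖) ∂sig =
        sig.real univ * ∫ z : E8, ψ ‖z‖ * Gk c (x + z) * Dd ‖z‖ := by
      rw [integral_congr_ae (Filter.Eventually.of_forall hΨ), integral_const, smul_eq_mul]
    obtain ⟨C, hC⟩ : ∃ C : ℝ, ∀ ρ ∈ Icc (0:ℝ) 2, |ψ ρ| ≤ C := by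
      obtain ⟨C, hC⟩ := (isCompact_Icc (a := (0:ℝ)) (b := 2)).exists_bound_of_continuousOn hψ.continuousOn
      exact ⟨C, hC⟩
    have hC0 : 0 ≤ C := le_trans (abs_nonneg _) (hC 0 ⟨le_rfl, by norm_num⟩)
    have k2 : Continuous (fun y : S7 × E8 => ‖x‖ • (y.1 : E8) + y.2) := by fun_prop
    have hmeas : Measurable (Function.uncurry (fun (e : S7) (z : E8) =>
        ψ ‖z‖ * Gk c (‖x‖ • (e : E8) + z) * Dd ‖z‖)) :=
      (((hψ.comp continuous_snd.norm).measurable).mul (hGc.comp k2).measurable).mul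
        (d6.comp measurable_snd.norm)
    have hdom : Integrable (fun y : S7 × E8 => C * (256 * π ^ 4 * c ^ 8) * Dd ‖y.2‖) (sig.prod volume) :=
      (Dd_int.comp_snd sig).const_mul _
    have hint : Integrable (Function.uncurry (fun (e : S7) (z : E8) =>
        ψ ‖z‖ * Gk c (‖x‖ • (e : E8) + z) * Dd ‖z‖)) (sig.prod volume) := by
      refine hdom.mono' hmeas.aestronglyMeasurable (Filter.Eventually.of_forall ?_)
      rintro ⟨e, z⟩
      show ‖ψ ‖z‖ * Gk c (‖x‖ • (e : E8) + z) * Dd ‖z‖‖ ≤ C * (256 * π ^ 4 * c ^ 8) * Dd ‖z‖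
      by_cases h2 : 2 ≤ ‖z‖
      · rw [d3 _ h2]
        simp
      · push Not at h2
        rw [norm_mul, norm_mul, Real.norm_eq_abs, Real.norm_eq_abs, Real.norm_eq_abs,
          abs_of_nonneg (hG0 _), abs_of_nonneg (d1 _ (norm_nonneg z))]
        apply mul_le_mul_of_nonneg_right _ (d1 _ (norm_nonneg z))
        exact mul_le_mul (hC _ ⟨norm_nonneg z, h2.le⟩) (hGb _) (hG0 _) hC0
    rw [← e1, integral_integral_swap hint]
    congr 1
    funext z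
    have e2 : ∀ e : S7, ψ ‖z‖ * Gk c (‖x‖ • (e : E8) + z) * Dd ‖z‖ =
        (ψ ‖z‖ * Dd ‖z‖) * Gk c (‖x‖ • (e : E8) + z) := fun e => by ring
    rw [integral_congr_ae (Filter.Eventually.of_forall e2), integral_const_mul, hqz]
    ring
  have hpos := sig_pos
  have h3 : sig.real univ * ∫ p : S7 × S7, ψ ‖(p.1 : E8) + (p.2 : E8)‖ *
      Gk c (x + ((p.1 : E8) + (p.2 : E8))) ∂mu2 =
      sig.real univ * (cS * ∫ z : E8, ψ ‖z‖ * Gk c (x + z) * Dd ‖z‖) := by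
    rw [hL, ← hR]
    ring
  exact mul_left_cancel₀ hpos.ne' h3

end Pool.Sph
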