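import Pool.Agent.Helper458.Sph.Defs
import Pool.Agent.Helper458.Sph.P_cS_pos
import Pool.Agent.Helper458.Sph.P_radial
import Pool.Agent.Helper458.Sph.P_Dd_facts
import Pool.Agent.Helper458.Sph.P_Dd_int
import Pool.Agent.Helper458.Sph.P_Gk_cont
import Pool.Agent.Helper458.Sph.P_Gk_int
import Pool.Agent.Helper458.Sph.P_conv_gauss

set_option autoImplicit false

open MeasureTheory Filter Topology Set Metric
open scoped Real ENNReal

namespace Pool.Sph



theorem Mc_bound : ∃ B : ℝ, 0 ≤ B ∧ ∀ c : ℝ, 0 < c → ∀ x : E8, Mc c x ≤ B * c := by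
  have hS : 0 < sig.real univ := by
    by_contra h
    have h1 := cS_pos
    unfold cS at h1
    have h0 : sig.real univ = 0 := le_antisymm (not_lt.1 h) measureReal_nonneg
    rw [h0, zero_div] at h1
    exact lt_irrefl _ h1
  have hcS := cS_pos
  refine ⟨cS * (256 * π ^ 8 + 256 * π ^ 4 * sig.real univ / 7), by positivity, ?_⟩
  intro c hc x
  set h : ℝ → ℝ := (Iio (1 / c)).indicator (fun ρ => ρ⁻¹) with hh
  have hint : ∫ z : E8, h ‖z‖ = sig.real univ * ((1 / c) ^ 7 / 7) := by
    rw [radial h]
    congr 1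
    have h1 : ∫ ρ in Ioi (0 : ℝ), ρ ^ 7 * h ρ =
        ∫ ρ in Ioi (0 : ℝ), (Iio (1 / c)).indicator (fun ρ => ρ ^ 6) ρ := by
      apply setIntegral_congr_fun measurableSet_Ioi
      intro ρ hρ
      have hρ' : ρ ≠ 0 := ne_of_gt hρ
      simp only [hh]
      by_cases hm : ρ ∈ Iio (1 / c)
      · rw [indicator_of_mem hm, indicator_of_mem hm]
        field_simp
      · rw [indicator_of_notMem hm, indicator_of_notMem hm, mul_zero]
    rw [h1, setIntegral_indicator measurableSet_Iio, Ioi_inter_Iio,
      ← integral_Ioc_eq_integral_Ioo, ← intervalIntegral.integral_of_le (by positivity),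
      integral_pow]
    norm_num
  have hI : Integrable (fun z : E8 => h ‖z‖) := by
    by_contra hn
    have h1 := integral_undef hn
    rw [hint] at h1
    have h2 : 0 < sig.real univ * ((1 / c) ^ 7 / 7) := by positivity
    exact h2.ne' h1
  have hM : Mc c x = cS * ∫ z : E8, Gk c (x + z) * Dd ‖z‖ := by
    have := conv_gauss c (fun _ => 1) continuous_const x
    simpa [Mc] using this
  obtain ⟨hG1, hG2⟩ := Gk_int c hc x
  obtain ⟨-, hGn, -, -, hGb⟩ := Gk_cont c
  obtain ⟨hD1, hD2, -⟩ := Dd_facts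
  have hmono : ∫ z : E8, Gk c (x + z) * Dd ‖z‖ ≤
      ∫ z : E8, (c * Gk c (x + z) + 256 * π ^ 4 * c ^ 8 * h ‖z‖) := by
    apply integral_mono_of_nonneg
    · exact Filter.Eventually.of_forall fun z => mul_nonneg (hGn _) (hD1 _ (norm_nonneg _))
    · exact (hG1.const_mul c).add (hI.const_mul _)
    · refine Filter.Eventually.of_forall fun z => ?_
      show Gk c (x + z) * Dd ‖z‖ ≤ c * Gk c (x + z) + 256 * π ^ 4 * c ^ 8 * h ‖z‖
      rcases eq_or_lt_of_le (norm_nonneg z) with h0 | h0
      · rw [← h0]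
        have e1 : Dd 0 = 0 := by simp [Dd]
        have e2 : h 0 = 0 := by
          simp [hh]
        rw [e1, e2, mul_zero, mul_zero, add_zero]
        exact mul_nonneg hc.le (hGn _)
      · by_cases hm : ‖z‖ < 1 / c
        · have e1 : h ‖z‖ = ‖z‖⁻¹ := by
            rw [hh, indicator_of_mem (show ‖z‖ ∈ Iio (1 / c) from hm)]
          rw [e1]
          have e2 : Gk c (x + z) * Dd ‖z‖ ≤ 256 * π ^ 4 * c ^ 8 * ‖z‖⁻¹ := by
            apply mul_le_mul (hGb _) _ (hD1 _ (norm_nonneg _)) (by positivity)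
            rw [← one_div]
            exact hD2 _ h0
          have e3 := mul_nonneg hc.le (hGn (x + z))
          linarith
        · have e1 : h ‖z‖ = 0 := by
            rw [hh, indicator_of_notMem (show ‖z‖ ∉ Iio (1 / c) from hm)]
          rw [e1, mul_zero, add_zero, mul_comm c]
          apply mul_le_mul_of_nonneg_left _ (hGn _)
          refine (hD2 _ h0).trans ?_
          rw [div_le_iff₀ h0]
          have := not_lt.1 hm
          rw [div_le_iff₀ hc] at this
          linarith
  rw [hM]
  have hval : ∫ z : E8, (c * Gk c (x + z) + 256 * π ^ 4 * c ^ 8 * h ‖z‖) =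
      (256 * π ^ 8 + 256 * π ^ 4 * sig.real univ / 7) * c := by
    rw [integral_add (hG1.const_mul c) (hI.const_mul _), integral_const_mul, integral_const_mul,
      hG2, hint]
    field_simp
  calc cS * ∫ z : E8, Gk c (x + z) * Dd ‖z‖
      ≤ cS * ((256 * π ^ 8 + 256 * π ^ 4 * sig.real univ / 7) * c) := by
        apply mul_le_mul_of_nonneg_left _ hcS.le
        rw [← hval]
        exact hmono
    _ = _ := by ring

end Pool.Sph
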