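import Pool.Agent.Helper458.Sph.Defs
import Pool.Agent.Helper458.Sph.P_cS_pos
import Pool.Agent.Helper458.Sph.P_Dd_facts
import Pool.Agent.Helper458.Sph.P_Dd_int
import Pool.Agent.Helper458.Sph.P_Gk_cont
import Pool.Agent.Helper458.Sph.P_Gk_int
import Pool.Agent.Helper458.Sph.P_conv_gauss

set_option autoImplicit false

open MeasureTheory Filter Topology Set Metric
open scoped Real ENNReal

namespace Pool.Sph



theorem Mz_bound : ∃ B : ℝ, 0 ≤ B ∧ ∀ c : ℝ, 0 < c → ∀ x : E8,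
    ∫ q : S7 × S7, ‖(q.1 : E8) + (q.2 : E8)‖ ^ 2 *
      Gk c (x + ((q.1 : E8) + (q.2 : E8))) ∂mu2 ≤ B := by
  have hcS := cS_pos
  refine ⟨cS * (2 * (256 * π ^ 8)), by positivity, fun c hc x => ?_⟩
  have h1 := conv_gauss c (fun ρ => ρ ^ 2) (by fun_prop) x
  rw [h1]
  refine mul_le_mul_of_nonneg_left ?_ hcS.le
  obtain ⟨hi, hv⟩ := Gk_int c hc x
  rw [← hv, ← integral_const_mul]
  refine integral_mono_of_nonneg ?_ (hi.const_mul 2) ?_
  · refine Filter.Eventually.of_forall fun z => ?_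
    exact mul_nonneg (mul_nonneg (by positivity) ((Gk_cont c).2.1 _))
      (Dd_facts.1 _ (norm_nonneg _))
  · refine Filter.Eventually.of_forall fun z => ?_
    have h2 := Dd_facts.2.2.2.1 ‖z‖ (norm_nonneg _)
    have h3 := (Gk_cont c).2.1 (x + z)
    calc ‖z‖ ^ 2 * Gk c (x + z) * Dd ‖z‖ = (‖z‖ ^ 2 * Dd ‖z‖) * Gk c (x + z) := by ring
      _ ≤ 2 * Gk c (x + z) := mul_le_mul_of_nonneg_right h2 h3

end Pool.Sph
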