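import Pool.Agent.Helper458.Sph.Defs

set_option autoImplicit false

open MeasureTheory Filter Topology Set Metric
open scoped Real ENNReal

namespace Pool.Sph



theorem U_unit (a b c d : E8) (ha : ‖a‖ = 1) (hb : ‖b‖ = 1) (hc : ‖c‖ = 1) (hd : ‖d‖ = 1) :
    T2 a b c d + T2 a c b d + T2 a d b c = 8 + ‖(a + b) + (c + d)‖ ^ 2 ∧
      ‖(a + b) + (c + d)‖ ≤ 4 := by
  constructor
  · unfold T2
    have h1 := norm_add_sq_real a b
    have h2 := norm_add_sq_real c d
    have h3 := norm_add_sq_real a c
    have h4 := norm_add_sq_real b d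
    have h5 := norm_add_sq_real a d
    have h6 := norm_add_sq_real b c
    have h7 := norm_add_sq_real (a + b) (c + d)
    rw [inner_add_left, inner_add_right, inner_add_right] at h7
    rw [ha, hb] at h1
    rw [hc, hd] at h2
    rw [ha, hc] at h3
    rw [hb, hd] at h4
    rw [ha, hd] at h5
    rw [hb, hc] at h6
    linarith
  · have h1 := norm_add_le (a + b) (c + d)
    have h2 := norm_add_le a b
    have h3 := norm_add_le c d
    linarith

end Pool.Sph
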