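import Pool.Agent.Helper458.Sph.Defs
import Pool.Agent.Helper458.Sph.P_U_unit

set_option autoImplicit false

open MeasureTheory Filter Topology Set Metric
open scoped Real ENNReal

namespace Pool.Sph



theorem Pw_le (a b c d : E8) (ha : ‖a‖ = 1) (hb : ‖b‖ = 1) (hc : ‖c‖ = 1) (hd : ‖d‖ = 1) :
    Pw a b c d ≤ 1152 * (2 * ‖(a + b) + (c + d)‖ ^ 2 + 3 * ‖c + d‖ ^ 2) := by
  obtain ⟨hU, hS⟩ := U_unit a b c d ha hb hc hd
  have hx0 : 0 ≤ T2 a b c d := by unfold T2; positivity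
  have hy0 : 0 ≤ T2 a c b d := by unfold T2; positivity
  have hz0 : 0 ≤ T2 a d b c := by unfold T2; positivity
  have hS0 : 0 ≤ ‖(a + b) + (c + d)‖ := norm_nonneg _
  have hx : T2 a b c d ≤ 2 * ‖(a + b) + (c + d)‖ ^ 2 + 3 * ‖c + d‖ ^ 2 := by
    have h1 : ‖a + b‖ ≤ ‖(a + b) + (c + d)‖ + ‖c + d‖ := by
      have h2 := norm_sub_le ((a + b) + (c + d)) (c + d)
      rwa [add_sub_cancel_right] at h2
    have h3 : ‖a + b‖ ^ 2 ≤ (‖(a + b) + (c + d)‖ + ‖c + d‖) ^ 2 :=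
      pow_le_pow_left₀ (norm_nonneg _) h1 2
    have h4 : T2 a b c d = ‖a + b‖ ^ 2 + ‖c + d‖ ^ 2 := rfl
    rw [h4]
    nlinarith [sq_nonneg (‖(a + b) + (c + d)‖ - ‖c + d‖)]
  have hU24 : T2 a b c d + T2 a c b d + T2 a d b c ≤ 24 := by
    rw [hU]
    nlinarith
  unfold Pw
  generalize T2 a b c d = x at *
  generalize T2 a c b d = y at *
  generalize T2 a d b c = z at *
  have h5 : (x + y + z) ^ 2 + 7 / 12 * (x * (y + z) - y ^ 2 - z ^ 2) ≤ 1152 := by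
    have h6 : (x + y + z) ^ 2 ≤ 24 ^ 2 := pow_le_pow_left₀ (by positivity) hU24 2
    have h7 : x * (y + z) ≤ (x + y + z) ^ 2 := by nlinarith [mul_nonneg hy0 hz0, mul_nonneg hx0 hy0, mul_nonneg hx0 hz0, sq_nonneg x, sq_nonneg y, sq_nonneg z]
    nlinarith [sq_nonneg y, sq_nonneg z]
  calc x * ((x + y + z) ^ 2 + 7 / 12 * (x * (y + z) - y ^ 2 - z ^ 2)) ≤ x * 1152 :=
        mul_le_mul_of_nonneg_left h5 hx0
    _ = 1152 * x := mul_comm _ _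
    _ ≤ _ := mul_le_mul_of_nonneg_left hx (by norm_num)

end Pool.Sph
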