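import Pool.Agent.Helper458.Sph.Defs

set_option autoImplicit false

open MeasureTheory Filter Topology Set Metric
open scoped Real ENNReal

namespace Pool.Sph



theorem Pw_nonneg (a b c d : E8) : 0 ≤ Pw a b c d := by
  have h : ∀ p q r s : E8, 0 ≤ T2 p q r s := fun p q r s => by unfold T2; positivity
  have hx := h a b c d
  have hy := h a c b d
  have hz := h a d b c
  unfold Pw
  generalize T2 a b c d = x at *
  generalize T2 a c b d = y at *
  generalize T2 a d b c = z at *
  refine mul_nonneg hx ?_
  nlinarith [mul_nonneg hx hy, mul_nonneg hx hz, mul_nonneg hy hz, sq_nonneg x, sq_nonneg y, sq_nonneg z]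

end Pool.Sph
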