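import Pool.Agent.Helper458.Sph.Defs
import Pool.Agent.Helper458.Sph.P_Gk_cont
import Pool.Agent.Helper458.Sph.P_Gk_sq_le

set_option autoImplicit false

open MeasureTheory Filter Topology Set Metric
open scoped Real ENNReal

namespace Pool.Sph



theorem err_sq (c : ℝ) (hc : 0 < c) (x : E8) :
    ∫ q : S7 × S7, ‖x + ((q.1 : E8) + (q.2 : E8))‖ ^ 2 *
        Gk c (x + ((q.1 : E8) + (q.2 : E8))) ∂mu2 ≤ 16 / c ^ 2 * Mc (c / Real.sqrt 2) x := by
  obtain ⟨hcont, hpos, -, -, hbd⟩ := Gk_cont (c / Real.sqrt 2)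
  have hc1 : Continuous (fun q : S7 × S7 => Gk (c / Real.sqrt 2) (x + ((q.1 : E8) + (q.2 : E8)))) := by
    apply hcont.comp
    fun_prop
  have hint : Integrable (fun q : S7 × S7 =>
      16 / c ^ 2 * Gk (c / Real.sqrt 2) (x + ((q.1 : E8) + (q.2 : E8)))) mu2 := by
    apply Integrable.const_mul
    refine Integrable.of_bound hc1.aestronglyMeasurable
      (256 * π ^ 4 * (c / Real.sqrt 2) ^ 8) (Filter.Eventually.of_forall fun q => ?_)
    rw [Real.norm_of_nonneg (hpos _)]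
    exact hbd _
  calc ∫ q : S7 × S7, ‖x + ((q.1 : E8) + (q.2 : E8))‖ ^ 2 *
        Gk c (x + ((q.1 : E8) + (q.2 : E8))) ∂mu2
      ≤ ∫ q : S7 × S7, 16 / c ^ 2 * Gk (c / Real.sqrt 2) (x + ((q.1 : E8) + (q.2 : E8))) ∂mu2 := by
        refine integral_mono_of_nonneg (Filter.Eventually.of_forall fun q => ?_) hint
          (Filter.Eventually.of_forall fun q => Gk_sq_le c hc _)
        exact mul_nonneg (by positivity) ((Gk_cont c).2.1 _)
    _ = 16 / c ^ 2 * Mc (c / Real.sqrt 2) x := by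
        rw [integral_const_mul]
        rfl

end Pool.Sph
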