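import Pool.Agent.Helper458.Sph.Defs
import Pool.Agent.Helper458.Sph.P_Gk_cont
import Pool.Agent.Helper458.Sph.P_Mc_bound
import Pool.Agent.Helper458.Sph.P_Mz_bound
import Pool.Agent.Helper458.Sph.P_Pw_nonneg
import Pool.Agent.Helper458.Sph.P_Pw_le
import Pool.Agent.Helper458.Sph.P_err_sq

set_option autoImplicit false

open MeasureTheory Filter Topology Set Metric
open scoped Real ENNReal

namespace Pool.Sph



theorem Kc_bound : ∃ C : ℝ, ∀ c : ℝ, 1 ≤ c → ∀ p : S7 × S7, |Kc c p| ≤ C := by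
  obtain ⟨B1, hB1, hM⟩ := Mc_bound
  obtain ⟨B2, hB2, hZ⟩ := Mz_bound
  refine ⟨3 / 512 * (1152 * (2 * (16 * B1) + 3 * B2)), ?_⟩
  intro c hc p
  have hc0 : 0 < c := by linarith
  obtain ⟨hGc, hG0, -, -, -⟩ := Gk_cont c
  set x : E8 := (p.1 : E8) + (p.2 : E8) with hx
  have hn : ∀ a : S7, ‖(a : E8)‖ = 1 := fun a => norm_eq_of_mem_sphere a
  have hint : ∀ F : S7 × S7 → ℝ, Continuous F → Integrable F mu2 := by
    intro F hF
    have := hF.continuousOn.integrableOn_compact (μ := mu2) (isCompact_univ)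
    rwa [integrableOn_univ] at this
  have hGq : Continuous (fun q : S7 × S7 => Gk c (x + ((q.1 : E8) + (q.2 : E8)))) := by
    apply hGc.comp
    fun_prop
  have hPw : Continuous (fun q : S7 × S7 => Pw (p.1 : E8) (p.2 : E8) (q.1 : E8) (q.2 : E8)) := by
    unfold Pw T2
    fun_prop
  have h0 : 0 ≤ ∫ q : S7 × S7, Pw (p.1 : E8) (p.2 : E8) (q.1 : E8) (q.2 : E8) *
      Gk c (x + ((q.1 : E8) + (q.2 : E8))) ∂mu2 :=
    integral_nonneg fun q => mul_nonneg (Pw_nonneg _ _ _ _) (hG0 _)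
  have hi1 : Integrable (fun q : S7 × S7 => ‖x + ((q.1 : E8) + (q.2 : E8))‖ ^ 2 *
      Gk c (x + ((q.1 : E8) + (q.2 : E8)))) mu2 := by
    apply hint
    apply Continuous.mul _ hGq
    fun_prop
  have hi2 : Integrable (fun q : S7 × S7 => ‖(q.1 : E8) + (q.2 : E8)‖ ^ 2 *
      Gk c (x + ((q.1 : E8) + (q.2 : E8)))) mu2 := by
    apply hint
    apply Continuous.mul _ hGq
    fun_prop
  have h1 : ∫ q : S7 × S7, Pw (p.1 : E8) (p.2 : E8) (q.1 : E8) (q.2 : E8) *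
      Gk c (x + ((q.1 : E8) + (q.2 : E8))) ∂mu2
      ≤ ∫ q : S7 × S7, (1152 * 2 * (‖x + ((q.1 : E8) + (q.2 : E8))‖ ^ 2 *
          Gk c (x + ((q.1 : E8) + (q.2 : E8)))) + 1152 * 3 * (‖(q.1 : E8) + (q.2 : E8)‖ ^ 2 *
          Gk c (x + ((q.1 : E8) + (q.2 : E8))))) ∂mu2 := by
    apply integral_mono (hint _ (hPw.mul hGq)) ((hi1.const_mul _).add (hi2.const_mul _))
    intro q
    have := Pw_le (p.1 : E8) (p.2 : E8) (q.1 : E8) (q.2 : E8) (hn _) (hn _) (hn _) (hn _)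
    have hg := hG0 (x + ((q.1 : E8) + (q.2 : E8)))
    calc Pw (p.1 : E8) (p.2 : E8) (q.1 : E8) (q.2 : E8) * Gk c (x + ((q.1 : E8) + (q.2 : E8)))
        ≤ (1152 * (2 * ‖((p.1 : E8) + (p.2 : E8)) + ((q.1 : E8) + (q.2 : E8))‖ ^ 2
          + 3 * ‖(q.1 : E8) + (q.2 : E8)‖ ^ 2)) * Gk c (x + ((q.1 : E8) + (q.2 : E8))) :=
          mul_le_mul_of_nonneg_right this hg
      _ = _ := by rw [← hx]; simp only [Pi.add_apply]; ring
  rw [integral_add (hi1.const_mul _) (hi2.const_mul _), integral_const_mul, integral_const_mul] at h1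
  have h2 := err_sq c hc0 x
  have h3 := hM (c / Real.sqrt 2) (by positivity) x
  have h4 := hZ c hc0 x
  have hs2 : 1 ≤ Real.sqrt 2 := by
    rw [Real.one_le_sqrt]; norm_num
  have h5 : 16 / c ^ 2 * Mc (c / Real.sqrt 2) x ≤ 16 * B1 := by
    calc 16 / c ^ 2 * Mc (c / Real.sqrt 2) x ≤ 16 / c ^ 2 * (B1 * (c / Real.sqrt 2)) := by gcongr
      _ ≤ 16 / c ^ 2 * (B1 * c) := by
        gcongr
        exact div_le_self hc0.le hs2
      _ = 16 * B1 / c := by field_simp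
      _ ≤ 16 * B1 := div_le_self (by positivity) hc
  unfold Kc
  rw [← hx, abs_of_nonneg (by positivity)]
  have : ∫ q : S7 × S7, Pw (p.1 : E8) (p.2 : E8) (q.1 : E8) (q.2 : E8) *
      Gk c (x + ((q.1 : E8) + (q.2 : E8))) ∂mu2 ≤ 1152 * (2 * (16 * B1) + 3 * B2) := by
    linarith
  gcongr

end Pool.Sph
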