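import Pool.Agent.Helper458.Sph.Defs
import Pool.Agent.Helper458.Sph.P_Gk_cont

set_option autoImplicit false

open MeasureTheory Filter Topology Set Metric
open scoped Real ENNReal

namespace Pool.Sph



theorem kern_cont (c : ℝ) :
    Continuous (fun p : (S7 × S7) × (S7 × S7) =>
      Gk c (((p.1.1 : E8) + (p.1.2 : E8)) + ((p.2.1 : E8) + (p.2.2 : E8)))) ∧
    Continuous (fun p : (S7 × S7) × (S7 × S7) =>
      Gk c (((p.1.1 : E8) - (p.1.2 : E8)) + ((p.2.1 : E8) - (p.2.2 : E8)))) ∧
    Continuous (fun p : (S7 × S7) × (S7 × S7) =>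
      Pw (p.1.1 : E8) (p.1.2 : E8) (p.2.1 : E8) (p.2.2 : E8) *
      Gk c (((p.1.1 : E8) + (p.1.2 : E8)) + ((p.2.1 : E8) + (p.2.2 : E8)))) := by
  have hG := (Gk_cont c).1
  have h1 : Continuous (fun p : (S7 × S7) × (S7 × S7) => (p.1.1 : E8)) :=
    continuous_subtype_val.comp (continuous_fst.comp continuous_fst)
  have h2 : Continuous (fun p : (S7 × S7) × (S7 × S7) => (p.1.2 : E8)) :=
    continuous_subtype_val.comp (continuous_snd.comp continuous_fst)
  have h3 : Continuous (fun p : (S7 × S7) × (S7 × S7) => (p.2.1 : E8)) :=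
    continuous_subtype_val.comp (continuous_fst.comp continuous_snd)
  have h4 : Continuous (fun p : (S7 × S7) × (S7 × S7) => (p.2.2 : E8)) :=
    continuous_subtype_val.comp (continuous_snd.comp continuous_snd)
  have g1 : Continuous (fun p : (S7 × S7) × (S7 × S7) =>
      Gk c (((p.1.1 : E8) + (p.1.2 : E8)) + ((p.2.1 : E8) + (p.2.2 : E8)))) :=
    hG.comp ((h1.add h2).add (h3.add h4))
  refine ⟨g1, hG.comp ((h1.sub h2).add (h3.sub h4)), Continuous.mul ?_ g1⟩
  have hT : ∀ {a b c d : (S7 × S7) × (S7 × S7) → E8}, Continuous a → Continuous b →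
      Continuous c → Continuous d → Continuous (fun p => T2 (a p) (b p) (c p) (d p)) := by
    intro a b c d ha hb hc hd
    unfold T2
    exact ((ha.add hb).norm.pow 2).add ((hc.add hd).norm.pow 2)
  have t1 := hT h1 h2 h3 h4
  have t2 := hT h1 h3 h2 h4
  have t3 := hT h1 h4 h2 h3
  unfold Pw
  exact t1.mul ((((t1.add t2).add t3).pow 2).add
    (continuous_const.mul (((t1.mul (t2.add t3)).sub (t2.pow 2)).sub (t3.pow 2))))

end Pool.Sph
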