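import Pool.Agent.Helper458.Sph.Defs
import Pool.Agent.Helper458.Sph.P_kern_cont

set_option autoImplicit false

open MeasureTheory Filter Topology Set Metric
open scoped Real ENNReal

namespace Pool.Sph



theorem param_cont (F : (S7 × S7) × (S7 × S7) → ℝ) (hF : Continuous F) :
    Continuous (fun p : S7 × S7 => ∫ q : S7 × S7, F (p, q) ∂mu2) := by
  obtain ⟨M, hM⟩ := (isCompact_univ (X := (S7 × S7) × (S7 × S7))).exists_bound_of_continuousOn
    hF.continuousOn
  refine continuous_of_dominated (bound := fun _ => M) ?_ ?_ ?_ ?_
  · intro p
    exact (hF.comp (Continuous.prodMk_right p)).aestronglyMeasurable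
  · intro p
    exact Filter.Eventually.of_forall (fun q => hM (p, q) (mem_univ _))
  · exact integrable_const _
  · exact Filter.Eventually.of_forall (fun q => hF.comp (Continuous.prodMk_left q))

theorem Kc_cont (c : ℝ) : Continuous (Kc c) :=
  continuous_const.mul (param_cont _ (kern_cont c).2.2)

end Pool.Sph
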