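import Pool.Agent.Helper458.Sph.Defs

set_option autoImplicit false

open MeasureTheory Filter Topology Set Metric
open scoped Real ENNReal

namespace Pool.Sph



theorem K_algebra (s X : ℝ) (hs : -1 < s) (hs1 : s ≤ 1) (hX : X ^ 2 = 2 + 2 * s) (hX0 : 0 < X) :
    3 / 512 * ((2 * X ^ 2 * (64 + 7 / 12 * (2 * X ^ 2 *
          (8 - 2 * X ^ 2) - (8 - 2 * X ^ 2) ^ 2 / 2))
          - 1 / 3 * X ^ 2 * (4 - X ^ 2) ^ 2) * (256 * π ^ 8 * cS * Dd X)) =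
      π ^ 8 * cS * Kf s := by
  have hv : 0 ≤ (1 - s) / 2 := by linarith
  have h1 : 1 - X ^ 2 / 4 = (1 - s) / 2 := by rw [hX]; ring
  have hpow : ((1 - s) / 2) ^ (5 / 2 : ℝ) = ((1 - s) / 2) ^ 2 * Real.sqrt ((1 - s) / 2) := by
    have h2 : (5 / 2 : ℝ) = (2 : ℝ) + 1 / 2 := by norm_num
    rw [h2, Real.rpow_add_of_nonneg hv (by norm_num) (by norm_num), ← Real.sqrt_eq_rpow]
    norm_num
  have hD : Dd X = ((1 - s) / 2) ^ 2 * Real.sqrt ((1 - s) / 2) / X := by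
    unfold Dd
    rw [h1, max_eq_right hv, hpow]
  have hsq : Real.sqrt (1 - s ^ 2) = X * Real.sqrt ((1 - s) / 2) := by
    have h3 : 1 - s ^ 2 = X ^ 2 * ((1 - s) / 2) := by rw [hX]; ring
    rw [h3, Real.sqrt_mul (sq_nonneg X), Real.sqrt_sq hX0.le]
  unfold Kf
  rw [hD, hsq]
  generalize Real.sqrt ((1 - s) / 2) = r
  have hX4 : X ^ 2 = 2 + 2 * s := hX
  have hs' : s = X ^ 2 / 2 - 1 := by linarith
  have hXne : X ≠ 0 := hX0.ne'
  rw [hs']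
  field_simp
  ring

end Pool.Sph
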