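import Pool.Agent.Helper458.Sph.Defs
import Pool.Agent.Helper458.Sph.P_Dd_facts
import Pool.Agent.Helper458.Sph.P_Dd_int
import Pool.Agent.Helper458.Sph.P_Gk_cont
import Pool.Agent.Helper458.Sph.P_Gk_int
import Pool.Agent.Helper458.Sph.P_conv_gauss

set_option autoImplicit false

open MeasureTheory Filter Topology Set Metric
open scoped Real ENNReal

namespace Pool.Sph



theorem Mc_lim (x : E8) (hx : x ≠ 0) :
    Tendsto (fun c : ℝ => Mc c x) atTop (𝓝 (256 * π ^ 8 * cS * Dd ‖x‖)) := by
  have hpi : (256 * π ^ 8 : ℝ) ≠ 0 := by positivity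
  have hrew : ∀ c : ℝ, Mc c x = 256 * π ^ 8 * cS * ∫ y : E8,
      (c ^ (Module.finrank ℝ E8) * (Gk 1 (c • y) / (256 * π ^ 8))) • Dd ‖y - x‖ := by
    intro c
    have h1 : Mc c x = cS * ∫ z : E8, Gk c (x + z) * Dd ‖z‖ := by
      have := conv_gauss c (fun _ => 1) continuous_const x
      simp only [one_mul] at this
      exact this
    have h2 : ∫ z : E8, Gk c (x + z) * Dd ‖z‖ = ∫ y : E8, Gk c y * Dd ‖y - x‖ := by
      have := integral_add_left_eq_self (μ := (volume : Measure E8))
        (fun y : E8 => Gk c y * Dd ‖y - x‖) x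
      rw [← this]
      congr 1
      ext z
      simp
    rw [h1, h2]
    have h3 : ∀ y : E8, Gk c y * Dd ‖y - x‖ = (256 * π ^ 8) *
        ((c ^ (Module.finrank ℝ E8) * (Gk 1 (c • y) / (256 * π ^ 8))) • Dd ‖y - x‖) := by
      intro y
      have hfr : Module.finrank ℝ E8 = 8 := by simp [E8]
      rw [hfr, smul_eq_mul]
      have : Gk 1 (c • y) * c ^ 8 = Gk c y := by
        unfold Gk
        rw [norm_smul, mul_pow, Real.norm_eq_abs, sq_abs]
        ring_nf
      rw [← this]
      field_simp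
    simp_rw [h3]
    rw [integral_const_mul]
    ring
  simp_rw [hrew]
  have hg : Integrable (fun y : E8 => Dd ‖y - x‖) := by
    have := Dd_int.comp_sub_right x
    exact this
  have hcont : ContinuousAt (fun y : E8 => Dd ‖y - x‖) 0 := by
    have hD : ContinuousOn Dd (Ioi 0) := Dd_facts.2.2.2.2.1
    have hx0 : ‖(0 : E8) - x‖ ∈ Ioi (0 : ℝ) := by
      simp [hx]
    have h1 : ContinuousAt Dd ‖(0 : E8) - x‖ := hD.continuousAt (isOpen_Ioi.mem_nhds hx0)
    have h2 : ContinuousAt (fun y : E8 => ‖y - x‖) 0 := by fun_prop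
    exact ContinuousAt.comp (f := fun y : E8 => ‖y - x‖) (g := Dd) h1 h2
  have hphi0 : ∀ y : E8, 0 ≤ Gk 1 y / (256 * π ^ 8) := fun y =>
    div_nonneg ((Gk_cont 1).2.1 y) (by positivity)
  have hphi1 : ∫ y : E8, Gk 1 y / (256 * π ^ 8) = 1 := by
    have := (Gk_int 1 one_pos 0).2
    simp only [zero_add] at this
    rw [integral_div, this, div_self hpi]
  have hphi2 : Tendsto (fun y : E8 => ‖y‖ ^ (Module.finrank ℝ E8) * (Gk 1 y / (256 * π ^ 8)))
      (Bornology.cobounded E8) (𝓝 0) := by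
    have hfr : Module.finrank ℝ E8 = 8 := by simp [E8]
    rw [hfr]
    have h1 : Tendsto (fun t : ℝ => t ^ 4 * Real.exp (-t)) atTop (𝓝 0) :=
      Real.tendsto_pow_mul_exp_neg_atTop_nhds_zero 4
    have h2 : Tendsto (fun y : E8 => ‖y‖ ^ 2) (Bornology.cobounded E8) atTop :=
      (tendsto_pow_atTop (by norm_num)).comp tendsto_norm_cobounded_atTop
    have h3 := (h1.comp h2).const_mul ((256 * π ^ 4) / (256 * π ^ 8))
    rw [mul_zero] at h3
    refine h3.congr (fun y => ?_)
    simp only [Function.comp]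
    unfold Gk
    simp only [one_pow, mul_one, one_mul]
    ring
  have key := tendsto_integral_comp_smul_smul_of_integrable (μ := (volume : Measure E8))
    hphi0 hphi1 hphi2 hg hcont
  have key2 := key.const_mul (256 * π ^ 8 * cS)
  simp only [zero_sub, norm_neg] at key2
  exact key2

end Pool.Sph
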