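import Pool.Agent.Helper458.Sph.Defs
import Pool.Agent.Helper458.Sph.P_U_unit

set_option autoImplicit false

open MeasureTheory Filter Topology Set Metric
open scoped Real ENNReal

namespace Pool.Sph



theorem Pw_exact (a b c d : E8) (ha : ‖a‖ = 1) (hb : ‖b‖ = 1) (hc : ‖c‖ = 1) (hd : ‖d‖ = 1) :
    Pw a b c d = (‖a + b‖ ^ 2 + ‖c + d‖ ^ 2) * ((8 + ‖(a + b) + (c + d)‖ ^ 2) ^ 2 + 7 / 12 *
      ((‖a + b‖ ^ 2 + ‖c + d‖ ^ 2) *
        (8 + ‖(a + b) + (c + d)‖ ^ 2 - (‖a + b‖ ^ 2 + ‖c + d‖ ^ 2))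
        - ((8 + ‖(a + b) + (c + d)‖ ^ 2 - (‖a + b‖ ^ 2 + ‖c + d‖ ^ 2)) ^ 2
          + 4 * (inner ℝ (a - b) (c - d)) ^ 2) / 2)) := by
  have hU := (U_unit a b c d ha hb hc hd).1
  have hyz : T2 a c b d - T2 a d b c = 2 * inner ℝ (a - b) (c - d) := by
    unfold T2
    rw [norm_add_sq_real, norm_add_sq_real, norm_add_sq_real, norm_add_sq_real, ha, hb, hc, hd,
      inner_sub_left, inner_sub_right, inner_sub_right]
    ring
  have hx : T2 a b c d = ‖a + b‖ ^ 2 + ‖c + d‖ ^ 2 := rfl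
  unfold Pw
  rw [← hx, ← hU]
  have h4 : 4 * (inner ℝ (a - b) (c - d)) ^ 2 = (T2 a c b d - T2 a d b c) ^ 2 := by
    rw [hyz]
    ring
  rw [h4]
  ring

end Pool.Sph
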