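import Pool.Agent.Helper458.Sph.Defs
import Pool.Agent.Helper458.Sph.P_U_unit
import Pool.Agent.Helper458.Sph.P_Pw_exact

set_option autoImplicit false

open MeasureTheory Filter Topology Set Metric
open scoped Real ENNReal

namespace Pool.Sph



theorem pwa_core (T X Y P y : ℝ) (hT0 : 0 ≤ T) (hT : T ≤ 8) (hX0 : 0 ≤ X) (hX : X ≤ 4)
    (hY0 : 0 ≤ Y) (hY : Y ≤ 4 * y) (hY16 : Y ≤ 16) (hP0 : 0 ≤ P) (hP : P ≤ 16) (hy : 0 ≤ y)
    (h : |T - 2 * X| ≤ 4 * y) :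
    |T * ((8 + Y) ^ 2 + 7 / 12 * (T * (8 + Y - T) - ((8 + Y - T) ^ 2 + 4 * P) / 2)) -
      (2 * X * (64 + 7 / 12 * (2 * X * (8 - 2 * X) - (8 - 2 * X) ^ 2 / 2)) - 7 / 3 * X * P)| ≤
      100000 * y := by
  obtain ⟨v, hv⟩ : ∃ v, v = 8 - 2 * X := ⟨_, rfl⟩
  obtain ⟨u, hu⟩ : ∃ u, u = 8 + Y - T := ⟨_, rfl⟩
  obtain ⟨e, he⟩ : ∃ e, e = T - 2 * X := ⟨_, rfl⟩
  have hv0 : 0 ≤ v := by linarith
  have hv8 : v ≤ 8 := by linarith
  have hu0 : 0 ≤ u := by linarith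
  have hu24 : u ≤ 24 := by linarith
  have h1 : T ^ 2 ≤ 64 := by nlinarith
  have h1' : 0 ≤ T ^ 2 := sq_nonneg T
  have h2 : v * (T + 2 * X) ≤ 8 * 16 :=
    mul_le_mul hv8 (by linarith) (by linarith) (by norm_num)
  have h2' : 0 ≤ v * (T + 2 * X) := mul_nonneg hv0 (by linarith)
  have h3 : T * (u + v) ≤ 8 * 32 := mul_le_mul hT (by linarith) (by linarith) (by norm_num)
  have h3' : 0 ≤ T * (u + v) := mul_nonneg hT0 (by linarith)
  have h4 : v ^ 2 ≤ 64 := by nlinarith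
  have h4' : 0 ≤ v ^ 2 := sq_nonneg v
  have h5 : T * (16 + Y) ≤ 8 * 32 := mul_le_mul hT (by linarith) (by linarith) (by norm_num)
  have h5' : 0 ≤ T * (16 + Y) := mul_nonneg hT0 (by linarith)
  obtain ⟨c1, hc1⟩ : ∃ c1, c1 = 64 + 7 / 12 * (-T ^ 2 + v * (T + 2 * X))
    - 7 / 24 * (-(T * (u + v)) + v ^ 2) - 7 / 6 * P := ⟨_, rfl⟩
  obtain ⟨c2, hc2⟩ : ∃ c2, c2 = T * (16 + Y) + 7 / 12 * T ^ 2 - 7 / 24 * (T * (u + v)) :=
    ⟨_, rfl⟩
  have hc1b : |c1| ≤ 1000 := by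
    rw [abs_le]; constructor <;> linarith
  have hc2b : |c2| ≤ 1000 := by
    rw [abs_le]; constructor <;> linarith
  have hexp : T * ((8 + Y) ^ 2 + 7 / 12 * (T * (8 + Y - T) - ((8 + Y - T) ^ 2 + 4 * P) / 2)) -
      (2 * X * (64 + 7 / 12 * (2 * X * (8 - 2 * X) - (8 - 2 * X) ^ 2 / 2)) - 7 / 3 * X * P) =
      c1 * e + c2 * Y := by
    rw [hc1, hc2, hu, hv, he]
    ring
  rw [hexp]
  have h6 : |c1 * e| ≤ 1000 * (4 * y) := by
    rw [abs_mul]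
    rw [← he] at h
    exact mul_le_mul hc1b h (abs_nonneg _) (by norm_num)
  have h7 : |c2 * Y| ≤ 1000 * (4 * y) := by
    rw [abs_mul, abs_of_nonneg hY0]
    exact mul_le_mul hc2b hY hY0 (by norm_num)
  have h8 := abs_add_le (c1 * e) (c2 * Y)
  linarith

theorem Pw_approx (a b c d : E8) (ha : ‖a‖ = 1) (hb : ‖b‖ = 1) (hc : ‖c‖ = 1) (hd : ‖d‖ = 1) :
    |Pw a b c d - (2 * ‖a + b‖ ^ 2 * (64 + 7 / 12 * (2 * ‖a + b‖ ^ 2 * (8 - 2 * ‖a + b‖ ^ 2)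
        - (8 - 2 * ‖a + b‖ ^ 2) ^ 2 / 2))
        - 7 / 3 * ‖a + b‖ ^ 2 * (inner ℝ (a - b) (c - d)) ^ 2)| ≤
      100000 * ‖(a + b) + (c + d)‖ := by
  obtain ⟨-, hy4⟩ := U_unit a b c d ha hb hc hd
  rw [Pw_exact a b c d ha hb hc hd]
  have hab : ‖a + b‖ ≤ 2 := by
    have := norm_add_le a b
    rw [ha, hb] at this
    linarith
  have hcd : ‖c + d‖ ≤ 2 := by
    have := norm_add_le c d
    rw [hc, hd] at this
    linarith
  have hab' : ‖a - b‖ ≤ 2 := by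
    have := norm_sub_le a b
    rw [ha, hb] at this
    linarith
  have hcd' : ‖c - d‖ ≤ 2 := by
    have := norm_sub_le c d
    rw [hc, hd] at this
    linarith
  have n1 := norm_nonneg (a + b)
  have n2 := norm_nonneg (c + d)
  have n3 := norm_nonneg ((a + b) + (c + d))
  have n4 := norm_nonneg (a - b)
  have n5 := norm_nonneg (c - d)
  apply pwa_core
  · positivity
  · nlinarith
  · positivity
  · nlinarith
  · positivity
  · nlinarith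
  · nlinarith
  · positivity
  · have h1 := abs_real_inner_le_norm (a - b) (c - d)
    have h2 : ‖a - b‖ * ‖c - d‖ ≤ 2 * 2 := mul_le_mul hab' hcd' n5 (by norm_num)
    have h3 : |(inner ℝ (a - b) (c - d) : ℝ)| ≤ 4 := by linarith
    have h4 := abs_le.mp h3
    nlinarith [h4.1, h4.2]
  · exact n3
  · have h1 : ‖a + b‖ ^ 2 + ‖c + d‖ ^ 2 - 2 * ‖a + b‖ ^ 2 =
        (‖c + d‖ - ‖a + b‖) * (‖c + d‖ + ‖a + b‖) := by ring
    rw [h1, abs_mul, abs_of_nonneg (by linarith : 0 ≤ ‖c + d‖ + ‖a + b‖)]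
    have h2 : |‖c + d‖ - ‖a + b‖| ≤ ‖(a + b) + (c + d)‖ := by
      have := abs_norm_sub_norm_le (c + d) (-(a + b))
      rw [norm_neg, sub_neg_eq_add, add_comm (c + d)] at this
      exact this
    have h3 := mul_le_mul h2 (by linarith : ‖c + d‖ + ‖a + b‖ ≤ 4) (by linarith) n3
    linarith

end Pool.Sph
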