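import Pool.Agent.Helper458.Sph.Defs
import Pool.Agent.Helper458.Sph.P_Gk_cont
import Pool.Agent.Helper458.Sph.P_Gk_one_le

set_option autoImplicit false

open MeasureTheory Filter Topology Set Metric
open scoped Real ENNReal

namespace Pool.Sph



theorem err_one (c : ℝ) (hc : 0 < c) (x : E8) :
    ∫ q : S7 × S7, ‖x + ((q.1 : E8) + (q.2 : E8))‖ *
        Gk c (x + ((q.1 : E8) + (q.2 : E8))) ∂mu2 ≤ 16 / c * Mc (c / Real.sqrt 2) x := by
  have hcontarg : Continuous (fun q : S7 × S7 => x + ((q.1 : E8) + (q.2 : E8))) := by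
    fun_prop
  have hint : ∀ f : S7 × S7 → ℝ, Continuous f → Integrable f mu2 := by
    intro f hf
    have hcomp : CompactSpace (S7 × S7) := inferInstance
    obtain ⟨C, hC⟩ := (isCompact_univ (X := S7 × S7)).exists_bound_of_continuousOn
      (f := f) hf.continuousOn
    refine Integrable.mono' (integrable_const C) hf.aestronglyMeasurable ?_
    exact Filter.Eventually.of_forall (fun q => hC q (mem_univ q))
  have h1 : Continuous (fun q : S7 × S7 => ‖x + ((q.1 : E8) + (q.2 : E8))‖ *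
        Gk c (x + ((q.1 : E8) + (q.2 : E8)))) :=
    (hcontarg.norm).mul ((Gk_cont c).1.comp hcontarg)
  have h2 : Continuous (fun q : S7 × S7 => 16 / c *
        Gk (c / Real.sqrt 2) (x + ((q.1 : E8) + (q.2 : E8)))) :=
    continuous_const.mul ((Gk_cont (c / Real.sqrt 2)).1.comp hcontarg)
  calc ∫ q : S7 × S7, ‖x + ((q.1 : E8) + (q.2 : E8))‖ *
        Gk c (x + ((q.1 : E8) + (q.2 : E8))) ∂mu2
      ≤ ∫ q : S7 × S7, 16 / c *
        Gk (c / Real.sqrt 2) (x + ((q.1 : E8) + (q.2 : E8))) ∂mu2 :=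
        integral_mono (hint _ h1) (hint _ h2) (fun q => Gk_one_le c hc _)
    _ = 16 / c * Mc (c / Real.sqrt 2) x := by
        rw [integral_const_mul]; rfl

end Pool.Sph
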