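import Pool.Agent.Helper458.Sph.Defs
import Pool.Agent.Helper458.Sph.P_Gk_cont
import Pool.Agent.Helper458.Sph.P_Mc_lim
import Pool.Agent.Helper458.Sph.P_err_one

set_option autoImplicit false

open MeasureTheory Filter Topology Set Metric
open scoped Real ENNReal

namespace Pool.Sph



theorem err_lim (x : E8) (hx : x ≠ 0) :
    Tendsto (fun c : ℝ => ∫ q : S7 × S7, ‖x + ((q.1 : E8) + (q.2 : E8))‖ *
        Gk c (x + ((q.1 : E8) + (q.2 : E8))) ∂mu2) atTop (𝓝 0) := by
  have h1 : Tendsto (fun c : ℝ => c / Real.sqrt 2) atTop atTop :=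
    tendsto_id.atTop_div_const (by positivity)
  have h2 := (Mc_lim x hx).comp h1
  have h3 : Tendsto (fun c : ℝ => 16 / c) atTop (𝓝 0) := tendsto_const_nhds.div_atTop tendsto_id
  have h4 : Tendsto (fun c : ℝ => 16 / c * Mc (c / Real.sqrt 2) x) atTop (𝓝 0) := by
    have h5 := h3.mul h2
    rw [zero_mul] at h5
    exact h5
  refine tendsto_of_tendsto_of_tendsto_of_le_of_le' tendsto_const_nhds h4 ?_ ?_
  · exact Eventually.of_forall fun c => integral_nonneg fun q =>
      mul_nonneg (norm_nonneg _) ((Gk_cont c).2.1 _)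
  · filter_upwards [eventually_gt_atTop 0] with c hc
    exact err_one c hc x

end Pool.Sph
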