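import Pool.Agent.Helper458.Sph.Defs

set_option autoImplicit false

open MeasureTheory Filter Topology Set Metric
open scoped Real ENNReal

namespace Pool.Sph



theorem exists_act_fix (x e e' : E8) (h : inner ℝ x e = 0) (h' : inner ℝ x e' = 0)
    (hn : ‖e‖ = ‖e'‖) : ∃ A : E8 ≃ₗᵢ[ℝ] E8, A x = x ∧ A e = e' := by
  refine ⟨(ℝ ∙ (e - e'))ᗮ.reflection, ?_, Submodule.reflection_sub hn⟩
  apply Submodule.reflection_mem_subspace_eq_self
  rw [Submodule.mem_orthogonal_singleton_iff_inner_left, inner_sub_right, h, h', sub_zero]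

end Pool.Sph
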