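import Pool.Agent.Helper458.Sph.Defs
import Pool.Agent.Helper458.Sph.P_act_mp
import Pool.Agent.Helper458.Sph.P_exists_act_fix
import Pool.Agent.Helper458.Sph.P_Gk_cont

set_option autoImplicit false

open MeasureTheory Filter Topology Set Metric
open scoped Real ENNReal

namespace Pool.Sph



theorem refl_eq (c : ℝ) (x e e' : E8) (h : inner ℝ x e = 0) (h' : inner ℝ x e' = 0)
    (hn : ‖e‖ = ‖e'‖) :
    ∫ q : S7 × S7, (inner ℝ e ((q.1 : E8) - (q.2 : E8))) ^ 2 *
        Gk c (x + ((q.1 : E8) + (q.2 : E8))) ∂mu2 =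
      ∫ q : S7 × S7, (inner ℝ e' ((q.1 : E8) - (q.2 : E8))) ^ 2 *
        Gk c (x + ((q.1 : E8) + (q.2 : E8))) ∂mu2 := by
  obtain ⟨A, hAx, hAe⟩ := exists_act_fix x e e' h h' hn
  have hT : MeasurePreserving (Prod.map (act A) (act A)) mu2 mu2 := (act_mp A).prod (act_mp A)
  have hGc := (Gk_cont c).1
  have hcont : Continuous (fun q : S7 × S7 => (inner ℝ e' ((q.1 : E8) - (q.2 : E8))) ^ 2 *
        Gk c (x + ((q.1 : E8) + (q.2 : E8)))) := by
    apply Continuous.mul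
    · fun_prop
    · exact hGc.comp (by fun_prop)
  have h1 : ∫ q : S7 × S7, (inner ℝ e' ((q.1 : E8) - (q.2 : E8))) ^ 2 *
        Gk c (x + ((q.1 : E8) + (q.2 : E8))) ∂mu2
      = ∫ q : S7 × S7, (inner ℝ e' (((act A q.1 : S7) : E8) - ((act A q.2 : S7) : E8))) ^ 2 *
        Gk c (x + (((act A q.1 : S7) : E8) + ((act A q.2 : S7) : E8))) ∂mu2 := by
    have h2 := integral_map (μ := mu2) hT.measurable.aemeasurable
      (hcont.aestronglyMeasurable (μ := Measure.map (Prod.map (act A) (act A)) mu2))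
    rw [hT.map_eq] at h2
    exact h2
  rw [h1]
  congr 1
  funext q
  have e1 : ((act A q.1 : S7) : E8) = A (q.1 : E8) := rfl
  have e2 : ((act A q.2 : S7) : E8) = A (q.2 : E8) := rfl
  rw [e1, e2, ← map_sub, ← map_add, ← hAe, A.inner_map_map]
  conv_rhs => rw [← hAx, ← map_add, (Gk_cont c).2.2.2.1 A]

end Pool.Sph
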