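import Pool.Agent.Helper458.Sph.Defs
import Pool.Agent.Helper458.Sph.P_Gk_cont
import Pool.Agent.Helper458.Sph.P_refl_eq

set_option autoImplicit false

open MeasureTheory Filter Topology Set Metric
open scoped Real ENNReal

namespace Pool.Sph



theorem refl_avg (c : ℝ) (x e : E8) (h : inner ℝ x e = 0) (hx : x ≠ 0) :
    ∫ q : S7 × S7, (inner ℝ e ((q.1 : E8) - (q.2 : E8))) ^ 2 *
        Gk c (x + ((q.1 : E8) + (q.2 : E8))) ∂mu2 =
      ‖e‖ ^ 2 / 7 * ∫ q : S7 × S7, (‖(q.1 : E8) - (q.2 : E8)‖ ^ 2 -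
        (inner ℝ x ((q.1 : E8) - (q.2 : E8))) ^ 2 / ‖x‖ ^ 2) *
        Gk c (x + ((q.1 : E8) + (q.2 : E8))) ∂mu2 := by
  have hxn : ‖x‖ ≠ 0 := norm_ne_zero_iff.2 hx
  have hfr : Module.finrank ℝ E8 = Fintype.card (Fin 8) := by simp
  have hv : Orthonormal ℝ (({0} : Set (Fin 8)).domRestrict (fun _ => (‖x‖⁻¹ : ℝ) • x)) := by
    constructor
    · intro i
      show ‖(‖x‖⁻¹ : ℝ) • x‖ = 1
      rw [norm_smul, norm_inv, norm_norm, inv_mul_cancel₀ hxn]
    · intro i j hij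
      exact absurd (Subtype.ext (i.2.trans j.2.symm)) hij
  obtain ⟨b, hb⟩ := hv.exists_orthonormalBasis_extension_of_card_eq hfr
  have hb0 : b 0 = (‖x‖⁻¹ : ℝ) • x := hb 0 rfl
  have hxb : x = ‖x‖ • b 0 := by
    rw [hb0, smul_smul, mul_inv_cancel₀ hxn, one_smul]
  have hxi : ∀ i : Fin 7, inner ℝ x (b i.succ) = 0 := by
    intro i
    rw [hxb, real_inner_smul_left, b.orthonormal.inner_eq_zero (Fin.succ_ne_zero i).symm, mul_zero]
  have hpar : ∀ w : E8, ∑ i : Fin 7, (inner ℝ (b i.succ) w) ^ 2 = ‖w‖ ^ 2 - (inner ℝ x w) ^ 2 / ‖x‖ ^ 2 := by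
    intro w
    have h1 := b.sum_sq_norm_inner_right w
    simp only [Real.norm_eq_abs, sq_abs] at h1
    rw [Fin.sum_univ_succ, hb0, real_inner_smul_left] at h1
    rw [← h1]
    field_simp
    ring
  have hint : ∀ i : Fin 7, Integrable (fun q : S7 × S7 => (inner ℝ (b i.succ) ((q.1 : E8) - (q.2 : E8))) ^ 2 *
        Gk c (x + ((q.1 : E8) + (q.2 : E8)))) mu2 := by
    intro i
    have h1 : Continuous (fun q : S7 × S7 => (q.1 : E8)) := continuous_subtype_val.comp continuous_fst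
    have h2 : Continuous (fun q : S7 × S7 => (q.2 : E8)) := continuous_subtype_val.comp continuous_snd
    have hc : Continuous (fun q : S7 × S7 => (inner ℝ (b i.succ) ((q.1 : E8) - (q.2 : E8))) ^ 2 *
        Gk c (x + ((q.1 : E8) + (q.2 : E8)))) :=
      ((continuous_const.inner (h1.sub h2)).pow 2).mul ((Gk_cont c).1.comp (continuous_const.add (h1.add h2)))
    exact hc.integrable_of_hasCompactSupport (HasCompactSupport.of_compactSpace _)
  have hone : ∀ i : Fin 7, ∫ q : S7 × S7, (inner ℝ e ((q.1 : E8) - (q.2 : E8))) ^ 2 *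
        Gk c (x + ((q.1 : E8) + (q.2 : E8))) ∂mu2 = ‖e‖ ^ 2 * ∫ q : S7 × S7, (inner ℝ (b i.succ) ((q.1 : E8) - (q.2 : E8))) ^ 2 *
        Gk c (x + ((q.1 : E8) + (q.2 : E8))) ∂mu2 := by
    intro i
    rw [refl_eq c x e (‖e‖ • b i.succ) h (by rw [real_inner_smul_right, hxi, mul_zero])
      (by rw [norm_smul, norm_norm, b.norm_eq_one, mul_one]), ← integral_const_mul]
    refine integral_congr_ae (Filter.Eventually.of_forall fun q => ?_)
    simp only [real_inner_smul_left]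
    ring
  have hsum : (7 : ℝ) * ∫ q : S7 × S7, (inner ℝ e ((q.1 : E8) - (q.2 : E8))) ^ 2 *
        Gk c (x + ((q.1 : E8) + (q.2 : E8))) ∂mu2 = ‖e‖ ^ 2 * ∫ q : S7 × S7, (‖(q.1 : E8) - (q.2 : E8)‖ ^ 2 -
        (inner ℝ x ((q.1 : E8) - (q.2 : E8))) ^ 2 / ‖x‖ ^ 2) *
        Gk c (x + ((q.1 : E8) + (q.2 : E8))) ∂mu2 := by
    have h2 : ∑ _i : Fin 7, ∫ q : S7 × S7, (inner ℝ e ((q.1 : E8) - (q.2 : E8))) ^ 2 *
        Gk c (x + ((q.1 : E8) + (q.2 : E8))) ∂mu2 = ∑ i : Fin 7, ‖e‖ ^ 2 * ∫ q : S7 × S7, (inner ℝ (b i.succ) ((q.1 : E8) - (q.2 : E8))) ^ 2 *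
        Gk c (x + ((q.1 : E8) + (q.2 : E8))) ∂mu2 := Finset.sum_congr rfl fun i _ => hone i
    rw [← Finset.mul_sum, ← integral_finsetSum _ (fun i _ => hint i)] at h2
    rw [Finset.sum_const, Finset.card_univ, Fintype.card_fin, nsmul_eq_mul] at h2
    rw [show (7 : ℝ) = ((7 : ℕ) : ℝ) by norm_num, h2]
    congr 1
    refine integral_congr_ae (Filter.Eventually.of_forall fun q => ?_)
    simp only
    rw [← Finset.sum_mul, hpar]
  linarith

end Pool.Sph
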