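import Pool.Agent.Helper458.Sph.Defs
import Pool.Agent.Helper458.Sph.P_Gk_cont
import Pool.Agent.Helper458.Sph.P_Mc_lim
import Pool.Agent.Helper458.Sph.P_refl_avg
import Pool.Agent.Helper458.Sph.P_err_lim

set_option autoImplicit false

open MeasureTheory Filter Topology Set Metric
open scoped Real ENNReal

namespace Pool.Sph



theorem second_lim_aux1 (p q : S7) : inner ℝ ((p : E8) + (q : E8)) ((p : E8) - (q : E8)) = 0 := by
  have hp : ‖(p : E8)‖ = 1 := norm_eq_of_mem_sphere p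
  have hq : ‖(q : E8)‖ = 1 := norm_eq_of_mem_sphere q
  rw [inner_add_left, inner_sub_right, inner_sub_right, real_inner_self_eq_norm_sq,
    real_inner_self_eq_norm_sq, hp, hq, real_inner_comm (p : E8) (q : E8)]
  ring

theorem second_lim_aux2 (p q : S7) : ‖(p : E8) - (q : E8)‖ ^ 2 = 4 - ‖(p : E8) + (q : E8)‖ ^ 2 := by
  have hp : ‖(p : E8)‖ = 1 := norm_eq_of_mem_sphere p
  have hq : ‖(q : E8)‖ = 1 := norm_eq_of_mem_sphere q
  rw [norm_sub_sq_real, norm_add_sq_real, hp, hq]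
  ring

theorem second_lim_aux3 (p q : S7) : ‖(p : E8) + (q : E8)‖ ≤ 2 := by
  have hp : ‖(p : E8)‖ = 1 := norm_eq_of_mem_sphere p
  have hq : ‖(q : E8)‖ = 1 := norm_eq_of_mem_sphere q
  calc ‖(p : E8) + (q : E8)‖ ≤ ‖(p : E8)‖ + ‖(q : E8)‖ := norm_add_le _ _
    _ = 2 := by rw [hp, hq]; norm_num

theorem second_lim_aux4 (p q : S7) : ‖(p : E8) - (q : E8)‖ ≤ 2 := by
  have hp : ‖(p : E8)‖ = 1 := norm_eq_of_mem_sphere p
  have hq : ‖(q : E8)‖ = 1 := norm_eq_of_mem_sphere q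
  calc ‖(p : E8) - (q : E8)‖ ≤ ‖(p : E8)‖ + ‖(q : E8)‖ := norm_sub_le _ _
    _ = 2 := by rw [hp, hq]; norm_num

/-- pointwise estimate -/
theorem second_lim_aux5 (x : E8) (hx : x ≠ 0) (hx2 : ‖x‖ ≤ 2) (p q : S7) :
    |(‖(p : E8) - (q : E8)‖ ^ 2 - (inner ℝ x ((p : E8) - (q : E8))) ^ 2 / ‖x‖ ^ 2)
      - (4 - ‖x‖ ^ 2)| ≤ (4 + 16 / ‖x‖ ^ 2) * ‖x + ((p : E8) + (q : E8))‖ := by
  have hz2 := second_lim_aux3 p q
  have he2 := second_lim_aux4 p q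
  have hxpos : 0 < ‖x‖ := norm_pos_iff.2 hx
  set z : E8 := (p : E8) + (q : E8) with hz
  set e : E8 := (p : E8) - (q : E8) with he
  have hze : inner ℝ z e = 0 := second_lim_aux1 p q
  have hee : ‖e‖ ^ 2 = 4 - ‖z‖ ^ 2 := second_lim_aux2 p q
  have hy0 : 0 ≤ ‖x + z‖ := norm_nonneg _
  have hy4 : ‖x + z‖ ≤ 4 := (norm_add_le _ _).trans (by linarith)
  have h1 : |‖x‖ - ‖z‖| ≤ ‖x + z‖ := by
    have := abs_norm_sub_norm_le x (-z)
    rwa [norm_neg, sub_neg_eq_add] at this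
  have h2 : |‖x‖ ^ 2 - ‖z‖ ^ 2| ≤ 4 * ‖x + z‖ := by
    have : ‖x‖ ^ 2 - ‖z‖ ^ 2 = (‖x‖ - ‖z‖) * (‖x‖ + ‖z‖) := by ring
    rw [this, abs_mul, abs_of_nonneg (by positivity : 0 ≤ ‖x‖ + ‖z‖)]
    calc |‖x‖ - ‖z‖| * (‖x‖ + ‖z‖) ≤ ‖x + z‖ * 4 :=
          mul_le_mul h1 (by linarith) (by positivity) hy0
      _ = 4 * ‖x + z‖ := by ring
  have h3 : inner ℝ x e = inner ℝ (x + z) e := by rw [inner_add_left, hze, add_zero]
  have h4 : |inner ℝ x e| ≤ ‖x + z‖ * 2 := by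
    rw [h3]
    calc |inner ℝ (x + z) e| ≤ ‖x + z‖ * ‖e‖ := abs_real_inner_le_norm _ _
      _ ≤ ‖x + z‖ * 2 := mul_le_mul_of_nonneg_left he2 hy0
  have h5 : (inner ℝ x e) ^ 2 ≤ 16 * ‖x + z‖ := by
    have h6 : (inner ℝ x e) ^ 2 ≤ (‖x + z‖ * 2) ^ 2 := by
      rw [← sq_abs (inner ℝ x e)]
      exact pow_le_pow_left₀ (abs_nonneg _) h4 2
    nlinarith
  have h7 : (inner ℝ x e) ^ 2 / ‖x‖ ^ 2 ≤ 16 / ‖x‖ ^ 2 * ‖x + z‖ := by
    rw [div_le_iff₀ (by positivity)]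
    have : 16 / ‖x‖ ^ 2 * ‖x + z‖ * ‖x‖ ^ 2 = 16 * ‖x + z‖ := by field_simp
    rw [this]
    exact h5
  have h8 : 0 ≤ (inner ℝ x e) ^ 2 / ‖x‖ ^ 2 := by positivity
  have h9 : (‖e‖ ^ 2 - (inner ℝ x e) ^ 2 / ‖x‖ ^ 2) - (4 - ‖x‖ ^ 2) =
      (‖x‖ ^ 2 - ‖z‖ ^ 2) - (inner ℝ x e) ^ 2 / ‖x‖ ^ 2 := by rw [hee]; ring
  rw [h9]
  calc |(‖x‖ ^ 2 - ‖z‖ ^ 2) - (inner ℝ x e) ^ 2 / ‖x‖ ^ 2|
      ≤ |‖x‖ ^ 2 - ‖z‖ ^ 2| + |(inner ℝ x e) ^ 2 / ‖x‖ ^ 2| := abs_sub _ _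
    _ ≤ 4 * ‖x + z‖ + 16 / ‖x‖ ^ 2 * ‖x + z‖ := by
        rw [abs_of_nonneg h8]
        exact add_le_add h2 h7
    _ = (4 + 16 / ‖x‖ ^ 2) * ‖x + z‖ := by ring

theorem second_lim_aux6 (g : S7 × S7 → ℝ) (hg : Continuous g) : Integrable g mu2 :=
  hg.integrable_of_hasCompactSupport (HasCompactSupport.of_compactSpace g)

theorem second_lim (a b : S7) (hx : (a : E8) + (b : E8) ≠ 0) :
    Tendsto (fun c : ℝ => ∫ q : S7 × S7, (inner ℝ ((a : E8) - (b : E8))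
        ((q.1 : E8) - (q.2 : E8))) ^ 2 *
        Gk c (((a : E8) + (b : E8)) + ((q.1 : E8) + (q.2 : E8))) ∂mu2) atTop
      (𝓝 ((4 - ‖(a : E8) + (b : E8)‖ ^ 2) ^ 2 / 7 *
        (256 * π ^ 8 * cS * Dd ‖(a : E8) + (b : E8)‖))) := by
  have hee := second_lim_aux2 a b
  have hxe := second_lim_aux1 a b
  have hx2 := second_lim_aux3 a b
  set x : E8 := (a : E8) + (b : E8) with hxdef
  set e : E8 := (a : E8) - (b : E8) with hedef
  have hxpos : 0 < ‖x‖ := norm_pos_iff.2 hx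
  have hG : ∀ c : ℝ, Continuous (fun q : S7 × S7 => Gk c (x + ((q.1 : E8) + (q.2 : E8)))) :=
    fun c => (Gk_cont c).1.comp (by fun_prop)
  have hG0 : ∀ (c : ℝ) (y : E8), 0 ≤ Gk c y := fun c => (Gk_cont c).2.1
  set K : ℝ := 4 + 16 / ‖x‖ ^ 2 with hK
  set W : S7 × S7 → ℝ := fun q => ‖(q.1 : E8) - (q.2 : E8)‖ ^ 2 -
        (inner ℝ x ((q.1 : E8) - (q.2 : E8))) ^ 2 / ‖x‖ ^ 2 with hW
  have hWc : Continuous W := by
    rw [hW]
    refine Continuous.sub (by fun_prop) ?_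
    refine Continuous.div_const ?_ _
    exact (Continuous.inner continuous_const (by fun_prop)).pow 2
  -- the remainder
  have hrem : ∀ c : ℝ, |(∫ q : S7 × S7, W q * Gk c (x + ((q.1 : E8) + (q.2 : E8))) ∂mu2) -
      (4 - ‖x‖ ^ 2) * Mc c x| ≤ K * ∫ q : S7 × S7, ‖x + ((q.1 : E8) + (q.2 : E8))‖ *
        Gk c (x + ((q.1 : E8) + (q.2 : E8))) ∂mu2 := by
    intro c
    have e1 : (4 - ‖x‖ ^ 2) * Mc c x =
        ∫ q : S7 × S7, (4 - ‖x‖ ^ 2) * Gk c (x + ((q.1 : E8) + (q.2 : E8))) ∂mu2 := by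
      unfold Mc
      rw [integral_const_mul]
    have i1 : Integrable (fun q : S7 × S7 => W q * Gk c (x + ((q.1 : E8) + (q.2 : E8)))) mu2 :=
      second_lim_aux6 _ (hWc.mul (hG c))
    have i2 : Integrable (fun q : S7 × S7 => (4 - ‖x‖ ^ 2) *
        Gk c (x + ((q.1 : E8) + (q.2 : E8)))) mu2 :=
      second_lim_aux6 _ (continuous_const.mul (hG c))
    rw [e1, ← integral_sub i1 i2, ← integral_const_mul]
    refine (abs_integral_le_integral_abs).trans ?_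
    refine integral_mono ?_ ?_ ?_
    · exact (second_lim_aux6 _ (((hWc.mul (hG c)).sub (continuous_const.mul (hG c))).abs))
    · refine second_lim_aux6 _ ?_
      exact continuous_const.mul ((by fun_prop :
        Continuous fun q : S7 × S7 => ‖x + ((q.1 : E8) + (q.2 : E8))‖).mul (hG c))
    · intro q
      have h5 := second_lim_aux5 x hx hx2 q.1 q.2
      have hg := hG0 c (x + ((q.1 : E8) + (q.2 : E8)))
      show |W q * Gk c (x + ((q.1 : E8) + (q.2 : E8))) -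
        (4 - ‖x‖ ^ 2) * Gk c (x + ((q.1 : E8) + (q.2 : E8)))| ≤
        K * (‖x + ((q.1 : E8) + (q.2 : E8))‖ * Gk c (x + ((q.1 : E8) + (q.2 : E8))))
      rw [← sub_mul, abs_mul, abs_of_nonneg hg, ← mul_assoc]
      exact mul_le_mul_of_nonneg_right h5 hg
  have hlim1 : Tendsto (fun c : ℝ => (∫ q : S7 × S7, W q *
      Gk c (x + ((q.1 : E8) + (q.2 : E8))) ∂mu2) - (4 - ‖x‖ ^ 2) * Mc c x) atTop (𝓝 0) := by
    refine squeeze_zero_norm hrem ?_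
    have := (err_lim x hx).const_mul K
    rwa [mul_zero] at this
  have hlim2 : Tendsto (fun c : ℝ => ∫ q : S7 × S7, W q *
      Gk c (x + ((q.1 : E8) + (q.2 : E8))) ∂mu2) atTop
      (𝓝 ((4 - ‖x‖ ^ 2) * (256 * π ^ 8 * cS * Dd ‖x‖))) := by
    have h1 := hlim1.add ((Mc_lim x hx).const_mul (4 - ‖x‖ ^ 2))
    rw [zero_add] at h1
    refine h1.congr ?_
    intro c
    ring
  have hlim3 := hlim2.const_mul (‖e‖ ^ 2 / 7)
  have e2 : ‖e‖ ^ 2 / 7 * ((4 - ‖x‖ ^ 2) * (256 * π ^ 8 * cS * Dd ‖x‖)) =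
      (4 - ‖x‖ ^ 2) ^ 2 / 7 * (256 * π ^ 8 * cS * Dd ‖x‖) := by
    rw [hee]; ring
  rw [e2] at hlim3
  refine hlim3.congr ?_
  intro c
  exact (refl_avg c x e hxe hx).symm

end Pool.Sph
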