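import Pool.Agent.Helper458.Sph.Defs
import Pool.Agent.Helper458.Sph.P_Gk_cont
import Pool.Agent.Helper458.Sph.P_Mc_lim
import Pool.Agent.Helper458.Sph.P_Pw_approx
import Pool.Agent.Helper458.Sph.P_err_lim
import Pool.Agent.Helper458.Sph.P_second_lim

set_option autoImplicit false

open MeasureTheory Filter Topology Set Metric
open scoped Real ENNReal

namespace Pool.Sph



theorem Pw_lim (a b : S7) (hx : (a : E8) + (b : E8) ≠ 0) :
    Tendsto (fun c : ℝ => ∫ q : S7 × S7, Pw (a : E8) (b : E8) (q.1 : E8) (q.2 : E8) *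
        Gk c (((a : E8) + (b : E8)) + ((q.1 : E8) + (q.2 : E8))) ∂mu2) atTop
      (𝓝 ((2 * ‖(a : E8) + (b : E8)‖ ^ 2 * (64 + 7 / 12 * (2 * ‖(a : E8) + (b : E8)‖ ^ 2 *
          (8 - 2 * ‖(a : E8) + (b : E8)‖ ^ 2) - (8 - 2 * ‖(a : E8) + (b : E8)‖ ^ 2) ^ 2 / 2))
          - 1 / 3 * ‖(a : E8) + (b : E8)‖ ^ 2 * (4 - ‖(a : E8) + (b : E8)‖ ^ 2) ^ 2) *
        (256 * π ^ 8 * cS * Dd ‖(a : E8) + (b : E8)‖))) := by
  set x : E8 := (a : E8) + (b : E8) with hxdef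
  have ha : ‖(a : E8)‖ = 1 := norm_eq_of_mem_sphere a
  have hb : ‖(b : E8)‖ = 1 := norm_eq_of_mem_sphere b
  have hGc : ∀ c : ℝ, Continuous (fun q : S7 × S7 => Gk c (x + ((q.1 : E8) + (q.2 : E8)))) := by
    intro c
    exact (Gk_cont c).1.comp (by fun_prop)
  have hint : ∀ g : S7 × S7 → ℝ, Continuous g → Integrable g mu2 := fun g hg =>
    hg.integrable_of_hasCompactSupport (HasCompactSupport.of_compactSpace _)
  set P0 : ℝ := 2 * ‖x‖ ^ 2 * (64 + 7 / 12 * (2 * ‖x‖ ^ 2 * (8 - 2 * ‖x‖ ^ 2)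
        - (8 - 2 * ‖x‖ ^ 2) ^ 2 / 2)) with hP0
  have hPc : Continuous (fun q : S7 × S7 => Pw (a : E8) (b : E8) (q.1 : E8) (q.2 : E8)) := by
    unfold Pw T2
    fun_prop
  have hSc : Continuous (fun q : S7 × S7 => (inner ℝ ((a : E8) - (b : E8))
        ((q.1 : E8) - (q.2 : E8))) ^ 2) := by fun_prop
  have hNc : Continuous (fun q : S7 × S7 => ‖x + ((q.1 : E8) + (q.2 : E8))‖) := by fun_prop
  have h1 := Mc_lim x hx
  have h2 := second_lim a b hx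
  rw [← hxdef] at h2
  have h3 := err_lim x hx
  have h4 : Tendsto (fun c : ℝ => P0 * Mc c x - 7 / 3 * ‖x‖ ^ 2 *
      ∫ q : S7 × S7, (inner ℝ ((a : E8) - (b : E8)) ((q.1 : E8) - (q.2 : E8))) ^ 2 *
        Gk c (x + ((q.1 : E8) + (q.2 : E8))) ∂mu2) atTop
      (𝓝 (P0 * (256 * π ^ 8 * cS * Dd ‖x‖) - 7 / 3 * ‖x‖ ^ 2 * ((4 - ‖x‖ ^ 2) ^ 2 / 7 *
        (256 * π ^ 8 * cS * Dd ‖x‖)))) := (h1.const_mul P0).sub (h2.const_mul _)
  have h5 : ∀ c : ℝ, ‖(∫ q : S7 × S7, Pw (a : E8) (b : E8) (q.1 : E8) (q.2 : E8) *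
        Gk c (x + ((q.1 : E8) + (q.2 : E8))) ∂mu2) - (P0 * Mc c x - 7 / 3 * ‖x‖ ^ 2 *
      ∫ q : S7 × S7, (inner ℝ ((a : E8) - (b : E8)) ((q.1 : E8) - (q.2 : E8))) ^ 2 *
        Gk c (x + ((q.1 : E8) + (q.2 : E8))) ∂mu2)‖ ≤
      100000 * ∫ q : S7 × S7, ‖x + ((q.1 : E8) + (q.2 : E8))‖ *
        Gk c (x + ((q.1 : E8) + (q.2 : E8))) ∂mu2 := by
    intro c
    have e1 : (∫ q : S7 × S7, Pw (a : E8) (b : E8) (q.1 : E8) (q.2 : E8) *
        Gk c (x + ((q.1 : E8) + (q.2 : E8))) ∂mu2) - (P0 * Mc c x - 7 / 3 * ‖x‖ ^ 2 *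
      ∫ q : S7 × S7, (inner ℝ ((a : E8) - (b : E8)) ((q.1 : E8) - (q.2 : E8))) ^ 2 *
        Gk c (x + ((q.1 : E8) + (q.2 : E8))) ∂mu2) =
        ∫ q : S7 × S7, (Pw (a : E8) (b : E8) (q.1 : E8) (q.2 : E8) - (P0 - 7 / 3 * ‖x‖ ^ 2 *
          (inner ℝ ((a : E8) - (b : E8)) ((q.1 : E8) - (q.2 : E8))) ^ 2)) *
        Gk c (x + ((q.1 : E8) + (q.2 : E8))) ∂mu2 := by
      unfold Mc
      rw [← integral_const_mul, ← integral_const_mul, ← integral_sub, ← integral_sub]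
      · refine integral_congr_ae (Eventually.of_forall fun q => ?_)
        simp only
        ring
      · exact hint _ (hPc.mul (hGc c))
      · exact (hint _ (continuous_const.mul (hGc c))).sub
          (hint _ (continuous_const.mul (hSc.mul (hGc c))))
      · exact hint _ (continuous_const.mul (hGc c))
      · exact hint _ (continuous_const.mul (hSc.mul (hGc c)))
    rw [e1, ← integral_const_mul]
    refine norm_integral_le_of_norm_le (hint _ (continuous_const.mul (hNc.mul (hGc c))))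
      (Eventually.of_forall fun q => ?_)
    have h6 := Pw_approx (a : E8) (b : E8) (q.1 : E8) (q.2 : E8) ha hb
      (norm_eq_of_mem_sphere q.1) (norm_eq_of_mem_sphere q.2)
    have h7 : 0 ≤ Gk c (x + ((q.1 : E8) + (q.2 : E8))) := (Gk_cont c).2.1 _
    rw [norm_mul, Real.norm_eq_abs, Real.norm_eq_abs, abs_of_nonneg h7, ← mul_assoc]
    exact mul_le_mul_of_nonneg_right h6 h7
  have h8 : Tendsto (fun c : ℝ => 100000 * ∫ q : S7 × S7, ‖x + ((q.1 : E8) + (q.2 : E8))‖ *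
        Gk c (x + ((q.1 : E8) + (q.2 : E8))) ∂mu2) atTop (𝓝 0) := by
    simpa using h3.const_mul (100000 : ℝ)
  have h9 := squeeze_zero_norm h5 h8
  have h10 := h9.add h4
  refine (h10.congr (fun c => by ring)).congr' (Eventually.of_forall fun c => rfl) |>.trans ?_
  rw [hP0]
  apply le_of_eq
  congr 1
  ring

end Pool.Sph
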