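import Pool.Agent.Helper458.Sph.Defs
import Pool.Agent.Helper458.Sph.P_Pw_lim
import Pool.Agent.Helper458.Sph.P_K_algebra
import Pool.Agent.Helper458.Sph.P_ip_facts

set_option autoImplicit false

open MeasureTheory Filter Topology Set Metric
open scoped Real ENNReal

namespace Pool.Sph



theorem Kc_lim (p : S7 × S7) (hp : (p.1 : E8) + (p.2 : E8) ≠ 0) :
    Tendsto (fun c : ℝ => Kc c p) atTop (𝓝 (π ^ 8 * cS * Kf (ip p))) := by
  have h1 := (Pw_lim p.1 p.2 hp).const_mul (3 / 512 : ℝ)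
  have ha : ‖(p.1 : E8)‖ = 1 := norm_eq_of_mem_sphere p.1
  have hb : ‖(p.2 : E8)‖ = 1 := norm_eq_of_mem_sphere p.2
  have hX0 : 0 < ‖(p.1 : E8) + (p.2 : E8)‖ := norm_pos_iff.mpr hp
  have hX : ‖(p.1 : E8) + (p.2 : E8)‖ ^ 2 = 2 + 2 * ip p := by
    rw [norm_add_sq_real, ha, hb]
    unfold ip
    ring
  have hs : -1 < ip p := by
    have : 0 < ‖(p.1 : E8) + (p.2 : E8)‖ ^ 2 := by positivity
    linarith
  have hs1 : ip p ≤ 1 := (abs_le.mp (ip_facts.2 p)).2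
  have h2 := K_algebra (ip p) ‖(p.1 : E8) + (p.2 : E8)‖ hs hs1 hX hX0
  rw [← h2]
  exact h1

end Pool.Sph
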