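import Pool.Agent.Helper458.Sph.Defs

set_option autoImplicit false

open MeasureTheory Filter Topology Set Metric
open scoped Real ENNReal

namespace Pool.Sph



open Pointwise in
theorem sig_atom (ω : S7) : sig {ω} = 0 := by
  unfold sig
  rw [Measure.toSphere_apply' _ (measurableSet_singleton ω)]
  have hne : Submodule.span ℝ {(ω : E8)} ≠ ⊤ := by
    intro h
    have h1 := finrank_span_le_card (R := ℝ) ({(ω : E8)} : Set E8)
    rw [h, finrank_top] at h1
    simp at h1
  have h0 : (volume : Measure E8) (Submodule.span ℝ {(ω : E8)} : Submodule ℝ E8) = 0 :=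
    Measure.addHaar_submodule volume _ hne
  have h2 : Ioo (0 : ℝ) 1 • ((fun x : S7 => (x : E8)) '' {ω}) ⊆
      ((Submodule.span ℝ {(ω : E8)} : Submodule ℝ E8) : Set E8) := by
    rintro x ⟨r, _, y, ⟨z, hz, rfl⟩, rfl⟩
    rw [Set.mem_singleton_iff] at hz
    subst hz
    exact Submodule.smul_mem _ r (Submodule.mem_span_singleton_self _)
  have h3 := measure_mono_null h2 h0
  rw [h3, mul_zero]

end Pool.Sph
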