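import Pool.Agent.Helper458.Sph.Defs
import Pool.Agent.Helper458.Sph.P_sig_atom

set_option autoImplicit false

open MeasureTheory Filter Topology Set Metric
open scoped Real ENNReal

namespace Pool.Sph



theorem anti_null : ∀ᵐ p : S7 × S7 ∂mu2, (p.1 : E8) + (p.2 : E8) ≠ 0 := by
  rw [ae_iff]
  have h1 : {p : S7 × S7 | ¬ ((p.1 : E8) + (p.2 : E8) ≠ 0)}
      = {p : S7 × S7 | (p.1 : E8) + (p.2 : E8) = 0} := by
    ext p
    simp
  rw [h1]
  have hc : IsClosed {p : S7 × S7 | (p.1 : E8) + (p.2 : E8) = 0} := by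
    apply isClosed_eq _ continuous_const
    exact (continuous_subtype_val.comp continuous_fst).add
      (continuous_subtype_val.comp continuous_snd)
  unfold mu2
  rw [Measure.measure_prod_null hc.measurableSet]
  refine Filter.Eventually.of_forall fun x => ?_
  have h2 : Prod.mk x ⁻¹' {p : S7 × S7 | (p.1 : E8) + (p.2 : E8) = 0} ⊆ {-x} := by
    intro y hy
    have hy' : (x : E8) + (y : E8) = 0 := hy
    rw [mem_singleton_iff]
    apply Subtype.ext
    change (y : E8) = -(x : E8)
    exact (neg_eq_of_add_eq_zero_right hy').symm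
  exact measure_mono_null h2 (sig_atom (-x))

end Pool.Sph
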