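import Pool.Agent.Helper458.Sph.Defs
import Pool.Agent.Helper458.Sph.P_Kc_lim
import Pool.Agent.Helper458.Sph.P_Kc_bound
import Pool.Agent.Helper458.Sph.P_Kc_cont
import Pool.Agent.Helper458.Sph.P_anti_null
import Pool.Agent.Helper458.Sph.P_prod_int
import Pool.Agent.Helper458.Sph.P_ip_facts
import Pool.Agent.Helper458.Sph.P_Kf_facts

set_option autoImplicit false

open MeasureTheory Filter Topology Set Metric
open scoped Real ENNReal

namespace Pool.Sph



theorem lim_gg (g : S7 → ℝ) (hg : Integrable g sig) :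
    Tendsto (fun c : ℝ => ∫ p : S7 × S7, g p.1 * g p.2 * Kc c p ∂mu2) atTop
      (𝓝 (π ^ 8 * cS * ∫ p : S7 × S7, g p.1 * g p.2 * Kf (ip p) ∂mu2)) := by
  obtain ⟨C, hC⟩ := Kc_bound
  have hlim : π ^ 8 * cS * ∫ p : S7 × S7, g p.1 * g p.2 * Kf (ip p) ∂mu2 =
      ∫ p : S7 × S7, g p.1 * g p.2 * (π ^ 8 * cS * Kf (ip p)) ∂mu2 := by
    rw [← integral_const_mul]
    refine integral_congr_ae (Filter.Eventually.of_forall fun p => ?_)
    change π ^ 8 * cS * (g p.1 * g p.2 * Kf (ip p)) = g p.1 * g p.2 * (π ^ 8 * cS * Kf (ip p))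
    ring
  rw [hlim]
  have hb : Integrable (fun p : S7 × S7 => g p.1 * g p.2 * |C|) mu2 :=
    prod_int g hg (fun _ => |C|) measurable_const |C| (fun _ => by rw [abs_abs])
  refine tendsto_integral_filter_of_dominated_convergence
    (fun p : S7 × S7 => ‖g p.1 * g p.2 * |C|‖) ?_ ?_ hb.norm ?_
  · filter_upwards [eventually_ge_atTop 1] with c hc
    exact (prod_int g hg (Kc c) (Kc_cont c).measurable C (hC c hc)).aestronglyMeasurable
  · filter_upwards [eventually_ge_atTop 1] with c hc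
    refine Filter.Eventually.of_forall fun p => ?_
    rw [norm_mul, norm_mul _ |C|]
    refine mul_le_mul_of_nonneg_left ?_ (norm_nonneg _)
    rw [Real.norm_eq_abs, Real.norm_eq_abs, abs_abs]
    exact (hC c hc p).trans (le_abs_self C)
  · filter_upwards [anti_null] with p hp
    exact (Kc_lim p hp).const_mul (g p.1 * g p.2)

end Pool.Sph
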