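import Pool.Agent.Helper458.Sph.Defs

set_option autoImplicit false

open MeasureTheory Filter Topology Set Metric
open scoped Real ENNReal

namespace Pool.Sph



theorem Pw_sum (a b c d : E8) :
    Pw a b c d + Pw a c b d + Pw a d c b = (T2 a b c d + T2 a c b d + T2 a d b c) ^ 3 := by
  have h1 : ‖c + b‖ = ‖b + c‖ := by rw [add_comm]
  have h2 : ‖d + b‖ = ‖b + d‖ := by rw [add_comm]
  have h3 : ‖d + c‖ = ‖c + d‖ := by rw [add_comm]
  unfold Pw T2
  simp only [h1, h2, h3]
  ring

end Pool.Sph
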