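import Pool.Agent.Helper458.Sph.Defs
import Pool.Agent.Helper458.Sph.P_U_unit

set_option autoImplicit false

open MeasureTheory Filter Topology Set Metric
open scoped Real ENNReal

namespace Pool.Sph



theorem U3_le (a b c d : E8) (ha : ‖a‖ = 1) (hb : ‖b‖ = 1) (hc : ‖c‖ = 1) (hd : ‖d‖ = 1) :
    512 ≤ (T2 a b c d + T2 a c b d + T2 a d b c) ^ 3 ∧
    (T2 a b c d + T2 a c b d + T2 a d b c) ^ 3 ≤ 512 + 832 * ‖(a + b) + (c + d)‖ ^ 2 := by
  obtain ⟨h1, h2⟩ := U_unit a b c d ha hb hc hd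
  rw [h1]
  have h0 : 0 ≤ ‖(a + b) + (c + d)‖ := norm_nonneg _
  set Y := ‖(a + b) + (c + d)‖ ^ 2 with hY
  have hY0 : 0 ≤ Y := by positivity
  have hY1 : Y ≤ 16 := by rw [hY]; nlinarith
  constructor
  · nlinarith [mul_nonneg hY0 hY0, mul_nonneg (mul_nonneg hY0 hY0) hY0]
  · have e : (8 + Y) ^ 3 = 512 + 832 * Y - Y * (16 - Y) * (Y + 40) := by ring
    rw [e]
    have : 0 ≤ Y * (16 - Y) * (Y + 40) := by
      apply mul_nonneg (mul_nonneg hY0 (by linarith)) (by linarith)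
    linarith

end Pool.Sph
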