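import Pool.Agent.Helper458.Sph.Defs

set_option autoImplicit false

open MeasureTheory Filter Topology Set Metric
open scoped Real ENNReal

namespace Pool.Sph



theorem int4r (f₁ f₂ f₃ f₄ : S7 → ℝ) (h₁ : Integrable f₁ sig) (h₂ : Integrable f₂ sig)
    (h₃ : Integrable f₃ sig) (h₄ : Integrable f₄ sig)
    (k : (S7 × S7) × (S7 × S7) → ℝ) (hk : Continuous k) :
    Integrable (fun p : (S7 × S7) × (S7 × S7) =>
      f₁ p.1.1 * f₂ p.1.2 * f₃ p.2.1 * f₄ p.2.2 * k p) mu4 := by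
  have h12 : Integrable (fun z : S7 × S7 => f₁ z.1 * f₂ z.2) mu2 := h₁.mul_prod h₂
  have h34 : Integrable (fun z : S7 × S7 => f₃ z.1 * f₄ z.2) mu2 := h₃.mul_prod h₄
  have h : Integrable (fun p : (S7 × S7) × (S7 × S7) =>
      (f₁ p.1.1 * f₂ p.1.2) * (f₃ p.2.1 * f₄ p.2.2)) mu4 := h12.mul_prod h34
  obtain ⟨C, hC⟩ := isCompact_univ.exists_bound_of_continuousOn hk.continuousOn
  have h2 := h.mul_bdd (c := C) hk.aestronglyMeasurable
    (Filter.Eventually.of_forall fun p => hC p (Set.mem_univ p))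
  refine h2.congr (Filter.Eventually.of_forall fun p => ?_)
  show (f₁ p.1.1 * f₂ p.1.2) * (f₃ p.2.1 * f₄ p.2.2) * k p
    = f₁ p.1.1 * f₂ p.1.2 * f₃ p.2.1 * f₄ p.2.2 * k p
  ring

end Pool.Sph
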