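import Pool.Agent.Helper458.Sph.Defs

set_option autoImplicit false

open MeasureTheory Filter Topology Set Metric
open scoped Real ENNReal

namespace Pool.Sph



theorem swap23_gen {α : Type} [MeasurableSpace α] (μ : Measure α) [SFinite μ] :
    MeasurePreserving (fun p : (α × α) × (α × α) => ((p.1.1, p.2.1), (p.1.2, p.2.2)))
      ((μ.prod μ).prod (μ.prod μ)) ((μ.prod μ).prod (μ.prod μ)) := by
  have h1 := measurePreserving_prodAssoc μ μ (μ.prod μ)
  have h2 := (measurePreserving_prodAssoc μ μ μ).symm
  have h3 := (Measure.measurePreserving_swap (μ := μ) (ν := μ)).prod (MeasurePreserving.id μ)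
  have h4 := measurePreserving_prodAssoc μ μ μ
  have h5 := (MeasurePreserving.id μ).prod (h4.comp (h3.comp h2))
  have h6 := (measurePreserving_prodAssoc μ μ (μ.prod μ)).symm
  exact h6.comp (h5.comp h1)

theorem swap23 : MeasurePreserving
    (fun p : (S7 × S7) × (S7 × S7) => ((p.1.1, p.2.1), (p.1.2, p.2.2))) mu4 mu4 :=
  swap23_gen sig

end Pool.Sph
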