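import Pool.Agent.Helper458.Sph.Defs

set_option autoImplicit false

open MeasureTheory Filter Topology Set Metric
open scoped Real ENNReal

namespace Pool.Sph



theorem swap24_aux {α : Type*} [MeasurableSpace α] (m : Measure α) [IsFiniteMeasure m] :
    MeasurePreserving
    (fun p : (α × α) × (α × α) => ((p.1.1, p.2.2), (p.2.1, p.1.2)))
      ((m.prod m).prod (m.prod m)) ((m.prod m).prod (m.prod m)) := by
  have hA := measurePreserving_prodAssoc m m (m.prod m)
  have hA' := measurePreserving_prodAssoc m m (m.prod m)
  have hsw : MeasurePreserving (Prod.swap : α × (α × α) → (α × α) × α)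
      (m.prod (m.prod m)) ((m.prod m).prod m) := Measure.measurePreserving_swap
  have hsw2 : MeasurePreserving (Prod.map (Prod.swap : α × α → α × α) (id : α → α))
      ((m.prod m).prod m) ((m.prod m).prod m) :=
    (Measure.measurePreserving_swap (μ := m) (ν := m)).prod (MeasurePreserving.id m)
  have hB := measurePreserving_prodAssoc m m m
  have hf := hB.comp (hsw2.comp hsw)
  have hg := (MeasurePreserving.id m).prod hf
  have hfin := (hA'.symm MeasurableEquiv.prodAssoc).comp (hg.comp hA)
  exact hfin

theorem swap24 : MeasurePreserving
    (fun p : (S7 × S7) × (S7 × S7) => ((p.1.1, p.2.2), (p.2.1, p.1.2))) mu4 mu4 := by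
  have h := swap24_aux sig
  exact h

end Pool.Sph
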