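import Pool.Agent.Helper458.Sph.Defs
import Pool.Agent.Helper458.Sph.P_Gk_cont
import Pool.Agent.Helper458.Sph.P_Gk_sq_le
import Pool.Agent.Helper458.Sph.P_Pw_sum
import Pool.Agent.Helper458.Sph.P_U3_le
import Pool.Agent.Helper458.Sph.P_int4r
import Pool.Agent.Helper458.Sph.P_swap23
import Pool.Agent.Helper458.Sph.P_swap24
import Pool.Agent.Helper458.Sph.P_kern_cont

set_option autoImplicit false

open MeasureTheory Filter Topology Set Metric
open scoped Real ENNReal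

namespace Pool.Sph



theorem oi_int (k : (S7 × S7) × (S7 × S7) → ℝ) (hk : Continuous k) : Integrable k mu4 := by
  have h := int4r (fun _ => 1) (fun _ => 1) (fun _ => 1) (fun _ => 1) (integrable_const _)
    (integrable_const _) (integrable_const _) (integrable_const _) k hk
  simpa using h

theorem oi_map (φ : (S7 × S7) × (S7 × S7) → (S7 × S7) × (S7 × S7))
    (hφ : MeasurePreserving φ mu4 mu4) (k : (S7 × S7) × (S7 × S7) → ℝ) (hk : Continuous k) :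
    ∫ p, k (φ p) ∂mu4 = ∫ p, k p ∂mu4 := by
  have h := integral_map (μ := mu4) hφ.measurable.aemeasurable
    (f := k) (hk.aestronglyMeasurable)
  rw [hφ.map_eq] at h
  exact h.symm

theorem one_id (c : ℝ) (hc : 0 < c) :
    ∫ p : S7 × S7, Kc c p ∂mu2 ≤
      (∫ p : (S7 × S7) × (S7 × S7),
        Gk c (((p.1.1 : E8) + (p.1.2 : E8)) + ((p.2.1 : E8) + (p.2.2 : E8))) ∂mu4) +
      26 / c ^ 2 * ∫ p : (S7 × S7) × (S7 × S7), Gk (c / Real.sqrt 2)
        (((p.1.1 : E8) + (p.1.2 : E8)) + ((p.2.1 : E8) + (p.2.2 : E8))) ∂mu4 := by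
  obtain ⟨G, hG⟩ : ∃ G : (S7 × S7) × (S7 × S7) → ℝ, G = fun p =>
    Gk c (((p.1.1 : E8) + (p.1.2 : E8)) + ((p.2.1 : E8) + (p.2.2 : E8))) := ⟨_, rfl⟩
  obtain ⟨G', hG'⟩ : ∃ G' : (S7 × S7) × (S7 × S7) → ℝ, G' = fun p =>
    Gk (c / Real.sqrt 2) (((p.1.1 : E8) + (p.1.2 : E8)) + ((p.2.1 : E8) + (p.2.2 : E8))) :=
    ⟨_, rfl⟩
  obtain ⟨F, hF⟩ : ∃ F : (S7 × S7) × (S7 × S7) → ℝ, F = fun p =>
    Pw (p.1.1 : E8) (p.1.2 : E8) (p.2.1 : E8) (p.2.2 : E8) *
      Gk c (((p.1.1 : E8) + (p.1.2 : E8)) + ((p.2.1 : E8) + (p.2.2 : E8))) := ⟨_, rfl⟩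
  have cG : Continuous G := by rw [hG]; exact (kern_cont c).1
  have cG' : Continuous G' := by rw [hG']; exact (kern_cont (c / Real.sqrt 2)).1
  have cF : Continuous F := by rw [hF]; exact (kern_cont c).2.2
  rw [← hG, ← hG']
  have hK : ∫ p : S7 × S7, Kc c p ∂mu2 = 3 / 512 * ∫ p, F p ∂mu4 := by
    have h1 : ∫ p, F p ∂mu4 = ∫ p, ∫ q, F (p, q) ∂mu2 ∂mu2 := integral_prod F (oi_int F cF)
    rw [h1, ← integral_const_mul]
    congr 1
    funext p
    rw [hF]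
    rfl
  have h23 := oi_map _ swap23 F cF
  have h24 := oi_map _ swap24 F cF
  have c23 : Continuous (fun p : (S7 × S7) × (S7 × S7) =>
      F ((p.1.1, p.2.1), (p.1.2, p.2.2))) := by fun_prop
  have c24 : Continuous (fun p : (S7 × S7) × (S7 × S7) =>
      F ((p.1.1, p.2.2), (p.2.1, p.1.2))) := by fun_prop
  have h3 : 3 * ∫ p, F p ∂mu4 = ∫ p, (F p + F ((p.1.1, p.2.1), (p.1.2, p.2.2)) +
      F ((p.1.1, p.2.2), (p.2.1, p.1.2))) ∂mu4 := by
    have i12 : Integrable (fun p : (S7 × S7) × (S7 × S7) =>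
        F p + F ((p.1.1, p.2.1), (p.1.2, p.2.2))) mu4 := (oi_int F cF).add (oi_int _ c23)
    rw [integral_add i12 (oi_int _ c24), integral_add (oi_int F cF) (oi_int _ c23), h23, h24]
    ring
  have h4 : ∫ p, (F p + F ((p.1.1, p.2.1), (p.1.2, p.2.2)) +
      F ((p.1.1, p.2.2), (p.2.1, p.1.2))) ∂mu4 ≤
      ∫ p, (512 * G p + 832 * (16 / c ^ 2) * G' p) ∂mu4 := by
    apply integral_mono (((oi_int F cF).add (oi_int _ c23)).add (oi_int _ c24))
      (((oi_int G cG).const_mul 512).add ((oi_int G' cG').const_mul _))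
    intro p
    show F p + F ((p.1.1, p.2.1), (p.1.2, p.2.2)) + F ((p.1.1, p.2.2), (p.2.1, p.1.2)) ≤
      512 * G p + 832 * (16 / c ^ 2) * G' p
    obtain ⟨⟨⟨a, ha⟩, ⟨b, hb⟩⟩, ⟨⟨d, hd⟩, ⟨e, he⟩⟩⟩ := p
    have na : ‖a‖ = 1 := mem_sphere_zero_iff_norm.mp ha
    have nb : ‖b‖ = 1 := mem_sphere_zero_iff_norm.mp hb
    have nd : ‖d‖ = 1 := mem_sphere_zero_iff_norm.mp hd
    have ne : ‖e‖ = 1 := mem_sphere_zero_iff_norm.mp he
    rw [hF, hG, hG']
    show Pw a b d e * Gk c ((a + b) + (d + e)) + Pw a d b e * Gk c ((a + d) + (b + e)) +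
      Pw a e d b * Gk c ((a + e) + (d + b)) ≤ 512 * Gk c ((a + b) + (d + e)) +
        832 * (16 / c ^ 2) * Gk (c / Real.sqrt 2) ((a + b) + (d + e))
    have e1 : (a + d) + (b + e) = (a + b) + (d + e) := by abel
    have e2 : (a + e) + (d + b) = (a + b) + (d + e) := by abel
    rw [e1, e2, ← add_mul, ← add_mul, Pw_sum]
    have k1 := (U3_le a b d e na nb nd ne).2
    have k2 := (Gk_cont c).2.1 ((a + b) + (d + e))
    have k3 := Gk_sq_le c hc ((a + b) + (d + e))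
    have k4 := mul_le_mul_of_nonneg_right k1 k2
    nlinarith
  rw [integral_add ((oi_int G cG).const_mul 512) ((oi_int G' cG').const_mul _),
    integral_const_mul, integral_const_mul] at h4
  rw [hK]
  have h5 : 3 / 512 * ∫ p, F p ∂mu4 = 1 / 512 * (3 * ∫ p, F p ∂mu4) := by ring
  rw [h5, h3]
  have h6 : 26 / c ^ 2 * ∫ p, G' p ∂mu4 = 1 / 512 * (832 * (16 / c ^ 2) * ∫ p, G' p ∂mu4) := by
    field_simp
    ring
  rw [h6]
  linarith

end Pool.Sph
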