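import Pool.Agent.Helper458.Sph.Defs
import Pool.Agent.Helper458.Sph.P_one_id
import Pool.Agent.Helper458.Sph.P_lim_gg
import Pool.Agent.Helper458.Sph.P_even_part
import Pool.Agent.Helper458.Sph.P_Jc_one
import Pool.Agent.Helper458.Sph.P_Jc_le_J

set_option autoImplicit false

open MeasureTheory Filter Topology Set Metric
open scoped Real ENNReal

namespace Pool.Sph



theorem J_lower :
    ENNReal.ofReal (π ^ 8 * cS * ∫ p : S7 × S7, Ke (ip p) ∂mu2) ≤ J (fun _ => 1) := by
  by_cases hJ : J (fun _ => 1) = ⊤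
  · rw [hJ]
    exact le_top
  have hint : Integrable (fun _ : S7 => (1 : ℂ)) sig := integrable_const _
  have hint' : Integrable (fun _ : S7 => (1 : ℝ)) sig := integrable_const _
  have hle : ∀ c : ℝ, 0 < c → Jc c (fun _ => 1) ≤ (J (fun _ => 1)).toReal := by
    intro c hc
    have h := (Jc_le_J (fun _ => 1) hint c hc).1
    exact (ENNReal.ofReal_le_iff_le_toReal hJ).1 h
  have hlim := lim_gg (fun _ => 1) hint'
  have hev := even_part (fun _ => 1) hint' (fun _ => rfl)
  simp only [one_mul] at hlim hev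
  rw [hev] at hlim
  have hj0 : 0 ≤ (J (fun _ => 1)).toReal := ENNReal.toReal_nonneg
  have hup : Tendsto (fun c : ℝ => (J (fun _ => 1)).toReal + 26 / c ^ 2 * (J (fun _ => 1)).toReal)
      atTop (𝓝 ((J (fun _ => 1)).toReal + 0 * (J (fun _ => 1)).toReal)) := by
    refine tendsto_const_nhds.add (Tendsto.mul_const _ ?_)
    exact tendsto_const_nhds.div_atTop (tendsto_pow_atTop (by norm_num))
  rw [zero_mul, add_zero] at hup
  have hfin : π ^ 8 * cS * ∫ p : S7 × S7, Ke (ip p) ∂mu2 ≤ (J (fun _ => 1)).toReal := by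
    refine le_of_tendsto_of_tendsto hlim hup ?_
    filter_upwards [eventually_gt_atTop (0 : ℝ)] with c hc
    have h1 := one_id c hc
    rw [← Jc_one c hc, ← Jc_one (c / Real.sqrt 2) (by positivity)] at h1
    have h2 := hle c hc
    have h3 := hle (c / Real.sqrt 2) (by positivity)
    have h4 : 26 / c ^ 2 * Jc (c / Real.sqrt 2) (fun _ => 1) ≤
        26 / c ^ 2 * (J (fun _ => 1)).toReal :=
      mul_le_mul_of_nonneg_left h3 (by positivity)
    linarith
  exact (ENNReal.ofReal_le_iff_le_toReal hJ).2 hfin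

end Pool.Sph
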