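import Pool.Agent.Helper458.Sph.Defs
import Pool.Agent.Helper458.Sph.P_Gk_cont
import Pool.Agent.Helper458.Sph.P_neg24
import Pool.Agent.Helper458.Sph.P_Jc_eq

set_option autoImplicit false

open MeasureTheory Filter Topology Set Metric
open scoped Real ENNReal

namespace Pool.Sph



theorem Jc_abs (f : S7 → ℂ) (hf : Integrable f sig) (c : ℝ) (hc : 0 < c) :
    Jc c f ≤ ∫ p : (S7 × S7) × (S7 × S7), ‖f p.1.1‖ * ‖f (-p.1.2)‖ * ‖f p.2.1‖ * ‖f (-p.2.2)‖ *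
      Gk c (((p.1.1 : E8) + (p.1.2 : E8)) + ((p.2.1 : E8) + (p.2.2 : E8))) ∂mu4 := by
  have hG := (Gk_cont c).2.1
  have h1 : Jc c f ≤ ∫ p : (S7 × S7) × (S7 × S7),
      ‖f p.1.1‖ * ‖f p.1.2‖ * ‖f p.2.1‖ * ‖f p.2.2‖ *
      Gk c (((p.1.1 : E8) - (p.1.2 : E8)) + ((p.2.1 : E8) - (p.2.2 : E8))) ∂mu4 := by
    calc Jc c f ≤ |Jc c f| := le_abs_self _
      _ = ‖((Jc c f : ℝ) : ℂ)‖ := by rw [Complex.norm_real, Real.norm_eq_abs]
      _ ≤ ∫ p : (S7 × S7) × (S7 × S7),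
        ‖f p.1.1 * (starRingEnd ℂ) (f p.1.2) * f p.2.1 * (starRingEnd ℂ) (f p.2.2) *
          ((Gk c (((p.1.1 : E8) - (p.1.2 : E8)) +
            ((p.2.1 : E8) - (p.2.2 : E8))) : ℝ) : ℂ)‖ ∂mu4 := by
        rw [Jc_eq f hf c hc]
        exact norm_integral_le_integral_norm _
      _ = _ := by
        congr 1
        funext p
        rw [norm_mul, norm_mul, norm_mul, norm_mul, RCLike.norm_conj, RCLike.norm_conj,
          Complex.norm_real, Real.norm_eq_abs, abs_of_nonneg (hG _)]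
  let e : ((S7 × S7) × (S7 × S7)) ≃ᵐ ((S7 × S7) × (S7 × S7)) :=
    { toEquiv := ⟨fun p => ((p.1.1, -p.1.2), (p.2.1, -p.2.2)),
        fun p => ((p.1.1, -p.1.2), (p.2.1, -p.2.2)), by intro p; simp, by intro p; simp⟩
      measurable_toFun := neg24.measurable
      measurable_invFun := neg24.measurable }
  have h2 := MeasurePreserving.integral_comp neg24 e.measurableEmbedding
    (fun p : (S7 × S7) × (S7 × S7) => ‖f p.1.1‖ * ‖f p.1.2‖ * ‖f p.2.1‖ * ‖f p.2.2‖ *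
      Gk c (((p.1.1 : E8) - (p.1.2 : E8)) + ((p.2.1 : E8) - (p.2.2 : E8))))
  refine h1.trans (le_of_eq ?_)
  rw [← h2]
  congr 1
  funext p
  simp

end Pool.Sph
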