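import Pool.Agent.Helper458.Sph.Defs
import Pool.Agent.Helper458.Sph.P_neg_mp

set_option autoImplicit false

open MeasureTheory Filter Topology Set Metric
open scoped Real ENNReal

namespace Pool.Sph



theorem Ns_facts (f : S7 → ℂ) (hf : MemLp f 2 sig) :
    Integrable f sig ∧ Integrable (Ns f) sig ∧ Integrable (fun ω => Ns f ω ^ 2) sig ∧
    Integrable (gs f) sig ∧
    (∀ ω, 0 ≤ Ns f ω) ∧ (∀ ω, Ns f ω ^ 2 = gs f ω) ∧ (∀ ω, gs f (-ω) = gs f ω) ∧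
    (∀ a b : S7, ‖f a‖ * ‖f (-b)‖ + ‖f b‖ * ‖f (-a)‖ ≤ 2 * (Ns f a * Ns f b)) ∧
    ∫ ω, gs f ω ∂sig = ∫ ω, ‖f ω‖ ^ 2 ∂sig := by
  have hI : Integrable f sig := hf.integrable one_le_two
  have hI2 : Integrable (fun ω => ‖f ω‖ ^ 2) sig := (memLp_two_iff_integrable_sq_norm hf.1).1 hf
  have hI3 : Integrable (fun ω => ‖f (-ω)‖ ^ 2) sig :=
    (neg_mp.integrable_comp hI2.aestronglyMeasurable).2 hI2
  have hg : Integrable (gs f) sig := (hI2.add hI3).div_const 2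
  have hg0 : ∀ ω, 0 ≤ gs f ω := fun ω => by unfold gs; positivity
  have hN2 : ∀ ω, Ns f ω ^ 2 = gs f ω := fun ω => Real.sq_sqrt (hg0 ω)
  have hN0 : ∀ ω, 0 ≤ Ns f ω := fun ω => Real.sqrt_nonneg _
  refine ⟨hI, ?_, ?_, hg, hN0, hN2, ?_, ?_, ?_⟩
  · refine ((integrable_const (1 : ℝ)).add hg).mono'
      (Real.continuous_sqrt.comp_aestronglyMeasurable hg.aestronglyMeasurable) ?_
    refine Eventually.of_forall fun ω => ?_
    rw [Real.norm_of_nonneg (hN0 ω)]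
    show Ns f ω ≤ 1 + gs f ω
    rw [← hN2 ω]
    nlinarith [sq_nonneg (Ns f ω - 1), hN0 ω]
  · simp only [hN2]
    exact hg
  · intro ω
    unfold gs
    rw [neg_neg, add_comm]
  · intro a b
    have h1 : ‖f a‖ * ‖f (-b)‖ + ‖f b‖ * ‖f (-a)‖ ≤ Real.sqrt (4 * (gs f a * gs f b)) := by
      apply Real.le_sqrt_of_sq_le
      unfold gs
      nlinarith [sq_nonneg (‖f a‖ * ‖f b‖ - ‖f (-a)‖ * ‖f (-b)‖)]
    have h2 : Real.sqrt (4 * (gs f a * gs f b)) = 2 * (Ns f a * Ns f b) := by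
      rw [show (4 : ℝ) = 2 ^ 2 by norm_num, Real.sqrt_mul (by positivity),
        Real.sqrt_sq (by norm_num), Real.sqrt_mul (hg0 a)]
      rfl
    rw [h2] at h1
    exact h1
  · have h1 : ∫ ω, ‖f (-ω)‖ ^ 2 ∂sig = ∫ ω, ‖f ω‖ ^ 2 ∂sig := by
      have h2 := integral_map (μ := sig) (φ := fun ω : S7 => -ω) neg_mp.measurable.aemeasurable
        (f := fun ω => ‖f ω‖ ^ 2) (by rw [neg_mp.map_eq]; exact hI2.aestronglyMeasurable)
      rw [neg_mp.map_eq] at h2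
      exact h2.symm
    unfold gs
    rw [integral_div, integral_add hI2 hI3, h1]
    ring

end Pool.Sph
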