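import Pool.Agent.Helper458.Sph.Defs

set_option autoImplicit false

open MeasureTheory Filter Topology Set Metric
open scoped Real ENNReal

namespace Pool.Sph



theorem swap12 : MeasurePreserving
    (fun p : (S7 × S7) × (S7 × S7) => ((p.1.2, p.1.1), p.2)) mu4 mu4 := by
  have h1 : MeasurePreserving (Prod.swap : S7 × S7 → S7 × S7) mu2 mu2 :=
    Measure.measurePreserving_swap
  have h2 : MeasurePreserving (id : S7 × S7 → S7 × S7) mu2 mu2 := MeasurePreserving.id _
  exact h1.prod h2

end Pool.Sph
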