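import Pool.Agent.Helper458.Sph.Defs

set_option autoImplicit false

open MeasureTheory Filter Topology Set Metric
open scoped Real ENNReal

namespace Pool.Sph



theorem swap34 : MeasurePreserving
    (fun p : (S7 × S7) × (S7 × S7) => (p.1, (p.2.2, p.2.1))) mu4 mu4 := by
  haveI hs : IsFiniteMeasure sig := by unfold sig; infer_instance
  haveI h2 : IsFiniteMeasure mu2 := by unfold mu2; infer_instance
  have h1 : MeasurePreserving (Prod.swap : S7 × S7 → S7 × S7) mu2 mu2 :=
    Measure.measurePreserving_swap
  exact (MeasurePreserving.id mu2).prod h1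

end Pool.Sph
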