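import Pool.Agent.Helper458.Sph.Defs
import Pool.Agent.Helper458.Sph.P_Gk_cont
import Pool.Agent.Helper458.Sph.P_int4r
import Pool.Agent.Helper458.Sph.P_swap12
import Pool.Agent.Helper458.Sph.P_swap34
import Pool.Agent.Helper458.Sph.P_kern_cont
import Pool.Agent.Helper458.Sph.P_Jc_abs
import Pool.Agent.Helper458.Sph.P_Ns_facts

set_option autoImplicit false

open MeasureTheory Filter Topology Set Metric
open scoped Real ENNReal

namespace Pool.Sph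



theorem Jc_sym_negint (f : S7 → ℂ) (hf : MemLp f 2 sig) :
    Integrable (fun ω => ‖f (-ω)‖) sig := by
  obtain ⟨-, -, -, hg, -⟩ := Ns_facts f hf
  have h2 : Integrable (fun ω => ‖f ω‖ ^ 2) sig := hf.integrable_norm_pow (by norm_num)
  have h3 : Integrable (fun ω => ‖f (-ω)‖ ^ 2) sig := by
    have : (fun ω => ‖f (-ω)‖ ^ 2) = fun ω => 2 * gs f ω - ‖f ω‖ ^ 2 := by
      funext ω
      simp only [gs]
      ring
    rw [this]
    exact (hg.const_mul 2).sub h2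
  have h4 : AEStronglyMeasurable (fun ω => ‖f (-ω)‖) sig := by
    have : (fun ω => ‖f (-ω)‖) = fun ω => Real.sqrt (‖f (-ω)‖ ^ 2) := by
      funext ω
      rw [Real.sqrt_sq (norm_nonneg _)]
    rw [this]
    exact Real.continuous_sqrt.comp_aestronglyMeasurable h3.aestronglyMeasurable
  refine Integrable.mono' ((integrable_const (1 : ℝ)).add h3) h4 (Filter.Eventually.of_forall
    fun ω => ?_)
  simp only [Pi.add_apply, norm_norm]
  nlinarith [sq_nonneg (‖f (-ω)‖ - 1), norm_nonneg (f (-ω))]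

theorem Jc_sym_map {φ : (S7 × S7) × (S7 × S7) → (S7 × S7) × (S7 × S7)}
    (hφ : MeasurePreserving φ mu4 mu4) {F : (S7 × S7) × (S7 × S7) → ℝ} (hF : Integrable F mu4) :
    ∫ p, F (φ p) ∂mu4 = ∫ p, F p ∂mu4 := by
  have h := integral_map (μ := mu4) (φ := φ) hφ.aemeasurable (f := F)
    (by rw [hφ.map_eq]; exact hF.aestronglyMeasurable)
  rw [hφ.map_eq] at h
  exact h.symm

theorem Jc_sym_sum (g h : S7 → ℝ) (hg : Integrable g sig) (hh : Integrable h sig)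
    (G : (S7 × S7) × (S7 × S7) → ℝ) (hG : Continuous G)
    (hG12 : ∀ p, G ((p.1.2, p.1.1), p.2) = G p) (hG34 : ∀ p, G (p.1, (p.2.2, p.2.1)) = G p) :
    4 * ∫ p : (S7 × S7) × (S7 × S7), g p.1.1 * h p.1.2 * g p.2.1 * h p.2.2 * G p ∂mu4 =
      ∫ p : (S7 × S7) × (S7 × S7), (g p.1.1 * h p.1.2 + g p.1.2 * h p.1.1) *
        (g p.2.1 * h p.2.2 + g p.2.2 * h p.2.1) * G p ∂mu4 := by
  have i1 := int4r g h g h hg hh hg hh G hG
  have i2 := int4r h g g h hh hg hg hh G hG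
  have i3 := int4r g h h g hg hh hh hg G hG
  have i4 := int4r h g h g hh hg hh hg G hG
  have e2 : ∫ p : (S7 × S7) × (S7 × S7), h p.1.1 * g p.1.2 * g p.2.1 * h p.2.2 * G p ∂mu4 =
      ∫ p : (S7 × S7) × (S7 × S7), g p.1.1 * h p.1.2 * g p.2.1 * h p.2.2 * G p ∂mu4 := by
    rw [← Jc_sym_map swap12 i1]
    refine integral_congr_ae (Filter.Eventually.of_forall fun p => ?_)
    simp only [hG12]
    ring
  have e3 : ∫ p : (S7 × S7) × (S7 × S7), g p.1.1 * h p.1.2 * h p.2.1 * g p.2.2 * G p ∂mu4 =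
      ∫ p : (S7 × S7) × (S7 × S7), g p.1.1 * h p.1.2 * g p.2.1 * h p.2.2 * G p ∂mu4 := by
    rw [← Jc_sym_map swap34 i1]
    refine integral_congr_ae (Filter.Eventually.of_forall fun p => ?_)
    simp only [hG34]
    ring
  have e4 : ∫ p : (S7 × S7) × (S7 × S7), h p.1.1 * g p.1.2 * h p.2.1 * g p.2.2 * G p ∂mu4 =
      ∫ p : (S7 × S7) × (S7 × S7), g p.1.1 * h p.1.2 * g p.2.1 * h p.2.2 * G p ∂mu4 := by
    rw [← e3, ← Jc_sym_map swap12 i3]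
    refine integral_congr_ae (Filter.Eventually.of_forall fun p => ?_)
    simp only [hG12]
    ring
  have e5 : (fun p : (S7 × S7) × (S7 × S7) => (g p.1.1 * h p.1.2 + g p.1.2 * h p.1.1) *
        (g p.2.1 * h p.2.2 + g p.2.2 * h p.2.1) * G p) = fun p =>
      ((g p.1.1 * h p.1.2 * g p.2.1 * h p.2.2 * G p + h p.1.1 * g p.1.2 * g p.2.1 * h p.2.2 * G p) +
      (g p.1.1 * h p.1.2 * h p.2.1 * g p.2.2 * G p + h p.1.1 * g p.1.2 * h p.2.1 * g p.2.2 * G p))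
      := by
    funext p
    ring
  have e6 := integral_add (i1.add i2) (i3.add i4)
  simp only [Pi.add_apply] at e6
  rw [e5, e6, integral_add i1 i2, integral_add i3 i4, e2, e3, e4]
  ring

theorem Jc_sym (f : S7 → ℂ) (hf : MemLp f 2 sig) (c : ℝ) (hc : 0 < c) :
    Jc c f ≤ ∫ p : (S7 × S7) × (S7 × S7), Ns f p.1.1 * Ns f p.1.2 * Ns f p.2.1 * Ns f p.2.2 *
      Gk c (((p.1.1 : E8) + (p.1.2 : E8)) + ((p.2.1 : E8) + (p.2.2 : E8))) ∂mu4 := by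
  obtain ⟨hfi, hNi, -, -, hN0, -, -, hNN, -⟩ := Ns_facts f hf
  have hni := Jc_sym_negint f hf
  have hkc := (kern_cont c).1
  have hG0 := (Gk_cont c).2.1
  refine (Jc_abs f hfi c hc).trans ?_
  have hsum := Jc_sym_sum (fun ω => ‖f ω‖) (fun ω => ‖f (-ω)‖) hfi.norm hni
    (fun p : (S7 × S7) × (S7 × S7) =>
      Gk c (((p.1.1 : E8) + (p.1.2 : E8)) + ((p.2.1 : E8) + (p.2.2 : E8)))) hkc
    (fun p => by simp only [add_comm]) (fun p => by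
      simp only
      rw [add_comm (p.2.2 : E8)])
  have i1 := int4r (fun ω => ‖f ω‖) (fun ω => ‖f (-ω)‖) (fun ω => ‖f ω‖) (fun ω => ‖f (-ω)‖)
    hfi.norm hni hfi.norm hni _ hkc
  have i2 := int4r (fun ω => ‖f (-ω)‖) (fun ω => ‖f ω‖) (fun ω => ‖f ω‖) (fun ω => ‖f (-ω)‖)
    hni hfi.norm hfi.norm hni _ hkc
  have i3 := int4r (fun ω => ‖f ω‖) (fun ω => ‖f (-ω)‖) (fun ω => ‖f (-ω)‖) (fun ω => ‖f ω‖)
    hfi.norm hni hni hfi.norm _ hkc
  have i4 := int4r (fun ω => ‖f (-ω)‖) (fun ω => ‖f ω‖) (fun ω => ‖f (-ω)‖) (fun ω => ‖f ω‖)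
    hni hfi.norm hni hfi.norm _ hkc
  have iN := int4r (Ns f) (Ns f) (Ns f) (Ns f) hNi hNi hNi hNi _ hkc
  have hmono : ∫ p : (S7 × S7) × (S7 × S7), (‖f p.1.1‖ * ‖f (-p.1.2)‖ + ‖f p.1.2‖ * ‖f (-p.1.1)‖) *
        (‖f p.2.1‖ * ‖f (-p.2.2)‖ + ‖f p.2.2‖ * ‖f (-p.2.1)‖) *
        Gk c (((p.1.1 : E8) + (p.1.2 : E8)) + ((p.2.1 : E8) + (p.2.2 : E8))) ∂mu4 ≤
      ∫ p : (S7 × S7) × (S7 × S7), 4 * (Ns f p.1.1 * Ns f p.1.2 * Ns f p.2.1 * Ns f p.2.2 *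
        Gk c (((p.1.1 : E8) + (p.1.2 : E8)) + ((p.2.1 : E8) + (p.2.2 : E8)))) ∂mu4 := by
    refine integral_mono ?_ (iN.const_mul 4) ?_
    · have e5 : (fun p : (S7 × S7) × (S7 × S7) =>
          (‖f p.1.1‖ * ‖f (-p.1.2)‖ + ‖f p.1.2‖ * ‖f (-p.1.1)‖) *
          (‖f p.2.1‖ * ‖f (-p.2.2)‖ + ‖f p.2.2‖ * ‖f (-p.2.1)‖) *
          Gk c (((p.1.1 : E8) + (p.1.2 : E8)) + ((p.2.1 : E8) + (p.2.2 : E8)))) = fun p =>
          ((‖f p.1.1‖ * ‖f (-p.1.2)‖ * ‖f p.2.1‖ * ‖f (-p.2.2)‖ *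
            Gk c (((p.1.1 : E8) + (p.1.2 : E8)) + ((p.2.1 : E8) + (p.2.2 : E8))) +
          ‖f (-p.1.1)‖ * ‖f p.1.2‖ * ‖f p.2.1‖ * ‖f (-p.2.2)‖ *
            Gk c (((p.1.1 : E8) + (p.1.2 : E8)) + ((p.2.1 : E8) + (p.2.2 : E8)))) +
          (‖f p.1.1‖ * ‖f (-p.1.2)‖ * ‖f (-p.2.1)‖ * ‖f p.2.2‖ *
            Gk c (((p.1.1 : E8) + (p.1.2 : E8)) + ((p.2.1 : E8) + (p.2.2 : E8))) +
          ‖f (-p.1.1)‖ * ‖f p.1.2‖ * ‖f (-p.2.1)‖ * ‖f p.2.2‖ *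
            Gk c (((p.1.1 : E8) + (p.1.2 : E8)) + ((p.2.1 : E8) + (p.2.2 : E8))))) := by
        funext p
        ring
      rw [e5]
      exact (i1.add i2).add (i3.add i4)
    · intro p
      have a := hNN p.1.1 p.1.2
      have b := hNN p.2.1 p.2.2
      have b0 : 0 ≤ ‖f p.2.1‖ * ‖f (-p.2.2)‖ + ‖f p.2.2‖ * ‖f (-p.2.1)‖ := by positivity
      have a0 : 0 ≤ 2 * (Ns f p.1.1 * Ns f p.1.2) := by
        have := hN0 p.1.1
        have := hN0 p.1.2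
        positivity
      have hm := mul_le_mul a b b0 a0
      have hm2 := mul_le_mul_of_nonneg_right hm
        (hG0 (((p.1.1 : E8) + (p.1.2 : E8)) + ((p.2.1 : E8) + (p.2.2 : E8))))
      refine hm2.trans (le_of_eq ?_)
      ring
  rw [integral_const_mul] at hmono
  linarith

end Pool.Sph
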