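import Pool.Agent.Helper458.Sph.Defs

set_option autoImplicit false

open MeasureTheory Filter Topology Set Metric
open scoped Real ENNReal

namespace Pool.Sph



theorem Pw_symm (a b c d : E8) : Pw c d a b = Pw a b c d := by
  have h1 : T2 c d a b = T2 a b c d := by
    unfold T2
    rw [add_comm]
  have h2 : T2 c a d b = T2 a c b d := by
    unfold T2
    rw [add_comm c a, add_comm d b]
  have h3 : T2 c b d a = T2 a d b c := by
    unfold T2
    rw [add_comm c b, add_comm d a, add_comm]
  unfold Pw
  rw [h1, h2, h3]

end Pool.Sph
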