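import Pool.Agent.Helper458.Sph.Defs

set_option autoImplicit false

open MeasureTheory Filter Topology Set Metric
open scoped Real ENNReal

namespace Pool.Sph



theorem swapP : MeasurePreserving
    (fun p : (S7 × S7) × (S7 × S7) => (p.2, p.1)) mu4 mu4 := by
  exact Measure.measurePreserving_swap (μ := mu2) (ν := mu2)

end Pool.Sph
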