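import Pool.Agent.Helper458.Sph.Defs
import Pool.Agent.Helper458.Sph.P_Gk_cont
import Pool.Agent.Helper458.Sph.P_Pw_sum
import Pool.Agent.Helper458.Sph.P_Pw_nonneg
import Pool.Agent.Helper458.Sph.P_Pw_symm
import Pool.Agent.Helper458.Sph.P_U3_le
import Pool.Agent.Helper458.Sph.P_int4r
import Pool.Agent.Helper458.Sph.P_swapP
import Pool.Agent.Helper458.Sph.P_swap23
import Pool.Agent.Helper458.Sph.P_swap24
import Pool.Agent.Helper458.Sph.P_kern_cont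

set_option autoImplicit false

open MeasureTheory Filter Topology Set Metric
open scoped Real ENNReal

namespace Pool.Sph



theorem amgm (N : S7 → ℝ) (hN : Integrable N sig) (h0 : ∀ ω, 0 ≤ N ω)
    (h2 : Integrable (fun ω => N ω ^ 2) sig) (c : ℝ) :
    512 * ∫ p : (S7 × S7) × (S7 × S7), N p.1.1 * N p.1.2 * N p.2.1 * N p.2.2 *
      Gk c (((p.1.1 : E8) + (p.1.2 : E8)) + ((p.2.1 : E8) + (p.2.2 : E8))) ∂mu4 ≤
    3 * ∫ p : (S7 × S7) × (S7 × S7), N p.1.1 ^ 2 * N p.1.2 ^ 2 *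
      (Pw (p.1.1 : E8) (p.1.2 : E8) (p.2.1 : E8) (p.2.2 : E8) *
      Gk c (((p.1.1 : E8) + (p.1.2 : E8)) + ((p.2.1 : E8) + (p.2.2 : E8)))) ∂mu4 := by
  classical
  set X := (S7 × S7) × (S7 × S7) with hX
  have comp_int : ∀ (s : X → X), MeasurePreserving s mu4 mu4 → ∀ f : X → ℝ, Integrable f mu4 →
      Integrable (fun p => f (s p)) mu4 ∧ ∫ p, f (s p) ∂mu4 = ∫ p, f p ∂mu4 := by
    intro s hs f hf
    refine ⟨hs.integrable_comp_of_integrable hf, ?_⟩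
    have h := integral_map (μ := mu4) hs.aemeasurable (f := f)
      (by rw [hs.map_eq]; exact hf.aestronglyMeasurable)
    rw [hs.map_eq] at h
    exact h.symm
  obtain ⟨kc1, -, kc3⟩ := kern_cont c
  set G : X → ℝ := fun p => Gk c (((p.1.1 : E8) + (p.1.2 : E8)) + ((p.2.1 : E8) + (p.2.2 : E8))) with hG
  set A : X → ℝ := fun p => N p.1.1 * N p.1.2 * N p.2.1 * N p.2.2 *
    (Pw (p.1.1 : E8) (p.1.2 : E8) (p.2.1 : E8) (p.2.2 : E8) *
      Gk c (((p.1.1 : E8) + (p.1.2 : E8)) + ((p.2.1 : E8) + (p.2.2 : E8)))) with hA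
  set D : X → ℝ := fun p => N p.1.1 ^ 2 * N p.1.2 ^ 2 *
      (Pw (p.1.1 : E8) (p.1.2 : E8) (p.2.1 : E8) (p.2.2 : E8) *
      Gk c (((p.1.1 : E8) + (p.1.2 : E8)) + ((p.2.1 : E8) + (p.2.2 : E8)))) with hD
  have G0 : ∀ p, 0 ≤ G p := fun p => (Gk_cont c).2.1 _
  have iF : Integrable (fun p : X => N p.1.1 * N p.1.2 * N p.2.1 * N p.2.2 * G p) mu4 :=
    int4r N N N N hN hN hN hN G kc1
  have iA : Integrable A mu4 := int4r N N N N hN hN hN hN _ kc3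
  have i1 : Integrable (fun _ : S7 => (1 : ℝ)) sig := integrable_const _
  have iD : Integrable D mu4 := by
    have := int4r (fun ω => N ω ^ 2) (fun ω => N ω ^ 2) (fun _ => 1) (fun _ => 1) h2 h2 i1 i1 _ kc3
    simpa [hD] using this
  obtain ⟨iB, eB⟩ := comp_int _ swap23 A iA
  obtain ⟨iC, eC⟩ := comp_int _ swap24 A iA
  obtain ⟨iE, eE⟩ := comp_int _ swapP D iD
  have iAB : Integrable (fun p : X => A p + A ((p.1.1, p.2.1), (p.1.2, p.2.2))) mu4 := iA.add iB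
  have step1 : 512 * ∫ p : X, N p.1.1 * N p.1.2 * N p.2.1 * N p.2.2 * G p ∂mu4 ≤ 3 * ∫ p, A p ∂mu4 := by
    have e3 : 3 * ∫ p, A p ∂mu4 = ∫ p : X, (A p + A ((p.1.1, p.2.1), (p.1.2, p.2.2))
        + A ((p.1.1, p.2.2), (p.2.1, p.1.2))) ∂mu4 := by
      rw [integral_add (f := fun p : X => A p + A ((p.1.1, p.2.1), (p.1.2, p.2.2))) iAB iC,
        integral_add iA iB, eB, eC]; ring
    rw [e3, ← integral_const_mul]
    refine integral_mono (iF.const_mul _) ((iA.add iB).add iC) ?_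
    intro p
    have na : ∀ ω : S7, ‖(ω : E8)‖ = 1 := fun ω => norm_eq_of_mem_sphere ω
    have hU := (U3_le (p.1.1 : E8) p.1.2 p.2.1 p.2.2 (na _) (na _) (na _) (na _)).1
    have hS := Pw_sum (p.1.1 : E8) p.1.2 p.2.1 p.2.2
    have hP : 0 ≤ N p.1.1 * N p.1.2 * N p.2.1 * N p.2.2 * G p :=
      mul_nonneg (mul_nonneg (mul_nonneg (mul_nonneg (h0 _) (h0 _)) (h0 _)) (h0 _)) (G0 p)
    have e23 : ((p.1.1 : E8) + (p.2.1 : E8)) + ((p.1.2 : E8) + (p.2.2 : E8))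
        = ((p.1.1 : E8) + (p.1.2 : E8)) + ((p.2.1 : E8) + (p.2.2 : E8)) := by abel
    have e24 : ((p.1.1 : E8) + (p.2.2 : E8)) + ((p.2.1 : E8) + (p.1.2 : E8))
        = ((p.1.1 : E8) + (p.1.2 : E8)) + ((p.2.1 : E8) + (p.2.2 : E8)) := by abel
    have key : A p + A ((p.1.1, p.2.1), (p.1.2, p.2.2)) + A ((p.1.1, p.2.2), (p.2.1, p.1.2))
        = (N p.1.1 * N p.1.2 * N p.2.1 * N p.2.2 * G p) *
          (Pw (p.1.1 : E8) p.1.2 p.2.1 p.2.2 + Pw (p.1.1 : E8) p.2.1 p.1.2 p.2.2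
            + Pw (p.1.1 : E8) p.2.2 p.2.1 p.1.2) := by
      simp only [hA, hG, e23, e24]
      ring
    show 512 * (N p.1.1 * N p.1.2 * N p.2.1 * N p.2.2 * G p) ≤
      A p + A ((p.1.1, p.2.1), (p.1.2, p.2.2)) + A ((p.1.1, p.2.2), (p.2.1, p.1.2))
    rw [key, hS]
    nlinarith [mul_le_mul_of_nonneg_left hU hP]
  have step2 : ∫ p, A p ∂mu4 ≤ ∫ p, D p ∂mu4 := by
    have e2 : ∫ p, D p ∂mu4 = ∫ p : X, (1 / 2 * (D p + D (p.2, p.1))) ∂mu4 := by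
      rw [integral_const_mul, integral_add iD iE, eE]; ring
    rw [e2]
    refine integral_mono iA ((iD.add iE).const_mul _) ?_
    intro p
    have ec : ((p.2.1 : E8) + (p.2.2 : E8)) + ((p.1.1 : E8) + (p.1.2 : E8))
        = ((p.1.1 : E8) + (p.1.2 : E8)) + ((p.2.1 : E8) + (p.2.2 : E8)) := by abel
    have hs := Pw_symm (p.1.1 : E8) p.1.2 p.2.1 p.2.2
    have hk : 0 ≤ Pw (p.1.1 : E8) p.1.2 p.2.1 p.2.2 * G p := mul_nonneg (Pw_nonneg _ _ _ _) (G0 p)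
    have key : 1 / 2 * (D p + D (p.2, p.1)) - A p
        = 1 / 2 * (N p.1.1 * N p.1.2 - N p.2.1 * N p.2.2) ^ 2 * (Pw (p.1.1 : E8) p.1.2 p.2.1 p.2.2 * G p) := by
      simp only [hA, hD, hG, ec, hs]
      ring
    show A p ≤ 1 / 2 * (D p + D (p.2, p.1))
    nlinarith [mul_nonneg (sq_nonneg (N p.1.1 * N p.1.2 - N p.2.1 * N p.2.2)) hk]
  calc _ ≤ 3 * ∫ p, A p ∂mu4 := step1
    _ ≤ 3 * ∫ p, D p ∂mu4 := by linarith

end Pool.Sph
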