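import Pool.Agent.Helper458.Sph.Defs
import Pool.Agent.Helper458.Sph.P_int4r
import Pool.Agent.Helper458.Sph.P_kern_cont
import Pool.Agent.Helper458.Sph.P_amgm

set_option autoImplicit false

open MeasureTheory Filter Topology Set Metric
open scoped Real ENNReal

namespace Pool.Sph



theorem amgm2 (N : S7 → ℝ) (hN : Integrable N sig) (h0 : ∀ ω, 0 ≤ N ω)
    (h2 : Integrable (fun ω => N ω ^ 2) sig) (c : ℝ) :
    ∫ p : (S7 × S7) × (S7 × S7), N p.1.1 * N p.1.2 * N p.2.1 * N p.2.2 *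
      Gk c (((p.1.1 : E8) + (p.1.2 : E8)) + ((p.2.1 : E8) + (p.2.2 : E8))) ∂mu4 ≤
    ∫ p : S7 × S7, N p.1 ^ 2 * N p.2 ^ 2 * Kc c p ∂mu2 := by
  have h := amgm N hN h0 h2 c
  have hint : Integrable (fun p : (S7 × S7) × (S7 × S7) => N p.1.1 ^ 2 * N p.1.2 ^ 2 *
      (Pw (p.1.1 : E8) (p.1.2 : E8) (p.2.1 : E8) (p.2.2 : E8) *
      Gk c (((p.1.1 : E8) + (p.1.2 : E8)) + ((p.2.1 : E8) + (p.2.2 : E8))))) mu4 := by
    have h3 := int4r (fun ω => N ω ^ 2) (fun ω => N ω ^ 2) (fun _ => 1) (fun _ => 1) h2 h2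
      (integrable_const 1) (integrable_const 1) _ (kern_cont c).2.2
    simpa only [mul_one] using h3
  have e1 : ∫ p : (S7 × S7) × (S7 × S7), N p.1.1 ^ 2 * N p.1.2 ^ 2 *
      (Pw (p.1.1 : E8) (p.1.2 : E8) (p.2.1 : E8) (p.2.2 : E8) *
      Gk c (((p.1.1 : E8) + (p.1.2 : E8)) + ((p.2.1 : E8) + (p.2.2 : E8)))) ∂mu4 =
      ∫ p : S7 × S7, ∫ q : S7 × S7, N p.1 ^ 2 * N p.2 ^ 2 *
      (Pw (p.1 : E8) (p.2 : E8) (q.1 : E8) (q.2 : E8) *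
      Gk c (((p.1 : E8) + (p.2 : E8)) + ((q.1 : E8) + (q.2 : E8)))) ∂mu2 ∂mu2 := by
    unfold mu4 at hint ⊢
    exact integral_prod _ hint
  have e2 : 512 * ∫ p : S7 × S7, N p.1 ^ 2 * N p.2 ^ 2 * Kc c p ∂mu2 =
      3 * ∫ p : S7 × S7, ∫ q : S7 × S7, N p.1 ^ 2 * N p.2 ^ 2 *
      (Pw (p.1 : E8) (p.2 : E8) (q.1 : E8) (q.2 : E8) *
      Gk c (((p.1 : E8) + (p.2 : E8)) + ((q.1 : E8) + (q.2 : E8)))) ∂mu2 ∂mu2 := by
    rw [← integral_const_mul, ← integral_const_mul]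
    congr 1
    funext p
    rw [integral_const_mul]
    unfold Kc
    ring
  rw [e1, ← e2] at h
  linarith

end Pool.Sph
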