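import Pool.Agent.Helper458.Sph.Defs
import Pool.Agent.Helper458.Sph.P_amgm2
import Pool.Agent.Helper458.Sph.P_Ns_facts
import Pool.Agent.Helper458.Sph.P_Jc_sym

set_option autoImplicit false

open MeasureTheory Filter Topology Set Metric
open scoped Real ENNReal

namespace Pool.Sph



theorem Jc_le_K (f : S7 → ℂ) (hf : MemLp f 2 sig) (c : ℝ) (hc : 0 < c) :
    Jc c f ≤ ∫ p : S7 × S7, gs f p.1 * gs f p.2 * Kc c p ∂mu2 := by
  obtain ⟨h1, h2, h3, h4, h5, h6, h7, h8, h9⟩ := Ns_facts f hf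
  refine (Jc_sym f hf c hc).trans ((amgm2 (Ns f) h2 h5 h3 c).trans (le_of_eq ?_))
  simp only [h6]

end Pool.Sph
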