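import Pool.Agent.Helper458.Sph.Defs

set_option autoImplicit false

open MeasureTheory Filter Topology Set Metric
open scoped Real ENNReal

namespace Pool.Sph



theorem choose_half_rec (n : ℕ) : Ring.choose (1/2 : ℝ) (n+1) * (n+1) = Ring.choose (1/2 : ℝ) n * (1/2 - n) := by
  have h1 := Ring.descPochhammer_eq_factorial_smul_choose (1/2 : ℝ) (n+1)
  have h2 := Ring.descPochhammer_eq_factorial_smul_choose (1/2 : ℝ) n
  rw [descPochhammer_succ_right, Polynomial.smeval_mul, h2] at h1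
  have hn : (n.factorial : ℝ) ≠ 0 := by positivity
  simp only [Nat.factorial_succ, nsmul_eq_mul, Nat.cast_mul, Nat.cast_add, Nat.cast_one] at h1
  have h3 : (Polynomial.smeval (Polynomial.X - (n : Polynomial ℤ)) (1/2 : ℝ)) = 1/2 - n := by
    simp [Polynomial.smeval_sub, Polynomial.smeval_natCast]
  rw [h3] at h1
  apply mul_left_cancel₀ hn
  linarith

theorem sqrt_series : ∃ b : ℕ → ℝ, b 0 = 1 / 2 ∧
    (∀ n : ℕ, b (n + 1) = b n * ((2 * n + 1) / (2 * n + 4))) ∧
    ∀ t : ℝ, 0 ≤ t → t < 1 → HasSum (fun n : ℕ => b n * t ^ (n + 1)) (1 - Real.sqrt (1 - t)) := by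
  refine ⟨fun n => -(Ring.choose (1/2 : ℝ) (n+1) * (-1)^(n+1)), ?_, ?_, ?_⟩
  · simp
  · intro n
    have h := choose_half_rec (n+1)
    have hn : (n : ℝ) + 1 + 1 ≠ 0 := by positivity
    have h' : Ring.choose (1/2 : ℝ) (n+1+1) = Ring.choose (1/2 : ℝ) (n+1) * (1/2 - (n+1)) / (n+1+1) := by
      field_simp
      push_cast at h
      linarith
    simp only []
    rw [h', pow_succ (-1 : ℝ) (n+1)]
    have h2 : (2 * (n:ℝ) + 4) ≠ 0 := by positivity
    field_simp
    ring
  · intro t ht0 ht1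
    have h := (Real.one_add_rpow_hasFPowerSeriesOnBall_zero (a := 1/2)).hasSum (y := -t) (by
      rw [← ENNReal.ofReal_one, Metric.eball_ofReal]
      simp [abs_of_nonneg ht0, ht1])
    simp only [binomialSeries_apply, List.ofFn_const, List.prod_replicate, zero_add, smul_eq_mul] at h
    rw [← hasSum_nat_add_iff' 1] at h
    simp only [Finset.range_one, Finset.sum_singleton, Ring.choose_zero_right, pow_zero, mul_one] at h
    have h3 := h.neg
    rw [Real.sqrt_eq_rpow]
    have e1 : (fun n : ℕ => (fun n => -(Ring.choose (1 / 2 : ℝ) (n + 1) * (-1) ^ (n + 1))) n * t ^ (n + 1))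
        = fun b : ℕ => -(Ring.choose (1 / 2 : ℝ) (b + 1) * (-t) ^ (b + 1)) := by
      funext n
      rw [neg_pow t]
      ring
    have e2 : (1 : ℝ) - (1 - t) ^ (1 / 2 : ℝ) = -((1 + -t) ^ (1 / 2 : ℝ) - 1) := by
      rw [← sub_eq_add_neg]; ring
    rw [e1, e2]
    exact h3

end Pool.Sph
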