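import Pool.Agent.Helper458.Sph.Defs
import Pool.Agent.Helper458.Sph.P_sqrt_series

set_option autoImplicit false

open MeasureTheory Filter Topology Set Metric
open scoped Real ENNReal

namespace Pool.Sph



theorem Ke_series : ∃ α : ℕ → ℝ, (∀ n, 0 ≤ α n) ∧
    ∀ t : ℝ, 0 ≤ t → t < 1 → HasSum (fun n : ℕ => α n * t ^ (n + 1))
      (51 - Real.sqrt (1 - t) * (51 + 24 * t - 11 * t ^ 2)) := by
  obtain ⟨b, hb0, hbs, hsum⟩ := sqrt_series
  have hbpos : ∀ n, 0 < b n := by
    intro n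
    induction n with
    | zero => rw [hb0]; norm_num
    | succ n ih => rw [hbs]; positivity
  have hb1 : b 1 = 1 / 8 := by
    have := hbs 0
    rw [hb0] at this
    rw [show (1 : ℕ) = 0 + 1 from rfl, this]; norm_num
  have hb2 : b 2 = 1 / 16 := by
    have := hbs 1
    rw [hb1] at this
    rw [show (2 : ℕ) = 1 + 1 from rfl, this]; norm_num
  obtain ⟨α, hα0, hα1, hα2⟩ : ∃ α : ℕ → ℝ, α 0 = 51 * b 0 - 24 ∧ α 1 = 51 * b 1 + 24 * b 0 + 11 ∧
      ∀ n, α (n + 2) = 51 * b (n + 2) + 24 * b (n + 1) - 11 * b n := by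
    refine ⟨fun n => match n with
      | 0 => 51 * b 0 - 24
      | 1 => 51 * b 1 + 24 * b 0 + 11
      | (n + 2) => 51 * b (n + 2) + 24 * b (n + 1) - 11 * b n, rfl, rfl, fun n => rfl⟩
  refine ⟨α, ?_, ?_⟩
  · intro n
    match n with
    | 0 => rw [hα0, hb0]; norm_num
    | 1 => rw [hα1, hb0, hb1]; norm_num
    | 2 =>
      have := hα2 0
      rw [show (2 : ℕ) = 0 + 2 from rfl, this]
      simp only [zero_add]
      rw [hb2, hb1, hb0]
      norm_num
    | (n + 3) =>
      have h1 := hα2 (n + 1)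
      rw [show n + 3 = n + 1 + 2 from rfl, h1]
      have h2 := hbs (n + 1)
      have h3 := hbpos (n + 1)
      have h4 := hbpos (n + 1 + 2)
      have h5 : (1 / 2 : ℝ) ≤ (2 * ((n + 1 : ℕ) : ℝ) + 1) / (2 * ((n + 1 : ℕ) : ℝ) + 4) := by
        rw [div_le_div_iff₀ (by norm_num) (by positivity)]
        push_cast
        have : (0 : ℝ) ≤ n := Nat.cast_nonneg n
        linarith
      have h6 : b (n + 1) * (1 / 2) ≤ b (n + 1 + 1) := by
        rw [h2]
        exact mul_le_mul_of_nonneg_left h5 h3.le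
      linarith
  · intro t ht0 ht1
    have hS := hsum t ht0 ht1
    obtain ⟨S, hSdef⟩ : ∃ S, S = 1 - Real.sqrt (1 - t) := ⟨_, rfl⟩
    rw [← hSdef] at hS
    have hsq : Real.sqrt (1 - t) = 1 - S := by rw [hSdef]; ring
    rw [hsq]
    have h2 := (hasSum_nat_add_iff' (f := fun n : ℕ => b n * t ^ (n + 1)) 2).2 hS
    have h1 := (hasSum_nat_add_iff' (f := fun n : ℕ => b n * t ^ (n + 1)) 1).2 hS
    rw [← hasSum_nat_add_iff' (f := fun n : ℕ => α n * t ^ (n + 1)) 2]
    have h3 := ((h2.mul_left 51).add (h1.mul_left (24 * t))).sub (hS.mul_left (11 * t ^ 2))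
    convert h3 using 1
    · funext n
      rw [hα2]
      ring
    · simp only [Finset.sum_range_succ, Finset.sum_range_zero, hα0, hα1]
      ring

end Pool.Sph
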