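import Pool.Agent.Helper458.Sph.Defs
import Pool.Agent.Helper458.Sph.P_act_mp
import Pool.Agent.Helper458.Sph.P_exists_act
import Pool.Agent.Helper458.Sph.P_ip_facts

set_option autoImplicit false

open MeasureTheory Filter Topology Set Metric
open scoped Real ENNReal

namespace Pool.Sph



theorem ip_avg (n : ℕ) (ω : S7) :
    sig.real univ * ∫ η : S7, ip (ω, η) ^ n ∂sig = ∫ p : S7 × S7, ip p ^ n ∂mu2 := by
  have hc : Continuous (fun p : S7 × S7 => ip p ^ n) := ip_facts.1.pow n
  have hint : Integrable (fun p : S7 × S7 => ip p ^ n) mu2 := by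
    refine Integrable.mono' (integrable_const (1 : ℝ)) hc.aestronglyMeasurable ?_
    refine Filter.Eventually.of_forall fun p => ?_
    rw [norm_pow, Real.norm_eq_abs]
    exact pow_le_one₀ (abs_nonneg _) (ip_facts.2 p)
  have hinv : ∀ ω' : S7, ∫ η : S7, ip (ω', η) ^ n ∂sig = ∫ η : S7, ip (ω, η) ^ n ∂sig := by
    intro ω'
    obtain ⟨A, hA⟩ := exists_act ω ω'
    have h1 := (act_mp A).map_eq
    have hcg : Continuous (fun η : S7 => ip (ω', η) ^ n) :=
      hc.comp (continuous_const.prodMk continuous_id)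
    have h2 : ∫ η : S7, ip (ω', η) ^ n ∂sig = ∫ η : S7, ip (ω', act A η) ^ n ∂sig := by
      conv_lhs => rw [← h1]
      rw [integral_map (act_mp A).measurable.aemeasurable hcg.aestronglyMeasurable]
    rw [h2]
    refine integral_congr_ae (Filter.Eventually.of_forall fun η => ?_)
    show ip (ω', act A η) ^ n = ip (ω, η) ^ n
    congr 1
    rw [← hA]
    show inner ℝ (A (ω : E8)) (A (η : E8)) = inner ℝ (ω : E8) (η : E8)
    exact A.inner_map_map _ _
  unfold mu2 at hint ⊢
  rw [integral_prod _ hint]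
  have h3 : ∀ ω' : S7, (∫ η : S7, ip (ω', η) ^ n ∂sig) = ∫ η : S7, ip (ω, η) ^ n ∂sig := hinv
  simp only [h3]
  rw [integral_const, smul_eq_mul]

end Pool.Sph
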