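import Pool.Agent.Helper458.Sph.Defs
import Pool.Agent.Helper458.Sph.P_prod_int
import Pool.Agent.Helper458.Sph.P_ip_facts

set_option autoImplicit false

open MeasureTheory Filter Topology Set Metric
open scoped Real ENNReal

namespace Pool.Sph



theorem h208_coord_le (ω : S7) (i : Fin 8) : |(ω : E8) i| ≤ 1 := by
  have h1 : ‖(ω : E8)‖ = 1 := norm_eq_of_mem_sphere ω
  have h2 := PiLp.norm_apply_le (ω : E8) i
  rw [h1] at h2
  exact h2

theorem h208_int (h : S7 → ℝ) (hh : Integrable h sig) (n : ℕ) (I : Fin n → Fin 8) :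
    Integrable (fun ω : S7 => h ω * ∏ j, (ω : E8) (I j)) sig := by
  have hcont : Continuous (fun ω : S7 => ∏ j, (ω : E8) (I j)) := by
    refine continuous_finsetProd _ fun j _ => ?_
    exact (EuclideanSpace.proj (𝕜 := ℝ) (I j)).continuous.comp continuous_subtype_val
  refine hh.mono (hh.aestronglyMeasurable.mul hcont.aestronglyMeasurable)
    (Filter.Eventually.of_forall fun ω => ?_)
  rw [norm_mul]
  have h1 : ‖∏ j, (ω : E8) (I j)‖ ≤ 1 := by
    rw [Real.norm_eq_abs, Finset.abs_prod]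
    exact Finset.prod_le_one (fun j _ => abs_nonneg _) (fun j _ => h208_coord_le ω (I j))
  calc ‖h ω‖ * ‖∏ j, (ω : E8) (I j)‖ ≤ ‖h ω‖ * 1 := by gcongr
    _ = ‖h ω‖ := mul_one _

theorem psd (h : S7 → ℝ) (hh : Integrable h sig) (n : ℕ) :
    0 ≤ ∫ p : S7 × S7, h p.1 * h p.2 * ip p ^ n ∂mu2 := by
  have h1 : ∀ p : S7 × S7, h p.1 * h p.2 * ip p ^ n =
      ∑ I : Fin n → Fin 8, (h p.1 * ∏ j, (p.1 : E8) (I j)) * (h p.2 * ∏ j, (p.2 : E8) (I j)) := by
    intro p
    have h2 : ip p = ∑ i : Fin 8, (p.1 : E8) i * (p.2 : E8) i := by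
      unfold ip
      rw [PiLp.inner_apply]
      refine Finset.sum_congr rfl fun i _ => ?_
      simp [mul_comm]
    rw [h2, Fintype.sum_pow, Finset.mul_sum]
    refine Finset.sum_congr rfl fun I _ => ?_
    rw [Finset.prod_mul_distrib]
    ring
  simp only [h1]
  unfold mu2
  rw [integral_finsetSum]
  · refine Finset.sum_nonneg fun I _ => ?_
    rw [integral_prod_mul (f := fun ω : S7 => h ω * ∏ j, (ω : E8) (I j))
      (g := fun ω : S7 => h ω * ∏ j, (ω : E8) (I j))]
    exact mul_self_nonneg _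
  · intro I _
    exact (h208_int h hh n I).mul_prod (h208_int h hh n I)

end Pool.Sph
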