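import Pool.Agent.Helper458.Sph.Defs
import Pool.Agent.Helper458.Sph.P_sig_pos
import Pool.Agent.Helper458.Sph.P_prod_int
import Pool.Agent.Helper458.Sph.P_ip_facts
import Pool.Agent.Helper458.Sph.P_psd
import Pool.Agent.Helper458.Sph.P_ip_avg

set_option autoImplicit false

open MeasureTheory Filter Topology Set Metric
open scoped Real ENNReal

namespace Pool.Sph



theorem pow_ineq (g : S7 → ℝ) (hg : Integrable g sig) (n : ℕ) :
    (∫ ω, g ω ∂sig) ^ 2 * ∫ p : S7 × S7, ip p ^ n ∂mu2 ≤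
      (sig.real univ) ^ 2 * ∫ p : S7 × S7, g p.1 * g p.2 * ip p ^ n ∂mu2 := by
  have hS := sig_pos
  obtain ⟨hcont, hip⟩ := ip_facts
  have hkm : Measurable (fun p : S7 × S7 => ip p ^ n) := (hcont.pow n).measurable
  have hkb : ∀ p : S7 × S7, |ip p ^ n| ≤ 1 := by
    intro p
    rw [abs_pow]
    exact pow_le_one₀ (abs_nonneg _) (hip p)
  set S := sig.real univ with hSdef
  set G := ∫ ω, g ω ∂sig with hG
  set I := ∫ p : S7 × S7, ip p ^ n ∂mu2 with hI
  set X := ∫ p : S7 × S7, g p.1 * g p.2 * ip p ^ n ∂mu2 with hX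
  have i1 : Integrable (fun p : S7 × S7 => g p.1 * g p.2 * ip p ^ n) mu2 :=
    prod_int g hg _ hkm 1 hkb
  have i2 : Integrable (fun p : S7 × S7 => g p.1 * ip p ^ n) mu2 := by
    unfold mu2
    exact (hg.comp_fst sig).mul_bdd (c := 1) hkm.aestronglyMeasurable (Eventually.of_forall hkb)
  have i3 : Integrable (fun p : S7 × S7 => g p.2 * ip p ^ n) mu2 := by
    unfold mu2
    exact (hg.comp_snd sig).mul_bdd (c := 1) hkm.aestronglyMeasurable (Eventually.of_forall hkb)
  have i4 : Integrable (fun p : S7 × S7 => ip p ^ n) mu2 := by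
    refine Integrable.of_bound hkm.aestronglyMeasurable 1 (Eventually.of_forall hkb)
  have a1 : ∫ p : S7 × S7, g p.1 * ip p ^ n ∂mu2 = G * (I / S) := by
    have h1 : ∫ p : S7 × S7, g p.1 * ip p ^ n ∂mu2 =
        ∫ ω, ∫ η, g ω * ip (ω, η) ^ n ∂sig ∂sig := integral_prod _ i2
    rw [h1]
    have h2 : ∀ ω : S7, ∫ η, g ω * ip (ω, η) ^ n ∂sig = g ω * (I / S) := by
      intro ω
      rw [integral_const_mul]
      congr 1
      rw [eq_div_iff hS.ne', mul_comm]
      exact ip_avg n ω
    simp_rw [h2]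
    rw [integral_mul_const]
  have a2 : ∫ p : S7 × S7, g p.2 * ip p ^ n ∂mu2 = G * (I / S) := by
    have h1 : ∫ p : S7 × S7, g p.2 * ip p ^ n ∂mu2 =
        ∫ η, ∫ ω, g η * ip (ω, η) ^ n ∂sig ∂sig := integral_prod_symm _ i3
    rw [h1]
    have h2 : ∀ η : S7, ∫ ω, g η * ip (ω, η) ^ n ∂sig = g η * (I / S) := by
      intro η
      rw [integral_const_mul]
      congr 1
      rw [eq_div_iff hS.ne', mul_comm]
      rw [hI, ← ip_avg n η, ← hSdef]
      congr 1
      refine integral_congr_ae (Eventually.of_forall fun ω => ?_)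
      show ip (ω, η) ^ n = ip (η, ω) ^ n
      unfold ip
      rw [real_inner_comm]
    simp_rw [h2]
    rw [integral_mul_const]
  have hh : Integrable (fun ω => g ω - G / S) sig := hg.sub (integrable_const _)
  have h0 := psd (fun ω => g ω - G / S) hh n
  have h5 : ∫ p : S7 × S7, (g p.1 - G / S) * (g p.2 - G / S) * ip p ^ n ∂mu2 =
      X - G / S * (G * (I / S)) - G / S * (G * (I / S)) + (G / S) ^ 2 * I := by
    have h6 : (fun p : S7 × S7 => (g p.1 - G / S) * (g p.2 - G / S) * ip p ^ n) =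
        fun p => g p.1 * g p.2 * ip p ^ n - G / S * (g p.1 * ip p ^ n) -
          G / S * (g p.2 * ip p ^ n) + (G / S) ^ 2 * ip p ^ n := by
      funext p; ring
    have j2 := i2.const_mul (G / S)
    have j3 := i3.const_mul (G / S)
    have j4 := i4.const_mul ((G / S) ^ 2)
    have j12 : Integrable (fun p : S7 × S7 => g p.1 * g p.2 * ip p ^ n -
        G / S * (g p.1 * ip p ^ n)) mu2 := i1.sub j2
    have j123 : Integrable (fun p : S7 × S7 => g p.1 * g p.2 * ip p ^ n -
        G / S * (g p.1 * ip p ^ n) - G / S * (g p.2 * ip p ^ n)) mu2 := j12.sub j3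
    rw [h6, integral_add j123 j4, integral_sub j12 j3, integral_sub i1 j2, integral_const_mul,
      integral_const_mul, integral_const_mul, a1, a2]
  rw [h5] at h0
  have h7 : X - G / S * (G * (I / S)) - G / S * (G * (I / S)) + (G / S) ^ 2 * I =
      (S ^ 2 * X - G ^ 2 * I) / S ^ 2 := by
    field_simp
    ring
  rw [h7] at h0
  have h8 : 0 < S ^ 2 := by positivity
  have h9 : 0 ≤ S ^ 2 * X - G ^ 2 * I := by
    by_contra hneg
    push Not at hneg
    exact absurd h0 (not_le.mpr (div_neg_of_neg_of_pos hneg h8))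
  linarith

end Pool.Sph
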