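import Pool.Agent.Helper458.Sph.Defs
import Pool.Agent.Helper458.Sph.P_prod_int
import Pool.Agent.Helper458.Sph.P_ip_facts
import Pool.Agent.Helper458.Sph.P_pow_ineq
import Pool.Agent.Helper458.Sph.P_Ke_series

set_option autoImplicit false

open MeasureTheory Filter Topology Set Metric
open scoped Real ENNReal

namespace Pool.Sph



theorem Ke_ineq_r_cont : Continuous Ke := by
  unfold Ke
  fun_prop

theorem Ke_ineq_r_bd (x : ℝ) (hx : |x| ≤ 1) : |Ke x| ≤ 86 := by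
  unfold Ke
  have h1 : x ^ 2 ≤ 1 := by
    have := (sq_le_one_iff_abs_le_one x).2 hx
    exact this
  have h0 : 0 ≤ x ^ 2 := sq_nonneg x
  have h2 : Real.sqrt (1 - x ^ 2) ≤ 1 := by
    rw [Real.sqrt_le_one]
    linarith
  have h3 : 0 ≤ Real.sqrt (1 - x ^ 2) := Real.sqrt_nonneg _
  have h4 : |51 + 24 * x ^ 2 - 11 * x ^ 4| ≤ 86 := by
    have e : x ^ 4 = (x ^ 2) ^ 2 := by ring
    rw [e, abs_le]
    constructor <;> nlinarith
  rw [abs_mul, abs_of_nonneg h3]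
  calc Real.sqrt (1 - x ^ 2) * |51 + 24 * x ^ 2 - 11 * x ^ 4| ≤ 1 * 86 :=
        mul_le_mul h2 h4 (abs_nonneg _) (by norm_num)
    _ = 86 := by norm_num

theorem Ke_ineq_r_sum (g : S7 → ℝ) (hg : Integrable g sig) (r : ℝ) (hr0 : 0 ≤ r) (hr : r < 1)
    (α : ℕ → ℝ) (hα : ∀ n, 0 ≤ α n)
    (hs : ∀ t : ℝ, 0 ≤ t → t < 1 → HasSum (fun n : ℕ => α n * t ^ (n + 1))
      (51 - Real.sqrt (1 - t) * (51 + 24 * t - 11 * t ^ 2))) :
    HasSum (fun n : ℕ => α n * (r ^ 2) ^ (n + 1) *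
      ∫ p : S7 × S7, g p.1 * g p.2 * ip p ^ (2 * (n + 1)) ∂mu2)
      (51 * (∫ p : S7 × S7, g p.1 * g p.2 ∂mu2) -
        ∫ p : S7 × S7, g p.1 * g p.2 * Ke (r * ip p) ∂mu2) := by
  obtain ⟨hipc, hip1⟩ := ip_facts
  have hr2 : r ^ 2 < 1 := by nlinarith
  have hr20 : 0 ≤ r ^ 2 := sq_nonneg r
  have hgg : Integrable (fun p : S7 × S7 => g p.1 * g p.2) mu2 := by
    have := prod_int g hg (fun _ => 1) measurable_const 1 (fun _ => by simp)
    simpa using this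
  have hpw : ∀ n, Integrable (fun p : S7 × S7 => g p.1 * g p.2 * ip p ^ n) mu2 := fun n =>
    prod_int g hg (fun p => ip p ^ n) (hipc.pow n).measurable 1 (fun p => by
      rw [abs_pow]; exact pow_le_one₀ (abs_nonneg _) (hip1 p))
  have hrip : ∀ p, |r * ip p| ≤ 1 := fun p => by
    rw [abs_mul, abs_of_nonneg hr0]
    exact mul_le_one₀ hr.le (abs_nonneg _) (hip1 p)
  have hKe : Integrable (fun p : S7 × S7 => g p.1 * g p.2 * Ke (r * ip p)) mu2 :=
    prod_int g hg (fun p => Ke (r * ip p))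
      (Ke_ineq_r_cont.comp (continuous_const.mul hipc)).measurable 86
      (fun p => Ke_ineq_r_bd _ (hrip p))
  set F : ℕ → S7 × S7 → ℝ := fun n p =>
    α n * (r ^ 2) ^ (n + 1) * (g p.1 * g p.2 * ip p ^ (2 * (n + 1))) with hF
  have hFint : ∀ n, Integrable (F n) mu2 := fun n => (hpw (2 * (n + 1))).const_mul _
  have hsumα : Summable fun n : ℕ => α n * (r ^ 2) ^ (n + 1) := (hs (r ^ 2) hr20 hr2).summable
  have hFsum : Summable fun n => ∫ p, ‖F n p‖ ∂mu2 := by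
    refine Summable.of_nonneg_of_le (fun n => integral_nonneg fun p => norm_nonneg _)
      (fun n => ?_) (hsumα.mul_right (∫ p : S7 × S7, ‖g p.1 * g p.2‖ ∂mu2))
    rw [← integral_const_mul]
    apply integral_mono (hFint n).norm (hgg.norm.const_mul _)
    intro p
    show ‖α n * (r ^ 2) ^ (n + 1) * (g p.1 * g p.2 * ip p ^ (2 * (n + 1)))‖ ≤
      α n * (r ^ 2) ^ (n + 1) * ‖g p.1 * g p.2‖
    have hc : 0 ≤ α n * (r ^ 2) ^ (n + 1) := mul_nonneg (hα n) (pow_nonneg hr20 _)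
    rw [norm_mul, Real.norm_of_nonneg hc, norm_mul]
    apply mul_le_mul_of_nonneg_left _ hc
    apply mul_le_of_le_one_right (norm_nonneg _)
    rw [norm_pow]
    exact pow_le_one₀ (norm_nonneg _) (hip1 p)
  have hmain := hasSum_integral_of_summable_integral_norm hFint hFsum
  have htsum : ∀ p, ∑' n, F n p = 51 * (g p.1 * g p.2) - g p.1 * g p.2 * Ke (r * ip p) := by
    intro p
    have ht1 : (r * ip p) ^ 2 < 1 := by
      have h1 : (ip p) ^ 2 ≤ 1 := (sq_le_one_iff_abs_le_one _).2 (hip1 p)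
      have h2 : 0 ≤ (ip p) ^ 2 := sq_nonneg _
      rw [mul_pow]
      nlinarith
    have h1 := (hs ((r * ip p) ^ 2) (sq_nonneg _) ht1).mul_left (g p.1 * g p.2)
    have e1 : (fun n : ℕ => g p.1 * g p.2 * (α n * ((r * ip p) ^ 2) ^ (n + 1))) =
        fun n => F n p := by
      funext n
      rw [hF]
      simp only
      rw [mul_pow r, mul_pow, ← pow_mul (ip p)]
      ring
    rw [e1] at h1
    rw [h1.tsum_eq, Ke]
    have e2 : (r * ip p) ^ 4 = ((r * ip p) ^ 2) ^ 2 := by ring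
    rw [e2]
    ring
  have e1 : ∫ p, ∑' n, F n p ∂mu2 = 51 * (∫ p : S7 × S7, g p.1 * g p.2 ∂mu2) -
        ∫ p : S7 × S7, g p.1 * g p.2 * Ke (r * ip p) ∂mu2 := by
    simp only [htsum]
    rw [integral_sub (hgg.const_mul 51) hKe, integral_const_mul]
  rw [e1] at hmain
  have e2 : (fun n => ∫ p, F n p ∂mu2) = fun n : ℕ => α n * (r ^ 2) ^ (n + 1) *
      ∫ p : S7 × S7, g p.1 * g p.2 * ip p ^ (2 * (n + 1)) ∂mu2 := by
    funext n
    rw [← integral_const_mul]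
  rw [e2] at hmain
  exact hmain

theorem Ke_ineq_r (g : S7 → ℝ) (hg : Integrable g sig) (r : ℝ) (hr0 : 0 ≤ r) (hr : r < 1) :
    (sig.real univ) ^ 2 * ∫ p : S7 × S7, g p.1 * g p.2 * Ke (r * ip p) ∂mu2 ≤
      (∫ ω, g ω ∂sig) ^ 2 * ∫ p : S7 × S7, Ke (r * ip p) ∂mu2 := by
  obtain ⟨α, hα, hs⟩ := Ke_series
  have hg1 := Ke_ineq_r_sum g hg r hr0 hr α hα hs
  have hg2 := Ke_ineq_r_sum (fun _ => 1) (integrable_const 1) r hr0 hr α hα hs
  simp only [one_mul] at hg2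
  have hr20 : 0 ≤ r ^ 2 := sq_nonneg r
  have eG : ∫ p : S7 × S7, g p.1 * g p.2 ∂mu2 = (∫ ω, g ω ∂sig) ^ 2 := by
    unfold mu2
    rw [integral_prod_mul (μ := sig) (ν := sig) g g, sq]
  have eS : ∫ p : S7 × S7, (1:ℝ) ∂mu2 = (sig.real univ) ^ 2 := by
    unfold mu2
    rw [integral_const, smul_eq_mul, mul_one]
    have : (univ : Set (S7 × S7)) = univ ×ˢ univ := univ_prod_univ.symm
    rw [this, measureReal_prod_prod, sq]
  rw [eG] at hg1
  rw [eS] at hg2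
  have h1 := hg2.mul_left ((∫ ω, g ω ∂sig) ^ 2)
  have h2 := hg1.mul_left ((sig.real univ) ^ 2)
  have h3 := hasSum_le (fun n => ?_) h1 h2
  · linarith
  · have h4 := pow_ineq g hg (2 * (n + 1))
    have hc : 0 ≤ α n * (r ^ 2) ^ (n + 1) := mul_nonneg (hα n) (pow_nonneg hr20 _)
    have h5 := mul_le_mul_of_nonneg_left h4 hc
    linarith

end Pool.Sph
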