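import Pool.Agent.Helper458.Sph.Defs
import Pool.Agent.Helper458.Sph.P_prod_int
import Pool.Agent.Helper458.Sph.P_ip_facts
import Pool.Agent.Helper458.Sph.P_Kf_facts
import Pool.Agent.Helper458.Sph.P_Ke_ineq_r

set_option autoImplicit false

open MeasureTheory Filter Topology Set Metric
open scoped Real ENNReal

namespace Pool.Sph



theorem j17857_conv (h : S7 × S7 → ℝ) (hh : Integrable h mu2) :
    Tendsto (fun n : ℕ => ∫ p : S7 × S7, h p * Ke ((1 - 1 / ((n : ℝ) + 1)) * ip p) ∂mu2) atTop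
      (𝓝 (∫ p : S7 × S7, h p * Ke (ip p) ∂mu2)) := by
  obtain ⟨hip, hip1⟩ := ip_facts
  obtain ⟨_, hKe, hb, _⟩ := Kf_facts
  refine tendsto_integral_of_dominated_convergence (fun p => |h p| * 100) ?_ (hh.abs.mul_const _) ?_ ?_
  · intro n
    exact hh.aestronglyMeasurable.mul
      (hKe.comp (continuous_const.mul hip)).aestronglyMeasurable
  · intro n
    refine Eventually.of_forall fun p => ?_
    rw [norm_mul, Real.norm_eq_abs, Real.norm_eq_abs]
    refine mul_le_mul_of_nonneg_left (hb _ ?_).2 (abs_nonneg _)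
    rw [abs_mul]
    have h1 : 1 / ((n : ℝ) + 1) ≤ 1 := by
      rw [div_le_one (by positivity)]
      linarith [Nat.cast_nonneg (α := ℝ) n]
    have h2 : 0 ≤ 1 / ((n : ℝ) + 1) := by positivity
    have h3 : |1 - 1 / ((n : ℝ) + 1)| ≤ 1 := by
      rw [abs_of_nonneg (by linarith)]; linarith
    calc |1 - 1 / ((n : ℝ) + 1)| * |ip p| ≤ 1 * 1 :=
          mul_le_mul h3 (hip1 p) (abs_nonneg _) zero_le_one
      _ = 1 := one_mul 1
  · refine Eventually.of_forall fun p => ?_
    refine Tendsto.const_mul _ ?_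
    have h1 : Tendsto (fun n : ℕ => (1 - 1 / ((n : ℝ) + 1)) * ip p) atTop (𝓝 (ip p)) := by
      have h2 : Tendsto (fun n : ℕ => (1 - 1 / ((n : ℝ) + 1)) * ip p) atTop
          (𝓝 ((1 - 0) * ip p)) :=
        (tendsto_const_nhds.sub tendsto_one_div_add_atTop_nhds_zero_nat).mul_const _
      simpa using h2
    exact (hKe.tendsto _).comp h1

theorem Ke_ineq (g : S7 → ℝ) (hg : Integrable g sig) :
    (sig.real univ) ^ 2 * ∫ p : S7 × S7, g p.1 * g p.2 * Ke (ip p) ∂mu2 ≤
      (∫ ω, g ω ∂sig) ^ 2 * ∫ p : S7 × S7, Ke (ip p) ∂mu2 := by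
  have hg2 : Integrable (fun p : S7 × S7 => g p.1 * g p.2) mu2 := by
    have h := prod_int g hg (fun _ => 1) measurable_const 1 (fun _ => by simp)
    simpa using h
  have c1 := (j17857_conv (fun p => g p.1 * g p.2) hg2).const_mul ((sig.real univ) ^ 2)
  have c2 := (j17857_conv (fun _ => 1) (integrable_const 1)).const_mul ((∫ ω, g ω ∂sig) ^ 2)
  simp only [one_mul] at c2
  refine le_of_tendsto_of_tendsto' c1 c2 fun n => ?_
  have h0 : (0 : ℝ) < (n : ℝ) + 1 := by positivity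
  have h1 : 1 / ((n : ℝ) + 1) ≤ 1 := by
    rw [div_le_one h0]
    linarith [Nat.cast_nonneg (α := ℝ) n]
  have h2 : 0 < 1 / ((n : ℝ) + 1) := by positivity
  exact Ke_ineq_r g hg _ (by linarith) (by linarith)

end Pool.Sph
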