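import Pool.Agent.Helper458.Sph.Defs
import Pool.Agent.Helper458.Sph.P_sig_pos
import Pool.Agent.Helper458.Sph.P_cS_pos
import Pool.Agent.Helper458.Sph.P_lim_gg
import Pool.Agent.Helper458.Sph.P_even_part
import Pool.Agent.Helper458.Sph.P_Ke_ineq
import Pool.Agent.Helper458.Sph.P_Ns_facts
import Pool.Agent.Helper458.Sph.P_J_le
import Pool.Agent.Helper458.Sph.P_Jc_le_K

set_option autoImplicit false

open MeasureTheory Filter Topology Set Metric
open scoped Real ENNReal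

namespace Pool.Sph



theorem J_upper (f : S7 → ℂ) (hf : MemLp f 2 sig) :
    J f ≤ ENNReal.ofReal (π ^ 8 * cS * ((∫ ω, ‖f ω‖ ^ 2 ∂sig) ^ 2 / (sig.real univ) ^ 2 *
      ∫ p : S7 × S7, Ke (ip p) ∂mu2)) := by
  obtain ⟨hfi, -, -, hgs, -, -, hgse, -, hint⟩ := Ns_facts f hf
  have h1 := J_le f hfi (fun c : ℝ => ∫ p : S7 × S7, gs f p.1 * gs f p.2 * Kc c p ∂mu2) _
    (lim_gg (gs f) hgs) (fun c hc => Jc_le_K f hf c (by linarith))
  refine h1.trans (ENNReal.ofReal_le_ofReal ?_)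
  rw [even_part (gs f) hgs hgse]
  have hS := sig_pos
  have hc := cS_pos
  have hK := Ke_ineq (gs f) hgs
  rw [hint] at hK
  have hX : ∫ p : S7 × S7, gs f p.1 * gs f p.2 * Ke (ip p) ∂mu2 ≤
      (∫ ω, ‖f ω‖ ^ 2 ∂sig) ^ 2 / (sig.real univ) ^ 2 * ∫ p : S7 × S7, Ke (ip p) ∂mu2 := by
    rw [div_mul_eq_mul_div, le_div_iff₀ (by positivity)]
    linarith
  exact mul_le_mul_of_nonneg_left hX (by positivity)

end Pool.Sph
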