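import Pool.Agent.Helper458.Sph.Defs
import Pool.Agent.Helper458.Sph.P_J_upper
import Pool.Agent.Helper458.Sph.P_J_lower

set_option autoImplicit false

open MeasureTheory Filter Topology Set Metric
open scoped Real ENNReal

namespace Pool.Sph



theorem J_main (f : S7 → ℂ) (hf : MemLp f 2 sig) :
    J f ≤ ENNReal.ofReal ((∫ ω, ‖f ω‖ ^ 2 ∂sig) ^ 2 / (sig.real univ) ^ 2) * J (fun _ => 1) ∧
      J f < ⊤ := by
  have h1 := J_upper f hf
  have h2 : π ^ 8 * cS * ((∫ ω, ‖f ω‖ ^ 2 ∂sig) ^ 2 / (sig.real univ) ^ 2 *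
      ∫ p : S7 × S7, Ke (ip p) ∂mu2) = ((∫ ω, ‖f ω‖ ^ 2 ∂sig) ^ 2 / (sig.real univ) ^ 2) *
      (π ^ 8 * cS * ∫ p : S7 × S7, Ke (ip p) ∂mu2) := by ring
  refine ⟨?_, h1.trans_lt ENNReal.ofReal_lt_top⟩
  rw [h2, ENNReal.ofReal_mul (by positivity)] at h1
  exact h1.trans (mul_le_mul_right J_lower _)

end Pool.Sph
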