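import Pool.Agent.Helper458.Sph.Defs

set_option autoImplicit false

open MeasureTheory Filter Topology Set Metric
open scoped Real ENNReal

namespace Pool.Sph



theorem L2_elp (f : S7 → ℂ) (hf : MemLp f 2 sig) :
    ENNReal.ofReal ((∫ ω, ‖f ω‖ ^ 2 ∂sig) ^ 2 / (sig.real univ) ^ 2) =
      (sig univ)⁻¹ ^ 2 * eLpNorm f 2 sig ^ 4 := by
  by_cases h0 : sig univ = 0
  · have h1 : sig = 0 := Measure.measure_univ_eq_zero.1 h0
    simp [h1]
  have hs : 0 < sig.real univ := ENNReal.toReal_pos h0 (measure_ne_top sig univ)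
  have hsu : ENNReal.ofReal (sig.real univ) = sig univ := ENNReal.ofReal_toReal (measure_ne_top sig univ)
  have hint : Integrable (fun ω => ‖f ω‖ ^ 2) sig := hf.integrable_norm_pow (by norm_num)
  have h2 : eLpNorm f 2 sig ^ 2 = ENNReal.ofReal (∫ ω, ‖f ω‖ ^ 2 ∂sig) := by
    have h3 := eLpNorm_nnreal_pow_eq_lintegral (μ := sig) (f := f) (p := 2) (by norm_num)
    have h4 : ((2 : NNReal) : ℝ≥0∞) = 2 := rfl
    rw [h4] at h3
    have h5 : ((2 : NNReal) : ℝ) = ((2 : ℕ) : ℝ) := by norm_num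
    rw [h5, ENNReal.rpow_natCast] at h3
    rw [h3, ofReal_integral_eq_lintegral_ofReal hint (Eventually.of_forall fun ω => by positivity)]
    congr 1
    funext ω
    rw [ENNReal.rpow_natCast, ENNReal.ofReal_pow (norm_nonneg _), ofReal_norm]
  have h3 : eLpNorm f 2 sig ^ 4 = ENNReal.ofReal (∫ ω, ‖f ω‖ ^ 2 ∂sig) ^ 2 := by
    rw [← h2, ← pow_mul]
  have hpos : 0 ≤ ∫ ω, ‖f ω‖ ^ 2 ∂sig := integral_nonneg fun ω => by positivity
  rw [h3, ENNReal.ofReal_div_of_pos (by positivity), ENNReal.ofReal_pow hpos,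
    ENNReal.ofReal_pow hs.le, hsu, ENNReal.div_eq_inv_mul, ENNReal.inv_pow]

end Pool.Sph
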