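import Pool.Agent.Helper458.Sph.Defs
import Pool.Agent.Helper458.Sph.P_sig_pos

set_option autoImplicit false

open MeasureTheory Filter Topology Set Metric
open scoped Real ENNReal

namespace Pool.Sph



theorem cs_var (f : S7 → ℂ) (hf : MemLp f 2 sig) :
    ∫ ω, ‖f ω - ((sig.real univ)⁻¹ • ∫ ω, f ω ∂sig : ℂ)‖ ^ 2 ∂sig =
      (∫ ω, ‖f ω‖ ^ 2 ∂sig) - (sig.real univ)⁻¹ * ‖∫ ω, f ω ∂sig‖ ^ 2 := by
  have hS := sig_pos
  have hfi : Integrable f sig := hf.integrable one_le_two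
  have hf2 : Integrable (fun ω => ‖f ω‖ ^ 2) sig :=
    (memLp_two_iff_integrable_sq_norm hf.1).mp hf
  set I : ℂ := ∫ ω, f ω ∂sig with hI
  set m : ℂ := (sig.real univ)⁻¹ • I with hm
  have hin : Integrable (fun ω => inner ℝ (f ω) m) sig := by
    have := hfi.inner_const (𝕜 := ℝ) m
    exact this
  have e1 : ∀ ω, ‖f ω - m‖ ^ 2 = ‖f ω‖ ^ 2 - 2 * inner ℝ (f ω) m + ‖m‖ ^ 2 := fun ω =>
    norm_sub_sq_real _ _
  have e2 : ∫ ω, inner ℝ (f ω) m ∂sig = inner ℝ m I := by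
    rw [hI, ← integral_inner hfi m]
    refine integral_congr_ae (Eventually.of_forall fun ω => ?_)
    exact real_inner_comm _ _
  calc ∫ ω, ‖f ω - m‖ ^ 2 ∂sig = ∫ ω, (‖f ω‖ ^ 2 - 2 * inner ℝ (f ω) m + ‖m‖ ^ 2) ∂sig :=
        integral_congr_ae (Eventually.of_forall e1)
    _ = (∫ ω, ‖f ω‖ ^ 2 ∂sig) - 2 * (∫ ω, inner ℝ (f ω) m ∂sig) + sig.real univ * ‖m‖ ^ 2 := by
        have hsub : Integrable (fun ω => ‖f ω‖ ^ 2 - 2 * inner ℝ (f ω) m) sig :=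
          hf2.sub (hin.const_mul 2)
        rw [integral_add hsub (integrable_const _),
          integral_sub hf2 (hin.const_mul 2), integral_const_mul, integral_const, smul_eq_mul]
    _ = (∫ ω, ‖f ω‖ ^ 2 ∂sig) - (sig.real univ)⁻¹ * ‖I‖ ^ 2 := by
        rw [e2, hm, real_inner_smul_left, real_inner_self_eq_norm_sq, norm_smul, mul_pow,
          Real.norm_eq_abs, abs_of_pos (inv_pos.mpr hS)]
        field_simp
        ring

theorem cs_eLp (f : S7 → ℂ) (hf : MemLp f 2 sig) :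
    eLpNorm f 2 sig ^ 2 = ENNReal.ofReal (∫ ω, ‖f ω‖ ^ 2 ∂sig) := by
  rw [MemLp.eLpNorm_eq_integral_rpow_norm (by norm_num) (by norm_num) hf,
    ← ENNReal.ofReal_pow (by positivity)]
  congr 1
  have h2 : (2 : ℝ≥0∞).toReal = 2 := by norm_num
  rw [h2, ← Real.rpow_natCast, ← Real.rpow_mul (integral_nonneg fun ω => by positivity)]
  norm_num

theorem cs_le (f : S7 → ℂ) (hf : MemLp f 2 sig) :
    ‖∫ ω, f ω ∂sig‖ₑ ^ 4 ≤ sig univ ^ 2 * eLpNorm f 2 sig ^ 4 ∧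
    (‖∫ ω, f ω ∂sig‖ₑ ^ 4 = sig univ ^ 2 * eLpNorm f 2 sig ^ 4 →
      ∃ c : ℂ, f =ᵐ[sig] fun _ => c) := by
  have hS := sig_pos
  set I : ℂ := ∫ ω, f ω ∂sig with hI
  set N : ℝ := ∫ ω, ‖f ω‖ ^ 2 ∂sig with hN
  have hN0 : 0 ≤ N := integral_nonneg fun ω => by positivity
  have hvar := cs_var f hf
  rw [← hI, ← hN] at hvar
  have hvar0 : 0 ≤ N - (sig.real univ)⁻¹ * ‖I‖ ^ 2 := by
    rw [← hvar]; exact integral_nonneg fun ω => by positivity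
  have hle : ‖I‖ ^ 2 ≤ sig.real univ * N := by
    have h1 : (sig.real univ)⁻¹ * ‖I‖ ^ 2 ≤ N := by linarith
    rwa [inv_mul_le_iff₀ hS] at h1
  have hL : ‖I‖ₑ ^ 4 = ENNReal.ofReal ((‖I‖ ^ 2) ^ 2) := by
    rw [← ofReal_norm, ← ENNReal.ofReal_pow (norm_nonneg _)]
    congr 1
    ring
  have hSu : sig univ = ENNReal.ofReal (sig.real univ) := by
    rw [Measure.real, ENNReal.ofReal_toReal (measure_ne_top _ _)]
  have hR : sig univ ^ 2 * eLpNorm f 2 sig ^ 4 = ENNReal.ofReal ((sig.real univ * N) ^ 2) := by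
    rw [show eLpNorm f 2 sig ^ 4 = (eLpNorm f 2 sig ^ 2) ^ 2 by rw [← pow_mul], cs_eLp f hf,
      ← hN, hSu, ← mul_pow, ← ENNReal.ofReal_mul hS.le, ← ENNReal.ofReal_pow (by positivity)]
  rw [hL, hR]
  refine ⟨ENNReal.ofReal_le_ofReal (pow_le_pow_left₀ (by positivity) hle 2), fun heq => ?_⟩
  have h1 : (‖I‖ ^ 2) ^ 2 = (sig.real univ * N) ^ 2 :=
    (ENNReal.ofReal_eq_ofReal_iff (by positivity) (by positivity)).mp heq
  have h2 : ‖I‖ ^ 2 = sig.real univ * N :=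
    (pow_left_inj₀ (by positivity) (by positivity) two_ne_zero).mp h1
  have h3 : ∫ ω, ‖f ω - ((sig.real univ)⁻¹ • I : ℂ)‖ ^ 2 ∂sig = 0 := by
    rw [hvar, h2, inv_mul_cancel_left₀ hS.ne', sub_self]
  have hmem : MemLp (fun ω => f ω - ((sig.real univ)⁻¹ • I : ℂ)) 2 sig :=
    hf.sub (memLp_const _)
  have h4 := (integral_eq_zero_iff_of_nonneg (fun ω => by positivity)
    ((memLp_two_iff_integrable_sq_norm hmem.1).mp hmem)).mp h3
  refine ⟨(sig.real univ)⁻¹ • I, ?_⟩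
  filter_upwards [h4] with ω hω
  have h5 : ‖f ω - ((sig.real univ)⁻¹ • I : ℂ)‖ ^ 2 = 0 := hω
  have h6 : ‖f ω - ((sig.real univ)⁻¹ • I : ℂ)‖ = 0 := by
    exact pow_eq_zero_iff (two_ne_zero) |>.mp h5
  exact sub_eq_zero.mp (norm_eq_zero.mp h6)

end Pool.Sph
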