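import Pool.Agent.Helper458.Sph.Defs
import Pool.Agent.Helper458.Sph.P_ext_cont
import Pool.Agent.Helper458.Sph.P_J_main
import Pool.Agent.Helper458.Sph.P_J_elp
import Pool.Agent.Helper458.Sph.P_L2_elp

set_option autoImplicit false

open MeasureTheory Filter Topology Set Metric
open scoped Real ENNReal

namespace Pool.Sph



theorem sharp (f : S7 → ℂ) (hf : MemLp f 2 sig) :
    eLpNorm (ext f) 4 volume ^ 4 ≤
      ((sig univ)⁻¹ ^ 2 * eLpNorm (ext fun _ => 1) 4 volume ^ 4) * eLpNorm f 2 sig ^ 4 ∧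
    MemLp (ext f) 4 volume := by
  obtain ⟨h1, h2⟩ := J_main f hf
  rw [L2_elp f hf, J_elp, J_elp] at h1
  rw [J_elp] at h2
  refine ⟨?_, ?_, ?_⟩
  · refine h1.trans (le_of_eq ?_)
    ring
  · exact (ext_cont f (hf.integrable (by norm_num))).1.aestronglyMeasurable
  · by_contra hc
    rw [not_lt, top_le_iff] at hc
    rw [hc] at h2
    simp at h2

end Pool.Sph
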