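import Pool.Agent.Helper458.Sph.Defs

set_option autoImplicit false

open MeasureTheory Filter Topology Set Metric
open scoped Real ENNReal

namespace Pool.Sph



theorem sig_univ : sig univ = ENNReal.ofReal (π ^ 4 / 3) := by
  unfold sig
  have hfr : Module.finrank ℝ E8 = 8 := finrank_euclideanSpace_fin
  rw [Measure.toSphere_apply_univ, InnerProductSpace.volume_ball_of_dim_even (k := 4) (by rw [hfr]),
    hfr]
  have h1 : ((8 : ℕ) : ℝ≥0∞) = ENNReal.ofReal 8 := by
    rw [ENNReal.ofReal_ofNat]; rfl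
  rw [h1, ENNReal.ofReal_one, one_pow, one_mul, ← ENNReal.ofReal_mul (by norm_num)]
  congr 1
  have h2 : ((Nat.factorial 4 : ℕ) : ℝ) = 24 := by norm_num [Nat.factorial]
  rw [h2]
  ring

end Pool.Sph
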