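import Pool.Agent.Helper458.Sph.P_sharp
import Pool.Agent.Helper458.Sph.P_sig_pos

set_option autoImplicit false

open MeasureTheory Filter Topology Set Metric
open scoped Real ENNReal

namespace Pool.Sph

/-- For `α ≠ 0` and `β = 0` the hyperplane `W = {ατ + γ = 0}` is `{τ = τ₀}`, `τ₀ = -γ/α`. -/
noncomputable def tau0 (α γ : ℝ) : ℝ := -γ / α

/-- The measure `δ(ατ+γ) δ(τ²-|η|²) dτ dη` on `ℝ × ℝ⁸` (`η = (ρ, ξ)`): it is carried by
`{τ₀} × {|η| = |τ₀|}` and equals `|τ₀|⁶ / (2|α|)` times the image of the surface measure of the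
unit sphere `S⁷` under `ω ↦ (τ₀, |τ₀| ω)`. -/
noncomputable def secMeasure (α γ : ℝ) : Measure (ℝ × E8) :=
  ENNReal.ofReal (|tau0 α γ| ^ 6 / (2 * |α|)) •
    sig.map (fun ω : S7 => (tau0 α γ, |tau0 α γ| • (ω : E8)))

/-- The Fourier extension `∫ f(ζ) e^{-i ζ·y} dσ(ζ)`. -/
noncomputable def secExt (α γ : ℝ) (f : ℝ × E8 → ℂ) (y : ℝ × E8) : ℂ :=
  ∫ ζ : ℝ × E8, f ζ * Complex.exp (-(Complex.I * ((ζ.1 * y.1 + inner ℝ ζ.2 y.2 : ℝ) : ℂ)))
    ∂(secMeasure α γ)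

/-- `‖(fσ)^‖_{L⁴(W)}⁴ = ∫ |(fσ)^(y)|⁴ δ(αy₁+γ) dy`. -/
noncomputable def secL4 (α γ : ℝ) (f : ℝ × E8 → ℂ) : ℝ≥0∞ :=
  ENNReal.ofReal (1 / |α|) * ∫⁻ y : E8, ‖secExt α γ f (tau0 α γ, y)‖ₑ ^ 4

/-- `f₀` is a maximizer of `‖(fσ)^‖_{L⁴(W)}⁴ / ‖f‖_{L²(σ)}⁴` (with finite supremum). -/
def IsMaximizer (α γ : ℝ) (f₀ : ℝ × E8 → ℂ) : Prop :=
  MemLp f₀ 2 (secMeasure α γ) ∧ eLpNorm f₀ 2 (secMeasure α γ) ≠ 0 ∧
  secL4 α γ f₀ / eLpNorm f₀ 2 (secMeasure α γ) ^ 4 < ⊤ ∧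
  ∀ f : ℝ × E8 → ℂ, MemLp f 2 (secMeasure α γ) → eLpNorm f 2 (secMeasure α γ) ≠ 0 →
    secL4 α γ f / eLpNorm f 2 (secMeasure α γ) ^ 4 ≤
      secL4 α γ f₀ / eLpNorm f₀ 2 (secMeasure α γ) ^ 4

/-- the embedding of the sphere -/
noncomputable def sec_final_Phi (τ : ℝ) (ω : S7) : ℝ × E8 := (τ, |τ| • (ω : E8))

theorem sec_final_Phi_cont (τ : ℝ) : Continuous (sec_final_Phi τ) := by
  unfold sec_final_Phi
  fun_prop

theorem sec_final_pull (k : ℝ≥0∞) (hk0 : k ≠ 0) (τ : ℝ) (f : ℝ × E8 → ℂ)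
    (hf : AEStronglyMeasurable f (sig.map (sec_final_Phi τ))) :
    eLpNorm f 2 (k • sig.map (sec_final_Phi τ)) ^ 4 =
      k ^ 2 * eLpNorm (f ∘ sec_final_Phi τ) 2 sig ^ 4 := by
  rw [eLpNorm_smul_measure_of_ne_zero hk0,
    eLpNorm_map_measure hf (sec_final_Phi_cont τ).measurable.aemeasurable, smul_eq_mul, mul_pow]
  congr 1
  rw [← ENNReal.rpow_natCast, ← ENNReal.rpow_mul, ← ENNReal.rpow_natCast]
  congr 1
  rw [ENNReal.toReal_div]
  norm_num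

theorem sec_final_mem (k : ℝ≥0∞) (hk0 : k ≠ 0) (hkt : k ≠ ⊤) (τ : ℝ) (f : ℝ × E8 → ℂ)
    (hf : MemLp f 2 (k • sig.map (sec_final_Phi τ))) :
    MemLp f 2 (sig.map (sec_final_Phi τ)) := by
  have h1 := hf.smul_measure (c := k⁻¹) (ENNReal.inv_ne_top.2 hk0)
  rw [smul_smul, ENNReal.inv_mul_cancel hk0 hkt, one_smul] at h1
  exact h1

theorem sec_final_ext (k : ℝ≥0∞) (τ : ℝ) (f : ℝ × E8 → ℂ)
    (hf : AEStronglyMeasurable f (sig.map (sec_final_Phi τ))) (y : E8) :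
    ∫ ζ : ℝ × E8, f ζ * Complex.exp (-(Complex.I * ((ζ.1 * τ + inner ℝ ζ.2 y : ℝ) : ℂ)))
      ∂(k • sig.map (sec_final_Phi τ)) =
    (k.toReal : ℂ) * (Complex.exp (-(Complex.I * ((τ * τ : ℝ) : ℂ))) *
      ext (f ∘ sec_final_Phi τ) (|τ| • y)) := by
  have hc : Continuous (fun ζ : ℝ × E8 =>
      Complex.exp (-(Complex.I * ((ζ.1 * τ + inner ℝ ζ.2 y : ℝ) : ℂ)))) := by
    fun_prop
  have h0 : AEStronglyMeasurable (fun ζ : ℝ × E8 => f ζ *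
      Complex.exp (-(Complex.I * ((ζ.1 * τ + inner ℝ ζ.2 y : ℝ) : ℂ))))
      (sig.map (sec_final_Phi τ)) := hf.mul hc.aestronglyMeasurable
  rw [integral_smul_measure, integral_map (sec_final_Phi_cont τ).measurable.aemeasurable
    h0, Complex.real_smul]
  congr 1
  unfold ext
  rw [← integral_const_mul]
  congr 1
  funext ω
  have h1 : ((sec_final_Phi τ ω).1 * τ + inner ℝ (sec_final_Phi τ ω).2 y : ℝ) =
      τ * τ + inner ℝ (|τ| • y) (ω : E8) := by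
    unfold sec_final_Phi
    rw [real_inner_smul_left, real_inner_smul_left, real_inner_comm]
  rw [h1, Function.comp_apply]
  push_cast
  rw [mul_add, neg_add, Complex.exp_add]
  ring

theorem sec_final_exp (r : ℝ) : ‖Complex.exp (-(Complex.I * ((r : ℝ) : ℂ)))‖ₑ = 1 := by
  rw [← ofReal_norm, Complex.norm_exp]
  simp

theorem sec_final_scale (h : E8 → ℝ≥0∞) (R : ℝ) (hR : R ≠ 0) :
    ∫⁻ y, h (R • y) = ENNReal.ofReal |(R ^ 8)⁻¹| * ∫⁻ y, h y := by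
  have h1 := (Homeomorph.smulOfNeZero (α := E8) R hR).measurableEmbedding.lintegral_map
    (μ := (volume : Measure E8)) h
  have h2 := Measure.map_addHaar_smul (volume : Measure E8) hR
  have h3 : Measure.map (⇑(Homeomorph.smulOfNeZero (α := E8) R hR)) (volume : Measure E8) =
      Measure.map (fun x => R • x) (volume : Measure E8) := rfl
  rw [h3, h2, lintegral_smul_measure] at h1
  have h4 : Module.finrank ℝ E8 = 8 := by simp [E8]
  rw [h4] at h1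
  exact h1.symm

theorem sec_final_four (g : E8 → ℂ) : ∫⁻ y, ‖g y‖ₑ ^ 4 = eLpNorm g 4 volume ^ 4 := by
  rw [eLpNorm_eq_lintegral_rpow_enorm_toReal (by norm_num) (by norm_num)]
  rw [← ENNReal.rpow_natCast, ← ENNReal.rpow_mul]
  norm_num

theorem sec_final_L4 (α γ : ℝ) (hτ : tau0 α γ ≠ 0) (f : ℝ × E8 → ℂ)
    (hf : AEStronglyMeasurable f (sig.map (sec_final_Phi (tau0 α γ)))) :
    secL4 α γ f = ENNReal.ofReal (1 / |α|) *
      (ENNReal.ofReal (|tau0 α γ| ^ 6 / (2 * |α|)) ^ 4 *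
        (ENNReal.ofReal |(|tau0 α γ| ^ 8)⁻¹| *
          eLpNorm (ext (f ∘ sec_final_Phi (tau0 α γ))) 4 volume ^ 4)) := by
  unfold secL4
  congr 1
  have h1 : ∀ y : E8, ‖secExt α γ f (tau0 α γ, y)‖ₑ ^ 4 =
      ENNReal.ofReal (|tau0 α γ| ^ 6 / (2 * |α|)) ^ 4 *
        ‖ext (f ∘ sec_final_Phi (tau0 α γ)) (|tau0 α γ| • y)‖ₑ ^ 4 := by
    intro y
    have h2 : secExt α γ f (tau0 α γ, y) =
        ((ENNReal.ofReal (|tau0 α γ| ^ 6 / (2 * |α|))).toReal : ℂ) *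
        (Complex.exp (-(Complex.I * ((tau0 α γ * tau0 α γ : ℝ) : ℂ))) *
        ext (f ∘ sec_final_Phi (tau0 α γ)) (|tau0 α γ| • y)) :=
      sec_final_ext _ (tau0 α γ) f hf y
    rw [h2, enorm_mul, enorm_mul, sec_final_exp, one_mul, mul_pow]
    congr 2
    rw [← ofReal_norm, Complex.norm_real, Real.norm_eq_abs,
      abs_of_nonneg ENNReal.toReal_nonneg, ENNReal.ofReal_toReal ENNReal.ofReal_ne_top]
  rw [lintegral_congr h1, lintegral_const_mul' _ _ (ENNReal.pow_ne_top ENNReal.ofReal_ne_top),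
    sec_final_scale (fun y => ‖ext (f ∘ sec_final_Phi (tau0 α γ)) y‖ₑ ^ 4) _
      (abs_ne_zero.2 hτ), sec_final_four]

theorem sec_final_sig0 : sig univ ≠ 0 := by
  unfold sig
  rw [Measure.toSphere_apply_univ]
  have h4 : Module.finrank ℝ E8 = 8 := by simp [E8]
  rw [h4]
  apply mul_ne_zero
  · norm_num
  · exact (measure_ball_pos _ _ one_pos).ne'

theorem sec_final_arith1 (A K X N S E : ℝ≥0∞) (hN0 : N ≠ 0) (hNt : N ≠ ⊤)
    (h : X ≤ (S * E) * N) : A * X / (K * N) ≤ A * (S * E) / K := by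
  calc A * X / (K * N) ≤ A * ((S * E) * N) / (K * N) := by
        apply ENNReal.div_le_div_right
        gcongr
    _ = (A * (S * E)) * N / (K * N) := by rw [mul_assoc A]
    _ = A * (S * E) / K := ENNReal.mul_div_mul_right _ _ hN0 hNt

theorem sec_final_arith2 (A K c s E : ℝ≥0∞) (hc0 : c ≠ 0) (hct : c ≠ ⊤) (hs0 : s ≠ 0)
    (hst : s ≠ ⊤) : A * (c * E) / (K * (c * s)) = A * (s⁻¹ * E) / K := by
  have h1 : A * (c * E) = (A * E) * c := by ring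
  have h2 : K * (c * s) = (K * s) * c := by ring
  rw [h1, h2, ENNReal.mul_div_mul_right _ _ hc0 hct, div_eq_mul_inv, div_eq_mul_inv,
    ENNReal.mul_inv (Or.inr hst) (Or.inr hs0)]
  ring

/-! TARGET: prove this one (helper lemmas may be put before it) -/
theorem sec_final (α γ : ℝ) (hα : α ≠ 0) (hγ : γ ≠ 0) :
    IsMaximizer α γ (fun ζ : ℝ × E8 => ((Real.exp (-|ζ.1|) : ℝ) : ℂ)) := by
  have hτ : tau0 α γ ≠ 0 := by
    unfold tau0
    exact div_ne_zero (neg_ne_zero.2 hγ) hα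
  have hR : 0 < |tau0 α γ| := abs_pos.2 hτ
  have hα' : 0 < |α| := abs_pos.2 hα
  obtain ⟨k, hk⟩ : ∃ k : ℝ≥0∞, k = ENNReal.ofReal (|tau0 α γ| ^ 6 / (2 * |α|)) := ⟨_, rfl⟩
  have hk0 : k ≠ 0 := by
    rw [hk]
    exact (ENNReal.ofReal_pos.2 (by positivity)).ne'
  have hkt : k ≠ ⊤ := by rw [hk]; exact ENNReal.ofReal_ne_top
  have hsec : secMeasure α γ = k • sig.map (sec_final_Phi (tau0 α γ)) := by
    rw [hk]
    rfl
  obtain ⟨A, hA⟩ : ∃ A : ℝ≥0∞, A = ENNReal.ofReal (1 / |α|) * (k ^ 4 *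
    ENNReal.ofReal |(|tau0 α γ| ^ 8)⁻¹|) := ⟨_, rfl⟩
  have hAt : A ≠ ⊤ := by
    rw [hA]
    exact ENNReal.mul_ne_top ENNReal.ofReal_ne_top
      (ENNReal.mul_ne_top (ENNReal.pow_ne_top hkt) ENNReal.ofReal_ne_top)
  have hL4 : ∀ f : ℝ × E8 → ℂ, AEStronglyMeasurable f (sig.map (sec_final_Phi (tau0 α γ))) →
      secL4 α γ f = A * eLpNorm (ext (f ∘ sec_final_Phi (tau0 α γ))) 4 volume ^ 4 := by
    intro f hf
    rw [sec_final_L4 α γ hτ f hf, hA, ← hk]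
    ring
  have hfin : IsFiniteMeasure (sig.map (sec_final_Phi (tau0 α γ))) := inferInstance
  have hf0c : Continuous (fun ζ : ℝ × E8 => ((Real.exp (-|ζ.1|) : ℝ) : ℂ)) := by fun_prop
  have hf0m : MemLp (fun ζ : ℝ × E8 => ((Real.exp (-|ζ.1|) : ℝ) : ℂ)) 2
      (sig.map (sec_final_Phi (tau0 α γ))) := by
    refine MemLp.of_bound hf0c.aestronglyMeasurable 1 (Filter.Eventually.of_forall fun ζ => ?_)
    rw [Complex.norm_real, Real.norm_eq_abs, abs_of_pos (Real.exp_pos _), Real.exp_le_one_iff]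
    linarith [abs_nonneg ζ.1]
  have hs0 := sec_final_sig0
  have hst : sig univ ≠ ⊤ := measure_ne_top _ _
  obtain ⟨c, hc⟩ : ∃ c : ℂ, c = ((Real.exp (-|tau0 α γ|) : ℝ) : ℂ) := ⟨_, rfl⟩
  have hc0 : c ≠ 0 := by
    rw [hc]
    exact_mod_cast (Real.exp_pos _).ne'
  have hF0 : (fun ζ : ℝ × E8 => ((Real.exp (-|ζ.1|) : ℝ) : ℂ)) ∘ sec_final_Phi (tau0 α γ) =
      fun _ => c := by
    funext ω
    rw [hc]
    rfl
  have hext0 : ext (fun _ => c) = c • ext (fun _ => 1) := by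
    funext x
    rw [Pi.smul_apply, smul_eq_mul]
    unfold ext
    rw [← integral_const_mul]
    congr 1
    funext ω
    ring
  have hE0 : eLpNorm (ext (fun _ => c)) 4 volume ^ 4 =
      ‖c‖ₑ ^ 4 * eLpNorm (ext fun _ => 1) 4 volume ^ 4 := by
    rw [hext0, eLpNorm_const_smul, mul_pow]
  have hsig : sig ≠ 0 := by
    intro h
    apply hs0
    rw [h]
    simp
  have hN0 : eLpNorm (fun _ : S7 => c) 2 sig ^ 4 = ‖c‖ₑ ^ 4 * sig univ ^ 2 := by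
    rw [eLpNorm_const c (by norm_num) hsig, mul_pow]
    congr 1
    rw [← ENNReal.rpow_natCast, ← ENNReal.rpow_mul, ← ENNReal.rpow_natCast]
    norm_num
  have hcE0 : ‖c‖ₑ ^ 4 ≠ 0 := pow_ne_zero _ (enorm_ne_zero.2 hc0)
  have hcEt : ‖c‖ₑ ^ 4 ≠ ⊤ := ENNReal.pow_ne_top enorm_ne_top
  have hS : ((sig univ) ^ 2)⁻¹ = (sig univ)⁻¹ ^ 2 := ENNReal.inv_pow
  have hQ0 : secL4 α γ (fun ζ : ℝ × E8 => ((Real.exp (-|ζ.1|) : ℝ) : ℂ)) /
      eLpNorm (fun ζ : ℝ × E8 => ((Real.exp (-|ζ.1|) : ℝ) : ℂ)) 2 (secMeasure α γ) ^ 4 =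
      A * ((sig univ)⁻¹ ^ 2 * eLpNorm (ext fun _ => 1) 4 volume ^ 4) / k ^ 2 := by
    rw [hL4 _ hf0m.1, hsec, sec_final_pull k hk0 _ _ hf0m.1, hF0, hE0, hN0, ← hS]
    exact sec_final_arith2 A (k ^ 2) _ _ _ hcE0 hcEt (pow_ne_zero _ hs0)
      (ENNReal.pow_ne_top hst)
  have hsharp1 := sharp (fun _ => 1) (memLp_const 1)
  refine ⟨?_, ?_, ?_, ?_⟩
  · rw [hsec]
    exact hf0m.smul_measure hkt
  · intro h
    have h1 := sec_final_pull k hk0 (tau0 α γ) _ hf0m.1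
    rw [← hsec, h, hF0, hN0] at h1
    have h2 : k ^ 2 * (‖c‖ₑ ^ 4 * sig univ ^ 2) ≠ 0 :=
      mul_ne_zero (pow_ne_zero _ hk0) (mul_ne_zero hcE0 (pow_ne_zero _ hs0))
    apply h2
    rw [← h1]
    norm_num
  · rw [hQ0]
    apply ENNReal.div_lt_top
    · apply ENNReal.mul_ne_top hAt
      apply ENNReal.mul_ne_top
      · exact ENNReal.pow_ne_top (ENNReal.inv_ne_top.2 hs0)
      · exact ENNReal.pow_ne_top hsharp1.2.2.ne
    · exact pow_ne_zero _ hk0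
  · intro f hf hfn
    rw [hQ0]
    have hfm : MemLp f 2 (sig.map (sec_final_Phi (tau0 α γ))) :=
      sec_final_mem k hk0 hkt _ f (by rw [← hsec]; exact hf)
    have hFm : MemLp (f ∘ sec_final_Phi (tau0 α γ)) 2 sig :=
      (memLp_map_measure_iff hfm.1 (sec_final_Phi_cont _).measurable.aemeasurable).1 hfm
    have hp := sec_final_pull k hk0 (tau0 α γ) f hfm.1
    rw [hL4 _ hfm.1, hsec, hp]
    apply sec_final_arith1
    · intro h0
      rw [← hsec, h0, mul_zero] at hp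
      exact hfn (pow_eq_zero_iff (by norm_num) |>.1 hp)
    · exact ENNReal.pow_ne_top hFm.2.ne
    · exact (sharp _ hFm).1

end Pool.Sph
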